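import Pool.Agent.H48.RK.DefsL
import Pool.Agent.H34.NA.Forms

/-!
# ALG: algebraic sets of small codimension contain hyperbolic hypersurfaces
-/

set_option autoImplicit false

namespace Pool.Agent.H48.RK

open MeasureTheory Metric Set
open scoped BigOperators ComplexConjugate

theorem zero : Zero := by
  intro k P e he hP
  exact Pool.Agent.H34.NA.forms_common_zero (by simp) P e he hP

theorem eval_aeval {σ τ : Type} (g : σ → MvPolynomial τ ℂ) (l : τ → ℂ) (p : MvPolynomial σ ℂ) :
    MvPolynomial.eval l (MvPolynomial.aeval g p) =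
      MvPolynomial.eval (fun α => MvPolynomial.eval l (g α)) p := by
  induction p using MvPolynomial.induction_on with
  | C a => simp
  | add p q hp hq => rw [map_add, map_add, map_add, hp, hq]
  | mul_X p i hp => rw [map_mul, map_mul, map_mul, hp, MvPolynomial.aeval_X, MvPolynomial.eval_X]

theorem alg (hU : GamUniv) (hL : TheoremL) (hZ : Zero) (hB : BadToD) : Alg := by
  obtain ⟨C, c, hC, hc, h1⟩ := hL
  refine ⟨C, c, hC, hc, fun n d k hn hd hk P e he hP => ?_⟩
  have hn0 : (0 : ℝ) < (n : ℝ) + 2 := by positivity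
  have hd0 : (0 : ℝ) < d := by
    have hlog : 0 < Real.log ((n : ℝ) + 2) := Real.log_pos (by
      have : (0 : ℝ) ≤ n := Nat.cast_nonneg n
      linarith)
    exact lt_of_lt_of_le (by positivity) hd
  have h2 := h1 n d k hn hd hk (fun _ _ => 0) (fun i z _ => by simp [form]) 1 (by
    rw [← Real.exp_zero]
    apply Real.exp_le_exp.2
    apply div_nonpos_of_nonpos_of_nonneg _ hn0.le
    nlinarith)
  obtain ⟨a, ha⟩ : ∃ a : Fin (k + 1) × Idx (n + 2) d → ℂ,
      ¬ BadL (fun i α => (0 : ℂ) + ((1 : ℝ) : ℂ) * a (i, α)) := by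
    by_contra hcon
    push Not at hcon
    have huniv : {a : Fin (k + 1) × Idx (n + 2) d → ℂ |
        BadL (fun i α => (0 : ℂ) + ((1 : ℝ) : ℂ) * a (i, α))} = univ := eq_univ_of_forall hcon
    rw [huniv, hU, ← ENNReal.ofReal_one, ENNReal.ofReal_le_ofReal_iff (Real.exp_pos _).le] at h2
    have h3 : Real.exp (-c * (d : ℝ) ^ 2 / (n + 2)) < 1 := by
      rw [← Real.exp_zero]
      apply Real.exp_lt_exp.2
      apply div_neg_of_neg_of_pos _ hn0
      have : 0 < (d : ℝ) ^ 2 := by positivity
      nlinarith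
    linarith
  set A : Fin (k + 1) → Idx (n + 2) d → ℂ := fun i α => (0 : ℂ) + ((1 : ℝ) : ℂ) * a (i, α) with hA
  let g : Idx (n + 2) d → MvPolynomial (Fin (k + 1)) ℂ := fun α =>
    ∑ i, MvPolynomial.X i * MvPolynomial.C (A i α)
  have hg : ∀ α, (g α).IsHomogeneous 1 := by
    intro α
    apply MvPolynomial.IsHomogeneous.sum
    intro i _
    exact (MvPolynomial.isHomogeneous_X ℂ i).mul (MvPolynomial.isHomogeneous_C _ _)
  obtain ⟨l, hl, hz⟩ := hZ k (fun j => MvPolynomial.aeval g (P j)) e he (fun j => by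
    have := (hP j).aeval g hg
    rwa [one_mul] at this)
  refine ⟨∑ i, l i • A i, ?_, fun j => ?_⟩
  · by_contra hh
    exact ha ⟨l, hl, not_hyp_le hB hh⟩
  · have h4 := hz j
    rw [eval_aeval] at h4
    have h5 : (∑ i, l i • A i) = fun α => MvPolynomial.eval l (g α) := by
      funext α
      simp [g, Finset.sum_apply, map_sum]
    rw [h5]
    exact h4

end Pool.Agent.H48.RK
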