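import Pool.Agent.H48.RK.Fin

/-!
# Theorem L: random linear systems all of whose members are hyperbolic

`A : Fin (k+1) → Idx m d → ℂ`: `k + 1` forms.  All members of the linear system are hyperbolic iff
`¬ BadL A` (up to `BadToD`).
-/

set_option autoImplicit false

namespace Pool.Agent.H48.RK

open MeasureTheory Metric Set
open scoped BigOperators ComplexConjugate

/-- some member of the linear system spanned by the forms `A i` contains a large disc -/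
def BadL {m d k : ℕ} (A : Fin (k + 1) → Idx m d → ℂ) : Prop :=
  ∃ l : Fin (k + 1) → ℂ, l ≠ 0 ∧ BadD (∑ i, l i • A i)

/-- SUPL: all the forms `a (i, ·)` are bounded by `2 d` on the sphere -/
def SupL : Prop := ∀ (m d k : ℕ), 1 ≤ m → 1 ≤ d →
  8 * (m : ℝ) * Real.log (48 * d * m + 1) + 6 ≤ (d : ℝ) ^ 2 →
  gam (Fin (k + 1) × Idx m d)
      {a | ∃ i, ∃ z : E m, ‖z‖ = 1 ∧ 2 * (d : ℝ) < ‖form (fun α => a (i, α)) z.ofLp‖} ≤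
    ENNReal.ofReal ((k + 1) * Real.exp (-(d : ℝ) ^ 2 / 4))

/-- NUML -/
def NumL : Prop := ∃ C c : ℝ, 0 < C ∧ 0 < c ∧ ∀ n d k : ℕ, 1 ≤ n →
  C * (n + 2) * Real.log (n + 2) ≤ d → ((k : ℝ) + 1) ≤ c * d → ∃ m1 K : ℕ, 1 ≤ m1 ∧ 1 ≤ d ∧
    k + 1 ≤ d ∧ 459 * ((m1 : ℝ) - 1) ≤ Real.sqrt d ∧
    2 * 10 ^ 10 * (d : ℝ) ^ 12 ≤ 10 ^ K ∧
    8 * ((n + 2 : ℕ) : ℝ) * Real.log (48 * d * ((n + 2 : ℕ) : ℝ) + 1) + 6 ≤ (d : ℝ) ^ 2 ∧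
    (1 / 10 : ℝ) ^ K ≤ Real.exp (-c * d / (n + 2)) ^ 4 ∧
    ((k : ℝ) + 1) * Real.exp (-(d : ℝ) ^ 2 / 4) +
        (4 * ((n + 2 : ℕ) : ℝ) * 10 ^ K + 1) ^ (2 * (n + 2) * (K + 1)) *
          (2 * (10 : ℝ) ^ K + 1) ^ (2 * (k + 1)) * ((1 / 10 : ℝ) ^ K) ^ (m1 ^ 2) ≤
      Real.exp (-c * d ^ 2 / (n + 2))

/-- MAINL: THEOREM L (`k = 0` is `TheoremRD`) -/
def TheoremL : Prop := ∃ C c : ℝ, 0 < C ∧ 0 < c ∧ ∀ n d k : ℕ, 1 ≤ n →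
  C * (n + 2) * Real.log (n + 2) ≤ d → ((k : ℝ) + 1) ≤ c * d →
  ∀ A₀ : Fin (k + 1) → Idx (n + 2) d → ℂ,
    (∀ i, ∀ z : E (n + 2), ‖z‖ ≤ 1 → ‖form (A₀ i) z.ofLp‖ ≤ 1) →
    ∀ s : ℝ, Real.exp (-c * d / (n + 2)) ≤ s →
      gam (Fin (k + 1) × Idx (n + 2) d) {a | BadL (fun i α => A₀ i α + (s : ℂ) * a (i, α))} ≤
        ENNReal.ofReal (Real.exp (-c * d ^ 2 / (n + 2)))

/-- ZERO: `k` homogeneous polynomials of positive degrees have a common zero `l ≠ 0` in `ℂ^(k+1)` -/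
def Zero : Prop := ∀ (k : ℕ) (P : Fin k → MvPolynomial (Fin (k + 1)) ℂ) (e : Fin k → ℕ),
  (∀ j, 1 ≤ e j) → (∀ j, (P j).IsHomogeneous (e j)) →
    ∃ l : Fin (k + 1) → ℂ, l ≠ 0 ∧ ∀ j, MvPolynomial.eval l (P j) = 0

/-- ALG: every algebraic set of codimension at most `c d` contains hyperbolic hypersurfaces -/
def Alg : Prop := ∃ C c : ℝ, 0 < C ∧ 0 < c ∧ ∀ n d k : ℕ, 1 ≤ n →
  C * (n + 2) * Real.log (n + 2) ≤ d → ((k : ℝ) + 1) ≤ c * d →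
  ∀ (P : Fin k → MvPolynomial (Idx (n + 2) d) ℂ) (e : Fin k → ℕ),
    (∀ j, 1 ≤ e j) → (∀ j, (P j).IsHomogeneous (e j)) →
    ∃ a : Idx (n + 2) d → ℂ, Hyp a ∧ ∀ j, MvPolynomial.eval a (P j) = 0

end Pool.Agent.H48.RK
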