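import Pool.Agent.H48.RK.Defs

/-!
# Small ball probability for almost orthonormal linear forms

PROOF. `K i j = ∑ t, v i t * conj (v j t)`, `K i i = 1`. For `k : J → ℤ × ℤ` with entries in `[-N, N]`,
`N = ⌊1/(10η)⌋`, let `c j = 5 η (k1 + k2 I)` and `w = ∑ c j conj (v j)`. Then `∑ t, w t * v i t = (K c)_i` and
`|K c|_∞ ≥ |c|_∞ / 2`, so the translates `A + w` of `A = {a | ∀ i, ‖L_i a + x_i‖ ≤ η}` are disjoint
(`5η/2 > 2η`), and `‖w‖² = c^* K c ≤ 3/4 |J|`. `GamShift` and `GamUniv`: `2 exp(-3|J|/4) gam A · #k ≤ 2`, and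
`#k = (2N+1)^(2|J|) ≥ (1/(100η²))^|J|`, `exp (3/4) ≤ 2.12`.
-/

set_option autoImplicit false

namespace Pool.Agent.H48.RK

open MeasureTheory
open scoped BigOperators ComplexConjugate

private lemma exp34 : Real.exp (3 / 4) ≤ 2.12 := by
  by_contra h
  push Not at h
  have h1 : (2.12 : ℝ) ^ 4 < Real.exp (3 / 4) ^ 4 := pow_lt_pow_left₀ h (by norm_num) (by norm_num)
  have h2 : Real.exp (3 / 4) ^ 4 = Real.exp 1 ^ 3 := by
    rw [← Real.exp_nat_mul, ← Real.exp_nat_mul]
    norm_num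
  have h3 : Real.exp 1 ^ 3 ≤ 2.7182818286 ^ 3 :=
    pow_le_pow_left₀ (Real.exp_pos 1).le Real.exp_one_lt_d9.le 3
  rw [h2] at h1
  norm_num at h1 h3
  linarith

/-- the lattice points -/
private noncomputable def cc {J : Type} (η : ℝ) (k : J → ℤ × ℤ) (j : J) : ℂ :=
  ((5 * η : ℝ) : ℂ) * (((k j).1 : ℂ) + ((k j).2 : ℂ) * Complex.I)

private lemma cc_sub {J : Type} (η : ℝ) (k k' : J → ℤ × ℤ) (j : J) :
    cc η k j - cc η k' j = ((5 * η : ℝ) : ℂ) *
      ((((k j).1 - (k' j).1 : ℤ) : ℂ) + (((k j).2 - (k' j).2 : ℤ) : ℂ) * Complex.I) := by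
  unfold cc
  push_cast
  ring

private lemma lat_norm (m n : ℤ) (h : m ≠ 0 ∨ n ≠ 0) : 1 ≤ ‖((m : ℂ) + (n : ℂ) * Complex.I)‖ := by
  rcases h with h | h
  · have h1 := Complex.abs_re_le_norm ((m : ℂ) + (n : ℂ) * Complex.I)
    have h2 : ((m : ℂ) + (n : ℂ) * Complex.I).re = m := by simp
    rw [h2] at h1
    have h3 : (1 : ℝ) ≤ |(m : ℝ)| := by exact_mod_cast Int.one_le_abs h
    linarith
  · have h1 := Complex.abs_im_le_norm ((m : ℂ) + (n : ℂ) * Complex.I)
    have h2 : ((m : ℂ) + (n : ℂ) * Complex.I).im = n := by simp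
    rw [h2] at h1
    have h3 : (1 : ℝ) ≤ |(n : ℝ)| := by exact_mod_cast Int.one_le_abs h
    linarith

private lemma cc_norm {J : Type} (η : ℝ) (hη : 0 < η) (k : J → ℤ × ℤ) (j : J) (N : ℕ)
    (hN : (N : ℝ) * (10 * η) ≤ 1) (h1 : |(k j).1| ≤ N) (h2 : |(k j).2| ≤ N) : ‖cc η k j‖ ^ 2 ≤ 1 / 2 := by
  rw [← Complex.normSq_eq_norm_sq, Complex.normSq_apply]
  have e1 : (cc η k j).re = 5 * η * (k j).1 := by
    unfold cc
    simp
  have e2 : (cc η k j).im = 5 * η * (k j).2 := by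
    unfold cc
    simp
  rw [e1, e2]
  have b : ∀ m : ℤ, |m| ≤ N → (5 * η * (m : ℝ)) * (5 * η * m) ≤ 1 / 4 := by
    intro m hm
    have hm' : |(m : ℝ)| ≤ N := by exact_mod_cast hm
    have h3 : |5 * η * (m : ℝ)| ≤ 1 / 2 := by
      rw [abs_mul, abs_of_pos (by positivity : (0 : ℝ) < 5 * η)]
      calc 5 * η * |(m : ℝ)| ≤ 5 * η * N := mul_le_mul_of_nonneg_left hm' (by positivity)
        _ = N * (10 * η) / 2 := by ring
        _ ≤ 1 / 2 := by linarith
    have h4 := abs_le.1 h3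
    nlinarith [h4.1, h4.2]
  have := b _ h1
  have := b _ h2
  linarith

theorem smallBall (hU : GamUniv) (hS : GamShift) : SmallBall := by
  classical
  intro T J _ _ _ v hv hK x η hη hη1
  obtain ⟨K, hKd⟩ : ∃ K : J → J → ℂ, ∀ i j, K i j = ∑ t, v i t * conj (v j t) := ⟨_, fun _ _ => rfl⟩
  have hKii : ∀ i, K i i = 1 := by
    intro i
    rw [hKd]
    have h1 : ∀ t, v i t * conj (v i t) = ((‖v i t‖ ^ 2 : ℝ) : ℂ) := fun t => by
      rw [Complex.mul_conj, Complex.normSq_eq_norm_sq]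
    rw [Finset.sum_congr rfl fun t _ => h1 t, ← Complex.ofReal_sum, hv i, Complex.ofReal_one]
  have hKo : ∀ i, ∑ j ∈ Finset.univ.erase i, ‖K i j‖ ≤ 1 / 2 := by
    intro i
    simp only [hKd]
    exact hK i
  obtain ⟨w, hwd⟩ : ∃ w : (J → ℤ × ℤ) → T → ℂ, ∀ k t, w k t = ∑ j, cc η k j * conj (v j t) :=
    ⟨_, fun _ _ => rfl⟩
  have hLw : ∀ k i, ∑ t, w k t * v i t = ∑ j, cc η k j * K i j := by
    intro k i
    simp only [hwd, hKd, Finset.sum_mul, Finset.mul_sum]
    rw [Finset.sum_comm]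
    refine Finset.sum_congr rfl fun j _ => Finset.sum_congr rfl fun t _ => ?_
    ring
  -- separation
  have key : ∀ k k' : J → ℤ × ℤ, k ≠ k' → ∃ i, 2 * η < ‖∑ j, (cc η k j - cc η k' j) * K i j‖ := by
    intro k k' hkk
    obtain ⟨j0, hj0⟩ := Function.ne_iff.1 hkk
    obtain ⟨i, -, hi⟩ := Finset.exists_max_image (Finset.univ : Finset J)
      (fun j => ‖cc η k j - cc η k' j‖) ⟨j0, Finset.mem_univ _⟩
    refine ⟨i, ?_⟩
    have h0 : 5 * η ≤ ‖cc η k j0 - cc η k' j0‖ := by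
      rw [cc_sub, norm_mul, Complex.norm_real, Real.norm_of_nonneg (by positivity)]
      have h1 : (k j0).1 - (k' j0).1 ≠ 0 ∨ (k j0).2 - (k' j0).2 ≠ 0 := by
        by_contra h
        push Not at h
        exact hj0 (Prod.ext (sub_eq_zero.1 h.1) (sub_eq_zero.1 h.2))
      have h2 := lat_norm _ _ h1
      nlinarith
    have hi0 : 5 * η ≤ ‖cc η k i - cc η k' i‖ := h0.trans (hi j0 (Finset.mem_univ _))
    have hsum : ∑ j, (cc η k j - cc η k' j) * K i j = (cc η k i - cc η k' i) +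
        ∑ j ∈ Finset.univ.erase i, (cc η k j - cc η k' j) * K i j := by
      rw [← Finset.add_sum_erase _ _ (Finset.mem_univ i), hKii, mul_one]
    have hb : ‖∑ j ∈ Finset.univ.erase i, (cc η k j - cc η k' j) * K i j‖ ≤
        ‖cc η k i - cc η k' i‖ * (1 / 2) := by
      refine (norm_sum_le _ _).trans ?_
      calc ∑ j ∈ Finset.univ.erase i, ‖(cc η k j - cc η k' j) * K i j‖
          ≤ ∑ j ∈ Finset.univ.erase i, ‖cc η k i - cc η k' i‖ * ‖K i j‖ := by
            refine Finset.sum_le_sum fun j _ => ?_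
            rw [norm_mul]
            exact mul_le_mul_of_nonneg_right (hi j (Finset.mem_univ _)) (norm_nonneg _)
        _ = ‖cc η k i - cc η k' i‖ * ∑ j ∈ Finset.univ.erase i, ‖K i j‖ := (Finset.mul_sum _ _ _).symm
        _ ≤ ‖cc η k i - cc η k' i‖ * (1 / 2) := mul_le_mul_of_nonneg_left (hKo i) (norm_nonneg _)
    have hc : ‖cc η k i - cc η k' i‖ ≤ ‖∑ j, (cc η k j - cc η k' j) * K i j‖ +
        ‖∑ j ∈ Finset.univ.erase i, (cc η k j - cc η k' j) * K i j‖ := by
      have h1 : cc η k i - cc η k' i = ∑ j, (cc η k j - cc η k' j) * K i j -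
          ∑ j ∈ Finset.univ.erase i, (cc η k j - cc η k' j) * K i j := by
        rw [hsum]
        ring
      calc ‖cc η k i - cc η k' i‖ = ‖∑ j, (cc η k j - cc η k' j) * K i j -
          ∑ j ∈ Finset.univ.erase i, (cc η k j - cc η k' j) * K i j‖ := by rw [← h1]
        _ ≤ _ := norm_sub_le _ _
    linarith
  -- the set and its translates
  obtain ⟨A, hAd⟩ : ∃ A : Set (T → ℂ), A = {a | ∀ i, ‖∑ t, a t * v i t + x i‖ ≤ η} := ⟨_, rfl⟩
  rw [← hAd]
  have hAmem : ∀ a, a ∈ A ↔ ∀ i, ‖∑ t, a t * v i t + x i‖ ≤ η := fun a => by rw [hAd]; rfl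
  have hAm : MeasurableSet A := by
    have h1 : IsClosed A := by
      rw [hAd]
      simp only [Set.setOf_forall]
      exact isClosed_iInter fun i => isClosed_le (by fun_prop) continuous_const
    exact h1.measurableSet
  have hdist : ∀ (k k' : J → ℤ × ℤ) (a b : T → ℂ), k ≠ k' → a ∈ A → b ∈ A →
      (∀ t, a t - b t = w k t - w k' t) → False := by
    intro k k' a b hkk ha hb hab
    obtain ⟨i, hi⟩ := key k k' hkk
    have h1 := (hAmem a).1 ha i
    have h2 := (hAmem b).1 hb i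
    have h3 : ∑ j, (cc η k j - cc η k' j) * K i j =
        (∑ t, a t * v i t + x i) - (∑ t, b t * v i t + x i) := by
      have h4 : ∑ t, a t * v i t - ∑ t, b t * v i t = ∑ t, w k t * v i t - ∑ t, w k' t * v i t := by
        rw [← Finset.sum_sub_distrib, ← Finset.sum_sub_distrib]
        refine Finset.sum_congr rfl fun t _ => ?_
        rw [← sub_mul, ← sub_mul, hab t]
      rw [hLw, hLw] at h4
      rw [add_sub_add_right_eq_sub, h4, ← Finset.sum_sub_distrib]
      refine Finset.sum_congr rfl fun j _ => ?_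
      ring
    rw [h3] at hi
    have h5 := norm_sub_le (∑ t, a t * v i t + x i) (∑ t, b t * v i t + x i)
    linarith
  have hd1 : Pairwise (Function.onFun Disjoint fun k => {a : T → ℂ | a - w k ∈ A}) := by
    intro k k' hkk
    rw [Function.onFun, Set.disjoint_left]
    intro a h1 h2
    exact hdist k' k _ _ (Ne.symm hkk) h1 h2 fun t => by
      simp only [Pi.sub_apply]
      ring
  have hd2 : Pairwise (Function.onFun Disjoint fun k => {a : T → ℂ | a + w k ∈ A}) := by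
    intro k k' hkk
    rw [Function.onFun, Set.disjoint_left]
    intro a h1 h2
    exact hdist k k' _ _ hkk h1 h2 fun t => by
      simp only [Pi.add_apply]
      ring
  have hm1 : ∀ u : T → ℂ, MeasurableSet {a : T → ℂ | a - u ∈ A} := fun u =>
    hAm.preimage (measurable_id.sub_const u)
  have hm2 : ∀ u : T → ℂ, MeasurableSet {a : T → ℂ | a + u ∈ A} := fun u =>
    hAm.preimage (measurable_id.add_const u)
  obtain ⟨N, hNd⟩ : ∃ N : ℕ, N = ⌊1 / (10 * η)⌋₊ := ⟨_, rfl⟩
  obtain ⟨S, hSd⟩ : ∃ S : Finset (J → ℤ × ℤ), S = Fintype.piFinset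
    (fun _ : J => Finset.Icc (-(N : ℤ)) N ×ˢ Finset.Icc (-(N : ℤ)) N) := ⟨_, rfl⟩
  have hmu : ∀ (F : (J → ℤ × ℤ) → Set (T → ℂ)), Pairwise (Function.onFun Disjoint F) →
      (∀ k, MeasurableSet (F k)) → ∑ k ∈ S, gam T (F k) ≤ 1 := by
    intro F hF hFm
    rw [← measure_biUnion_finset (fun k _ k' _ h => hF h) (fun k _ => hFm k), ← hU T]
    exact measure_mono (Set.subset_univ _)
  -- the norms of the translations
  have hN10 : (N : ℝ) * (10 * η) ≤ 1 := by
    have h1 : (N : ℝ) ≤ 1 / (10 * η) := by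
      rw [hNd]
      exact Nat.floor_le (by positivity)
    rwa [le_div_iff₀ (by positivity)] at h1
  have hwn : ∀ k ∈ S, ∑ t, ‖w k t‖ ^ 2 ≤ 3 / 4 * (Fintype.card J : ℝ) := by
    intro k hk
    have hcj : ∀ j, ‖cc η k j‖ ^ 2 ≤ 1 / 2 := by
      intro j
      rw [hSd, Fintype.mem_piFinset] at hk
      have h1 := hk j
      rw [Finset.mem_product, Finset.mem_Icc, Finset.mem_Icc] at h1
      exact cc_norm η hη k j N hN10 (abs_le.2 h1.1) (abs_le.2 h1.2)
    have h1 : ((∑ t, ‖w k t‖ ^ 2 : ℝ) : ℂ) = ∑ i, conj (cc η k i) * ∑ j, cc η k j * K i j := by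
      have h2 : ∀ t, ((‖w k t‖ ^ 2 : ℝ) : ℂ) = ∑ i, conj (cc η k i) * (w k t * v i t) := by
        intro t
        rw [← Complex.normSq_eq_norm_sq, ← Complex.mul_conj]
        have h3 : conj (w k t) = ∑ i, conj (cc η k i) * v i t := by
          rw [hwd, map_sum]
          refine Finset.sum_congr rfl fun i _ => ?_
          rw [map_mul, Complex.conj_conj]
        rw [h3, Finset.mul_sum]
        refine Finset.sum_congr rfl fun i _ => ?_
        ring
      rw [Complex.ofReal_sum, Finset.sum_congr rfl fun t _ => h2 t, Finset.sum_comm]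
      refine Finset.sum_congr rfl fun i _ => ?_
      rw [← Finset.mul_sum, hLw]
    have h2 : ‖((∑ t, ‖w k t‖ ^ 2 : ℝ) : ℂ)‖ = ∑ t, ‖w k t‖ ^ 2 := by
      rw [Complex.norm_real, Real.norm_of_nonneg (Finset.sum_nonneg fun t _ => by positivity)]
    rw [← h2, h1]
    refine (norm_sum_le _ _).trans ?_
    have h3 : ∀ i ∈ (Finset.univ : Finset J), ‖conj (cc η k i) * ∑ j, cc η k j * K i j‖ ≤ 3 / 4 := by
      intro i _
      rw [norm_mul, Complex.norm_conj]
      have h4 : ‖∑ j, cc η k j * K i j‖ ≤ ∑ j, ‖cc η k j‖ * ‖K i j‖ := by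
        refine (norm_sum_le _ _).trans (le_of_eq ?_)
        exact Finset.sum_congr rfl fun j _ => norm_mul _ _
      have h5 : ∑ j, ‖K i j‖ ≤ 3 / 2 := by
        rw [← Finset.add_sum_erase _ _ (Finset.mem_univ i), hKii, norm_one]
        have := hKo i
        linarith
      calc ‖cc η k i‖ * ‖∑ j, cc η k j * K i j‖ ≤ ‖cc η k i‖ * ∑ j, ‖cc η k j‖ * ‖K i j‖ :=
            mul_le_mul_of_nonneg_left h4 (norm_nonneg _)
        _ = ∑ j, (‖cc η k i‖ * ‖cc η k j‖) * ‖K i j‖ := by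
            rw [Finset.mul_sum]
            exact Finset.sum_congr rfl fun j _ => by ring
        _ ≤ ∑ j, (1 / 2) * ‖K i j‖ := by
            refine Finset.sum_le_sum fun j _ => mul_le_mul_of_nonneg_right ?_ (norm_nonneg _)
            nlinarith [hcj i, hcj j, sq_nonneg (‖cc η k i‖ - ‖cc η k j‖)]
        _ = (1 / 2) * ∑ j, ‖K i j‖ := (Finset.mul_sum _ _ _).symm
        _ ≤ 3 / 4 := by linarith
    refine (Finset.sum_le_sum h3).trans (le_of_eq ?_)
    rw [Finset.sum_const, nsmul_eq_mul, Finset.card_univ]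
    ring
  -- the number of translations
  have hcard : (1 / (100 * η ^ 2)) ^ Fintype.card J ≤ (S.card : ℝ) := by
    have h1 : S.card = ((2 * N + 1) * (2 * N + 1)) ^ Fintype.card J := by
      rw [hSd, Fintype.card_piFinset, Finset.prod_const, Finset.card_univ, Finset.card_product,
        Int.card_Icc]
      congr 2 <;> omega
    rw [h1]
    push_cast
    refine pow_le_pow_left₀ (by positivity) ?_ _
    have h2 : 1 / (10 * η) < (N : ℝ) + 1 := by
      rw [hNd]
      exact Nat.lt_floor_add_one _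
    have h3 : 1 / (10 * η) ≤ 2 * (N : ℝ) + 1 := by
      rcases Nat.eq_zero_or_pos N with h | h
      · rw [h] at h2 ⊢
        push_cast at h2 ⊢
        linarith
      · have h4 : (1 : ℝ) ≤ N := by exact_mod_cast h
        linarith
    have h4 : 1 / (100 * η ^ 2) = (1 / (10 * η)) * (1 / (10 * η)) := by
      field_simp
      norm_num
    rw [h4]
    exact mul_le_mul h3 h3 (by positivity) (by positivity)
  -- conclusion
  have hA1 : gam T A ≤ 1 := by
    rw [← hU T]
    exact measure_mono (Set.subset_univ _)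
  have hfin : gam T A ≠ ⊤ := ne_top_of_le_ne_top ENNReal.one_ne_top hA1
  obtain ⟨g, hg0, hg⟩ : ∃ g : ℝ, 0 ≤ g ∧ gam T A = ENNReal.ofReal g :=
    ⟨(gam T A).toReal, ENNReal.toReal_nonneg, (ENNReal.ofReal_toReal hfin).symm⟩
  set E : ℝ := Real.exp (-(3 / 4 * (Fintype.card J : ℝ))) with hE
  have hE0 : 0 < E := Real.exp_pos _
  have hone : ∀ k ∈ S, ENNReal.ofReal (2 * E * g) ≤
      gam T {a | a - w k ∈ A} + gam T {a | a + w k ∈ A} := by
    intro k hk
    refine le_trans ?_ (hS T A hAm (w k))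
    rw [hg, ENNReal.ofReal_mul (by positivity), ENNReal.ofReal_mul (by norm_num)]
    refine mul_le_mul' (mul_le_mul' (le_of_eq ?_) ?_) le_rfl
    · norm_num
    · refine ENNReal.ofReal_le_ofReal ?_
      rw [hE]
      exact Real.exp_le_exp.2 (neg_le_neg (hwn k hk))
  have htot : ENNReal.ofReal ((S.card : ℝ) * (2 * E * g)) ≤ ENNReal.ofReal 2 := by
    have h1 : ENNReal.ofReal ((S.card : ℝ) * (2 * E * g)) = ∑ k ∈ S, ENNReal.ofReal (2 * E * g) := by
      rw [Finset.sum_const, nsmul_eq_mul, ENNReal.ofReal_mul (Nat.cast_nonneg _), ENNReal.ofReal_natCast]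
    rw [h1]
    refine (Finset.sum_le_sum hone).trans ?_
    rw [Finset.sum_add_distrib]
    refine (add_le_add (hmu _ hd1 fun k => hm1 _) (hmu _ hd2 fun k => hm2 _)).trans (le_of_eq ?_)
    norm_num
  rw [ENNReal.ofReal_le_ofReal_iff (by norm_num)] at htot
  rw [hg]
  refine ENNReal.ofReal_le_ofReal ?_
  have h1 : (S.card : ℝ) * (E * g) ≤ 1 := by linarith
  have h2 : (1 / (100 * η ^ 2)) ^ Fintype.card J * (E * g) ≤ 1 :=
    (mul_le_mul_of_nonneg_right hcard (by positivity)).trans h1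
  have h3 : E * (2.12 : ℝ) ^ Fintype.card J ≥ 1 := by
    have h4 : E * Real.exp (3 / 4) ^ Fintype.card J = 1 := by
      rw [hE, ← Real.exp_nat_mul, ← Real.exp_add]
      rw [Real.exp_eq_one_iff]
      ring
    rw [← h4]
    exact mul_le_mul_of_nonneg_left (pow_le_pow_left₀ (Real.exp_pos _).le exp34 _) hE0.le
  have h5 : (212 * η ^ 2) ^ Fintype.card J = (100 * η ^ 2) ^ Fintype.card J * (2.12 : ℝ) ^ Fintype.card J := by
    rw [← mul_pow]
    congr 1
    ring
  have h6 : (100 * η ^ 2) ^ Fintype.card J * (1 / (100 * η ^ 2)) ^ Fintype.card J = 1 := by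
    rw [← mul_pow]
    have : 100 * η ^ 2 * (1 / (100 * η ^ 2)) = 1 := by
      field_simp
    rw [this, one_pow]
  rw [h5]
  set P : ℝ := (100 * η ^ 2) ^ Fintype.card J with hP
  set R : ℝ := (1 / (100 * η ^ 2)) ^ Fintype.card J with hR
  set D : ℝ := (2.12 : ℝ) ^ Fintype.card J with hD
  have hP0 : 0 < P := by positivity
  have hD0 : 0 < D := by positivity
  -- g ≤ g * (E * D) = (R * (E * g)) * (P * D) ≤ P * D
  calc g = g * 1 := (mul_one g).symm
    _ ≤ g * (E * D) := mul_le_mul_of_nonneg_left h3 hg0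
    _ = (P * R) * (g * (E * D)) := by rw [h6, one_mul]
    _ = (R * (E * g)) * (P * D) := by ring
    _ ≤ 1 * (P * D) := mul_le_mul_of_nonneg_right h2 (by positivity)
    _ = P * D := one_mul _

end Pool.Agent.H48.RK
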