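import Pool.Agent.H48.RK.Defs

/-!
# Random hypersurfaces (MP_b509a1_ag, Theorem R): modules `Lip` and `Net`
-/

set_option autoImplicit false

namespace Pool.Agent.H48.RK

open MeasureTheory Metric Set
open scoped BigOperators ComplexConjugate

lemma one_add_inv_pow_le (d : ℕ) (hd : 1 ≤ d) : (1 + 1 / (d : ℝ)) ^ d ≤ 3 := by
  have hd0 : (0 : ℝ) < d := by exact_mod_cast hd
  have h1 : 1 + 1 / (d : ℝ) ≤ Real.exp (1 / (d : ℝ)) := by
    have := Real.add_one_le_exp (1 / (d : ℝ))
    linarith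
  have h2 : (1 + 1 / (d : ℝ)) ^ d ≤ (Real.exp (1 / (d : ℝ))) ^ d :=
    pow_le_pow_left₀ (by positivity) h1 d
  have h3 : (Real.exp (1 / (d : ℝ))) ^ d = Real.exp 1 := by
    rw [← Real.exp_nat_mul]
    congr 1
    field_simp
  have h4 : Real.exp 1 < 2.7182818286 := Real.exp_one_lt_d9
  linarith

theorem lip : Lip := by
  intro m d hd P hP S hS z z' hz hzz
  have hd0 : (0 : ℝ) < d := by exact_mod_cast hd
  have hS0 : 0 ≤ S := by
    have h := hS z
    rw [hz, one_pow, mul_one] at h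
    exact le_trans (norm_nonneg _) h
  rcases eq_or_ne z' z with h | h
  · subst h
    simp
  set ρ : ℝ := ‖z' - z‖ with hρ
  have hρ0 : 0 < ρ := norm_pos_iff.mpr (sub_ne_zero.mpr h)
  set u : E m := ((ρ⁻¹ : ℝ) : ℂ) • (z' - z) with hu
  have hu1 : ‖u‖ = 1 := by
    rw [hu, norm_smul, Complex.norm_real, Real.norm_of_nonneg (inv_nonneg.mpr hρ0.le), ← hρ]
    exact inv_mul_cancel₀ hρ0.ne'
  set g : ℂ → ℂ := fun t => P (z + t • u) with hg
  have hgd : Differentiable ℂ g := by
    apply hP.comp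
    exact (differentiable_const z).add (differentiable_id.smul_const u)
  have hg0 : g 0 = P z := by simp [hg]
  have hgρ : g (ρ : ℂ) = P z' := by
    simp only [hg]
    congr 1
    rw [hu, smul_smul, ← Complex.ofReal_mul, mul_inv_cancel₀ hρ0.ne']
    simp
  have hbound : ∀ t : ℂ, ‖t‖ ≤ 1 / (d : ℝ) → ‖g t‖ ≤ 3 * S := by
    intro t ht
    have h1 : ‖z + t • u‖ ≤ 1 + 1 / (d : ℝ) := by
      calc ‖z + t • u‖ ≤ ‖z‖ + ‖t • u‖ := norm_add_le _ _
        _ = 1 + ‖t‖ := by rw [hz, norm_smul, hu1, mul_one]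
        _ ≤ 1 + 1 / (d : ℝ) := by linarith
    have h2 : ‖z + t • u‖ ^ d ≤ 3 :=
      le_trans (pow_le_pow_left₀ (norm_nonneg _) h1 d) (one_add_inv_pow_le d hd)
    calc ‖g t‖ ≤ S * ‖z + t • u‖ ^ d := hS _
      _ ≤ S * 3 := mul_le_mul_of_nonneg_left h2 hS0
      _ = 3 * S := by ring
  have hder : ∀ t ∈ closedBall (0 : ℂ) (1 / (2 * d)), ‖deriv g t‖ ≤ 6 * d * S := by
    intro t ht
    have hR : (0 : ℝ) < 1 / (2 * d) := by positivity
    have h1 : ‖deriv g t‖ ≤ 3 * S / (1 / (2 * d)) := by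
      apply Complex.norm_deriv_le_of_forall_mem_sphere_norm_le hR hgd.diffContOnCl
      intro s hs
      apply hbound
      rw [mem_closedBall, dist_zero_right] at ht
      rw [mem_sphere, dist_eq_norm] at hs
      calc ‖s‖ = ‖(s - t) + t‖ := by rw [sub_add_cancel]
        _ ≤ ‖s - t‖ + ‖t‖ := norm_add_le _ _
        _ ≤ 1 / (2 * d) + 1 / (2 * d) := by rw [hs]; linarith
        _ = 1 / (d : ℝ) := by field_simp; ring
    calc ‖deriv g t‖ ≤ 3 * S / (1 / (2 * d)) := h1
      _ = 6 * d * S := by field_simp; ring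
  have hmv := Convex.norm_image_sub_le_of_norm_deriv_le (𝕜 := ℂ) (f := g) (C := 6 * d * S)
    (s := closedBall (0 : ℂ) (1 / (2 * d))) (x := 0) (y := (ρ : ℂ))
    (fun x _ => hgd x) hder (convex_closedBall _ _)
    (mem_closedBall_self (by positivity))
    (by
      rw [mem_closedBall, dist_zero_right, Complex.norm_real, Real.norm_of_nonneg hρ0.le]
      exact hzz)
  rw [hg0, hgρ, sub_zero, Complex.norm_real, Real.norm_of_nonneg hρ0.le] at hmv
  exact hmv

/-- index of a real number of `[-1, 1]` -/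
noncomputable def qi (K : ℕ) (x : ℝ) : Fin (2 * K + 1) :=
  ⟨min (2 * K) ⌊(K : ℝ) * (x + 1)⌋₊, by omega⟩

lemma qi_close (K : ℕ) (hK : 1 ≤ K) (x y : ℝ) (hx : |x| ≤ 1) (hy : |y| ≤ 1)
    (h : qi K x = qi K y) : |x - y| ≤ 1 / (K : ℝ) := by
  have hK0 : (0 : ℝ) < K := by exact_mod_cast hK
  have key : ∀ t : ℝ, |t| ≤ 1 → min (2 * K) ⌊(K : ℝ) * (t + 1)⌋₊ = ⌊(K : ℝ) * (t + 1)⌋₊ := by
    intro t ht
    apply min_eq_right
    have h1 : (K : ℝ) * (t + 1) ≤ ((2 * K : ℕ) : ℝ) := by
      push_cast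
      have := (abs_le.mp ht).2
      nlinarith
    exact Nat.floor_le_of_le h1
  have h' : ⌊(K : ℝ) * (x + 1)⌋₊ = ⌊(K : ℝ) * (y + 1)⌋₊ := by
    have := congrArg Fin.val h
    simp only [qi] at this
    rwa [key x hx, key y hy] at this
  have hx0 : 0 ≤ (K : ℝ) * (x + 1) := by
    have := (abs_le.mp hx).1
    apply mul_nonneg hK0.le; linarith
  have hy0 : 0 ≤ (K : ℝ) * (y + 1) := by
    have := (abs_le.mp hy).1
    apply mul_nonneg hK0.le; linarith
  have hx1 := Nat.floor_le hx0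
  have hx2 := Nat.lt_floor_add_one ((K : ℝ) * (x + 1))
  have hy1 := Nat.floor_le hy0
  have hy2 := Nat.lt_floor_add_one ((K : ℝ) * (y + 1))
  rw [h'] at hx1 hx2
  rw [abs_le, le_div_iff₀ hK0, neg_le, ]
  constructor
  · rw [le_div_iff₀ hK0]
    nlinarith
  · nlinarith

theorem net : Net := by
  classical
  intro m d hm hd
  set K : ℕ := 24 * d * m with hKdef
  have hK : 1 ≤ K := by
    have : 1 ≤ d * m := Nat.one_le_iff_ne_zero.mpr (by positivity)
    nlinarith
  have hK0 : (0 : ℝ) < K := by exact_mod_cast hK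
  have hm0 : (0 : ℝ) < m := by exact_mod_cast hm
  have hm1 : (1 : ℝ) ≤ m := by exact_mod_cast hm
  have hd0 : (0 : ℝ) < d := by exact_mod_cast hd
  let ι := Fin m → Fin (2 * K + 1) × Fin (2 * K + 1)
  let cell : E m → ι := fun z k => (qi K (z k).re, qi K (z k).im)
  let e0 : E m := EuclideanSpace.single ⟨0, hm⟩ (1 : ℂ)
  have he0 : ‖e0‖ = 1 := by simp [e0]
  let rep : ι → E m := fun i => if h : ∃ z : E m, ‖z‖ = 1 ∧ cell z = i then h.choose else e0
  have hrep1 : ∀ i, ‖rep i‖ = 1 := by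
    intro i
    by_cases h : ∃ z : E m, ‖z‖ = 1 ∧ cell z = i
    · simp only [rep, dif_pos h]
      exact h.choose_spec.1
    · simp only [rep, dif_neg h]
      exact he0
  have hrep2 : ∀ z : E m, ‖z‖ = 1 → cell (rep (cell z)) = cell z := by
    intro z hz
    have h : ∃ w : E m, ‖w‖ = 1 ∧ cell w = cell z := ⟨z, hz, rfl⟩
    simp only [rep, dif_pos h]
    exact h.choose_spec.2
  refine ⟨Finset.univ.image rep, ?_, ?_, ?_⟩
  · calc (Finset.univ.image rep).card ≤ (Finset.univ : Finset ι).card := Finset.card_image_le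
      _ = (48 * d * m + 1) ^ (2 * m) := by
        simp only [ι, Finset.card_univ, Fintype.card_pi, Fintype.card_prod, Fintype.card_fin,
          Finset.prod_const, Finset.card_univ]
        rw [← pow_two, ← pow_mul]
        congr 1
        rw [hKdef]; ring
  · intro z hz
    obtain ⟨i, -, rfl⟩ := Finset.mem_image.mp hz
    exact hrep1 i
  · intro z hz
    refine ⟨rep (cell z), Finset.mem_image.mpr ⟨_, Finset.mem_univ _, rfl⟩, ?_⟩
    set w := rep (cell z) with hw
    have hw1 : ‖w‖ = 1 := hrep1 _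
    have hcell : cell w = cell z := hrep2 z hz
    have hcoord : ∀ (v : E m), ‖v‖ = 1 → ∀ k, ‖v k‖ ≤ 1 := by
      intro v hv k
      rw [← hv]
      exact PiLp.norm_apply_le v k
    have hre : ∀ k, |(z k).re - (w k).re| ≤ 1 / (K : ℝ) := by
      intro k
      apply qi_close K hK
      · exact le_trans (Complex.abs_re_le_norm _) (hcoord z hz k)
      · exact le_trans (Complex.abs_re_le_norm _) (hcoord w hw1 k)
      · have := congrFun hcell k
        exact (congrArg Prod.fst this).symm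
    have him : ∀ k, |(z k).im - (w k).im| ≤ 1 / (K : ℝ) := by
      intro k
      apply qi_close K hK
      · exact le_trans (Complex.abs_im_le_norm _) (hcoord z hz k)
      · exact le_trans (Complex.abs_im_le_norm _) (hcoord w hw1 k)
      · have := congrFun hcell k
        exact (congrArg Prod.snd this).symm
    have hsq : ∀ k, ‖(z - w) k‖ ^ 2 ≤ 2 * (1 / (K : ℝ)) ^ 2 := by
      intro k
      have e1 : (z - w) k = z k - w k := by simp
      rw [e1, ← Complex.normSq_eq_norm_sq, Complex.normSq_apply]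
      have h1 := hre k
      have h2 := him k
      have h1' : (z k - w k).re * (z k - w k).re ≤ (1 / (K : ℝ)) ^ 2 := by
        rw [Complex.sub_re, ← pow_two, ← sq_abs]
        exact pow_le_pow_left₀ (abs_nonneg _) h1 2
      have h2' : (z k - w k).im * (z k - w k).im ≤ (1 / (K : ℝ)) ^ 2 := by
        rw [Complex.sub_im, ← pow_two, ← sq_abs]
        exact pow_le_pow_left₀ (abs_nonneg _) h2 2
      linarith
    have hnorm : ‖z - w‖ ^ 2 ≤ (1 / (12 * (d : ℝ))) ^ 2 := by
      rw [EuclideanSpace.norm_sq_eq]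
      calc ∑ k, ‖(z - w) k‖ ^ 2 ≤ ∑ _k : Fin m, 2 * (1 / (K : ℝ)) ^ 2 :=
            Finset.sum_le_sum fun k _ => hsq k
        _ = 2 * m * (1 / (K : ℝ)) ^ 2 := by
            rw [Finset.sum_const, Finset.card_univ, Fintype.card_fin, nsmul_eq_mul]; ring
        _ ≤ (2 * m) ^ 2 * (1 / (K : ℝ)) ^ 2 := by
            apply mul_le_mul_of_nonneg_right _ (by positivity)
            nlinarith
        _ = (1 / (12 * (d : ℝ))) ^ 2 := by
            rw [hKdef]; push_cast
            field_simp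
            ring
    exact (pow_le_pow_iff_left₀ (norm_nonneg _) (by positivity) two_ne_zero).mp hnorm

end Pool.Agent.H48.RK
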