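import Pool.Agent.H48.RK.Defs

/-!
# CELL: finitely many cells of discs

The cell of a disc is given by the Taylor coefficients `c_0, .., c_K` at `0`, rounded to multiples
of `1/(2 m 10^K)`.
-/

set_option autoImplicit false

namespace Pool.Agent.H48.RK

open MeasureTheory Metric Set
open scoped BigOperators ComplexConjugate

/-- the Taylor coefficient at `0` -/
noncomputable def tc {m : ℕ} (h : ℂ → E m) (j : ℕ) : E m :=
  ((j.factorial : ℕ) : ℂ)⁻¹ • iteratedDeriv j h 0

theorem tc_hasSum {m : ℕ} {h : ℂ → E m} (hd : DifferentiableOn ℂ h (ball 0 1)) {t : ℂ}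
    (ht : ‖t‖ < 1) : HasSum (fun j => t ^ j • tc h j) (h t) := by
  have h1 := Complex.hasSum_taylorSeries_on_ball hd (z := t) (by simpa using ht)
  have e : (fun j => t ^ j • tc h j) =
      fun n => ((n.factorial : ℕ) : ℂ)⁻¹ • (t - 0) ^ n • iteratedDeriv n h 0 := by
    funext j
    rw [sub_zero, tc, smul_comm]
  rw [e]
  exact h1

theorem tc_zero {m : ℕ} (h : ℂ → E m) : tc h 0 = h 0 := by
  simp [tc]

/-- Cauchy's estimate -/
theorem tc_le {m : ℕ} {h : ℂ → E m} (H : Disc h) {j : ℕ} (hj : 1 ≤ j) : ‖tc h j‖ ≤ 3 / 5 := by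
  have key : ∀ R : ℝ, 0 < R → R < 1 → ‖tc h j‖ * R ^ j ≤ 3 / 5 := by
    intro R hR hR1
    have hsub : closedBall (0 : ℂ) R ⊆ ball 0 1 := closedBall_subset_ball hR1
    have hd : DifferentiableOn ℂ (fun z => h z - h 0) (closedBall 0 R) :=
      (H.diff.mono hsub).sub_const _
    have hc : DiffContOnCl ℂ (fun z => h z - h 0) (ball 0 R) := by
      apply DifferentiableOn.diffContOnCl
      rw [closure_ball (0 : ℂ) hR.ne']
      exact hd
    have h1 := Complex.norm_iteratedDeriv_le_of_forall_mem_sphere_norm_le j hR hc (C := 3 / 5)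
      (fun z hz => H.le z (hsub (sphere_subset_closedBall hz)))
    have han : AnalyticAt ℂ h 0 := H.diff.analyticAt (ball_mem_nhds (0 : ℂ) one_pos)
    have h2 : iteratedDeriv j (fun z => h z - h 0) 0 = iteratedDeriv j h 0 := by
      have h3 := iteratedDeriv_sub (n := j) (x := (0 : ℂ)) (f := h) (g := fun _ => h 0)
        han.contDiffAt contDiffAt_const
      have h4 : (h - fun _ => h 0) = fun z => h z - h 0 := rfl
      rw [h4, iteratedDeriv_const, if_neg (by omega), sub_zero] at h3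
      exact h3
    rw [h2] at h1
    have hf : (0 : ℝ) < (j.factorial : ℝ) := by exact_mod_cast j.factorial_pos
    have hRj : 0 < R ^ j := pow_pos hR j
    have h5 : ‖tc h j‖ = (j.factorial : ℝ)⁻¹ * ‖iteratedDeriv j h 0‖ := by
      rw [tc, norm_smul, norm_inv, Complex.norm_natCast]
    rw [h5]
    calc (j.factorial : ℝ)⁻¹ * ‖iteratedDeriv j h 0‖ * R ^ j
        ≤ (j.factorial : ℝ)⁻¹ * ((j.factorial : ℝ) * (3 / 5) / R ^ j) * R ^ j := by gcongr
      _ = 3 / 5 := by field_simp
  have hlim : Filter.Tendsto (fun R : ℝ => ‖tc h j‖ * R ^ j) (nhdsWithin 1 (Iio 1))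
      (nhds (‖tc h j‖ * 1 ^ j)) := by
    apply Filter.Tendsto.mono_left _ nhdsWithin_le_nhds
    exact (continuous_const.mul (continuous_pow j)).tendsto 1
  rw [one_pow, mul_one] at hlim
  refine le_of_tendsto hlim ?_
  filter_upwards [Ioo_mem_nhdsLT (show (0 : ℝ) < 1 by norm_num)] with R hR
  exact key R hR.1 hR.2

theorem tc_le_one {m : ℕ} {h : ℂ → E m} (H : Disc h) (j : ℕ) : ‖tc h j‖ ≤ 1 := by
  rcases Nat.eq_zero_or_pos j with rfl | hj
  · rw [tc_zero, H.unit]
  · exact (tc_le H hj).trans (by norm_num)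

/-- rounding -/
noncomputable def rd (N : ℕ) (x : ℝ) : Fin (2 * N + 1) :=
  Fin.ofNat (2 * N + 1) (⌊(N : ℝ) * x⌋ + N).toNat

theorem rd_eq {N : ℕ} (hN : 0 < N) {x y : ℝ} (hx : |x| ≤ 1) (hy : |y| ≤ 1) (h : rd N x = rd N y) :
    |x - y| ≤ 1 / N := by
  have hN0 : (0 : ℝ) < N := by exact_mod_cast hN
  have aux : ∀ z : ℝ, |z| ≤ 1 → -(N : ℤ) ≤ ⌊(N : ℝ) * z⌋ ∧ ⌊(N : ℝ) * z⌋ ≤ N := by
    intro z hz
    rw [abs_le] at hz
    constructor
    · rw [Int.le_floor]
      push_cast
      nlinarith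
    · have : ⌊(N : ℝ) * z⌋ ≤ ⌊((N : ℤ) : ℝ)⌋ := by
        apply Int.floor_le_floor
        push_cast
        nlinarith
      rwa [Int.floor_intCast] at this
  obtain ⟨hx1, hx2⟩ := aux x hx
  obtain ⟨hy1, hy2⟩ := aux y hy
  have h1 : (rd N x).val = (rd N y).val := by rw [h]
  unfold rd at h1
  rw [Fin.val_ofNat, Fin.val_ofNat, Nat.mod_eq_of_lt (by omega), Nat.mod_eq_of_lt (by omega)] at h1
  have h2 : ⌊(N : ℝ) * x⌋ = ⌊(N : ℝ) * y⌋ := by omega
  have h3 := Int.abs_sub_lt_one_of_floor_eq_floor h2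
  rw [← mul_sub, abs_mul, abs_of_pos hN0] at h3
  rw [le_div_iff₀ hN0]
  linarith

theorem coord_le {m : ℕ} (v : E m) (i : Fin m) : ‖v i‖ ≤ ‖v‖ := PiLp.norm_apply_le v i

theorem cells : Cells := by
  intro m K hm
  set N : ℕ := 2 * m * 10 ^ K with hNdef
  have hN : 0 < N := by positivity
  refine ⟨Fin (K + 1) → Fin m → Fin (2 * N + 1) × Fin (2 * N + 1), inferInstance,
    fun h j i => (rd N (tc h j i).re, rd N (tc h j i).im), ?_, ?_⟩
  · simp only [Fintype.card_pi, Fintype.card_prod, Fintype.card_fin, Finset.prod_const,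
      Finset.card_univ]
    rw [← pow_two, ← pow_mul, ← pow_mul]
    have e1 : 2 * N + 1 = 4 * m * 10 ^ K + 1 := by rw [hNdef]; ring
    have e2 : 2 * m * (K + 1) = 2 * (m * (K + 1)) := by ring
    rw [e1, e2]
  · intro h h' H H' hc t ht
    have hdj : ∀ j, j < K + 1 → ‖tc h j - tc h' j‖ ≤ 3 / 4 * (1 / 10 : ℝ) ^ K := by
      intro j hj
      have hN0 : (0 : ℝ) < N := by exact_mod_cast hN
      have hco : ∀ i : Fin m, ‖(tc h j - tc h' j) i‖ ^ 2 ≤ 2 * (1 / N : ℝ) ^ 2 := by
        intro i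
        have h1 := congrFun (congrFun hc ⟨j, hj⟩) i
        simp only [Prod.mk.injEq] at h1
        have hb : ‖tc h j i‖ ≤ 1 := (coord_le _ i).trans (tc_le_one H j)
        have hb' : ‖tc h' j i‖ ≤ 1 := (coord_le _ i).trans (tc_le_one H' j)
        have hre := rd_eq hN ((Complex.abs_re_le_norm _).trans hb)
          ((Complex.abs_re_le_norm _).trans hb') h1.1
        have him := rd_eq hN ((Complex.abs_im_le_norm _).trans hb)
          ((Complex.abs_im_le_norm _).trans hb') h1.2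
        rw [Complex.sq_norm, Complex.normSq_apply]
        have e : (tc h j - tc h' j) i = tc h j i - tc h' j i := rfl
        rw [e, Complex.sub_re, Complex.sub_im, ← pow_two, ← pow_two, two_mul]
        exact add_le_add (sq_le_sq' (by linarith [(abs_le.1 hre).1]) (abs_le.1 hre).2)
          (sq_le_sq' (by linarith [(abs_le.1 him).1]) (abs_le.1 him).2)
      have h2 : ‖tc h j - tc h' j‖ ^ 2 ≤ (3 / 4 * (1 / 10 : ℝ) ^ K) ^ 2 := by
        rw [EuclideanSpace.norm_sq_eq]
        calc ∑ i, ‖(tc h j - tc h' j) i‖ ^ 2 ≤ ∑ _i : Fin m, 2 * (1 / N : ℝ) ^ 2 :=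
              Finset.sum_le_sum fun i _ => hco i
          _ = m * (2 * (1 / N : ℝ) ^ 2) := by
              rw [Finset.sum_const, Finset.card_univ, Fintype.card_fin, nsmul_eq_mul]
          _ ≤ (3 / 4 * (1 / 10 : ℝ) ^ K) ^ 2 := by
              have hm0 : (1 : ℝ) ≤ m := by exact_mod_cast hm
              have hNe : (N : ℝ) = 2 * m * 10 ^ K := by rw [hNdef]; push_cast; ring
              rw [hNe]
              have hp : (0 : ℝ) < 10 ^ K := by positivity
              have e3 : (m : ℝ) * (2 * (1 / (2 * m * 10 ^ K)) ^ 2) =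
                  1 / (2 * m) * ((1 / 10) ^ K) ^ 2 := by
                rw [one_div_pow (10 : ℝ) K]
                field_simp
              rw [e3, mul_pow]
              apply mul_le_mul_of_nonneg_right _ (sq_nonneg _)
              rw [div_le_iff₀ (by positivity)]
              nlinarith
      exact (sq_le_sq₀ (norm_nonneg _) (by positivity)).1 h2
    have ht1 : ‖t‖ < 1 := lt_of_le_of_lt ht (by norm_num)
    set q : ℝ := (1 / 10 : ℝ) ^ K with hq
    have hq0 : 0 ≤ q := by positivity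
    have hS : HasSum (fun j => t ^ j • (tc h j - tc h' j)) (h t - h' t) := by
      have h1 := (tc_hasSum H.diff ht1).sub (tc_hasSum H'.diff ht1)
      have e : (fun j => t ^ j • (tc h j - tc h' j)) = fun j => t ^ j • tc h j - t ^ j • tc h' j := by
        funext j
        rw [smul_sub]
      rw [e]
      exact h1
    have hT := (hasSum_nat_add_iff' (K + 1)).2 hS
    have hgeo : HasSum (fun n : ℕ => (1 / 12 : ℝ) ^ n) (12 / 11) := by
      have := hasSum_geometric_of_lt_one (r := (1 / 12 : ℝ)) (by norm_num) (by norm_num)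
      norm_num at this ⊢
      exact this
    have hg : HasSum (fun n : ℕ => 6 / 5 * (1 / 12 : ℝ) ^ (K + 1) * (1 / 12 : ℝ) ^ n)
        (6 / 5 * (1 / 12 : ℝ) ^ (K + 1) * (12 / 11)) := hgeo.mul_left _
    have htail := hT.norm_le_of_bounded hg (by
      intro n
      rw [norm_smul, norm_pow]
      have a1 : ‖tc h (n + (K + 1)) - tc h' (n + (K + 1))‖ ≤ 6 / 5 := by
        have b1 := tc_le H (j := n + (K + 1)) (by omega)
        have b2 := tc_le H' (j := n + (K + 1)) (by omega)
        have b3 := norm_sub_le (tc h (n + (K + 1))) (tc h' (n + (K + 1)))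
        linarith
      have a2 : ‖t‖ ^ (n + (K + 1)) ≤ (1 / 12 : ℝ) ^ (n + (K + 1)) :=
        pow_le_pow_left₀ (norm_nonneg _) ht _
      calc ‖t‖ ^ (n + (K + 1)) * ‖tc h (n + (K + 1)) - tc h' (n + (K + 1))‖
          ≤ (1 / 12 : ℝ) ^ (n + (K + 1)) * (6 / 5) := by gcongr
        _ = 6 / 5 * (1 / 12 : ℝ) ^ (K + 1) * (1 / 12 : ℝ) ^ n := by rw [pow_add]; ring)
    have hhead : ‖∑ j ∈ Finset.range (K + 1), t ^ j • (tc h j - tc h' j)‖ ≤ 3 / 4 * q * (12 / 11) := by
      calc ‖∑ j ∈ Finset.range (K + 1), t ^ j • (tc h j - tc h' j)‖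
          ≤ ∑ j ∈ Finset.range (K + 1), ‖t ^ j • (tc h j - tc h' j)‖ := norm_sum_le _ _
        _ ≤ ∑ j ∈ Finset.range (K + 1), 3 / 4 * q * (1 / 12 : ℝ) ^ j := by
            apply Finset.sum_le_sum
            intro j hj
            rw [norm_smul, norm_pow, mul_comm]
            have a2 : ‖t‖ ^ j ≤ (1 / 12 : ℝ) ^ j := pow_le_pow_left₀ (norm_nonneg _) ht _
            exact mul_le_mul (hdj j (Finset.mem_range.1 hj)) a2 (by positivity) (by positivity)
        _ = 3 / 4 * q * ∑ j ∈ Finset.range (K + 1), (1 / 12 : ℝ) ^ j := by rw [Finset.mul_sum]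
        _ ≤ 3 / 4 * q * (12 / 11) := by
            apply mul_le_mul_of_nonneg_left _ (by positivity)
            exact sum_le_hasSum _ (fun _ _ => by positivity) hgeo
    have hpow : (1 / 12 : ℝ) ^ (K + 1) ≤ 1 / 12 * q := by
      rw [pow_succ, mul_comm]
      apply mul_le_mul_of_nonneg_left _ (by norm_num)
      exact pow_le_pow_left₀ (by norm_num) (by norm_num) K
    have hsplit : h t - h' t = (h t - h' t - ∑ j ∈ Finset.range (K + 1), t ^ j • (tc h j - tc h' j)) +
        ∑ j ∈ Finset.range (K + 1), t ^ j • (tc h j - tc h' j) := by abel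
    rw [hsplit]
    refine (norm_add_le _ _).trans ?_
    nlinarith

end Pool.Agent.H48.RK
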