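import Pool.Agent.H48.RK.Defs

/-!
# Final form of Theorem R

`Hyp a`: every holomorphic map from the unit disc to the hypersurface has Fubini-Study derivative
less than `4` at `0`, and every entire curve in the hypersurface is constant.
-/

set_option autoImplicit false

namespace Pool.Agent.H48.RK

open MeasureTheory Metric Set
open scoped BigOperators ComplexConjugate

/-- the hypersurface `form a = 0` is hyperbolic, with a uniform bound for discs -/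
def Hyp {m d : ℕ} (a : Idx m d → ℂ) : Prop :=
  (∀ f : ℂ → Fin m → ℂ, DifferentiableOn ℂ f (ball 0 1) → (∀ z ∈ ball (0 : ℂ) 1, f z ≠ 0) →
    (∀ z ∈ ball (0 : ℂ) 1, form a (f z) = 0) → fs f 0 < 4) ∧
  ∀ g : ℂ → Fin m → ℂ, Differentiable ℂ g → (∀ z, g z ≠ 0) → (∀ z, form a (g z) = 0) →
    ∀ z, ∃ c : ℂ, g z = c • g 0

lemma not_hyp_le (hB : BadToD) {m d : ℕ} {a : Idx m d → ℂ} (h : ¬ Hyp a) : BadD a := by
  by_contra hn
  apply h
  refine ⟨fun f h1 h2 h3 => ?_, fun g h1 h2 h3 => ?_⟩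
  · by_contra h4
    exact hn ⟨f, h1, h2, h3, not_lt.1 h4⟩
  · by_contra h4
    exact hn (hB m d a ⟨g, h1, h2, h3, h4⟩)

lemma form_lin {m d : ℕ} (a b : Idx m d → ℂ) (s : ℂ) (z : Fin m → ℂ) :
    form (a + s • b) z = form a z + s * form b z := by
  simp only [form, Pi.add_apply, Pi.smul_apply, smul_eq_mul, add_mul, Finset.sum_add_distrib,
    Finset.mul_sum, mul_assoc]

/-- exponentials beat `2 d` -/
def Num2 : Prop := ∀ c : ℝ, 0 < c → ∃ C : ℝ, 0 < C ∧ ∀ n d : ℕ, 1 ≤ n →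
  C * (n + 2) * Real.log (n + 2) ≤ d →
  2 * (d : ℝ) * Real.exp (-c * d / (n + 2)) ≤ Real.exp (-(c / 2) * d / (n + 2)) ∧
  1 ≤ d ∧ 8 * ((n + 2 : ℕ) : ℝ) * Real.log (48 * d * ((n + 2 : ℕ) : ℝ) + 1) + 6 ≤ (d : ℝ) ^ 2 ∧
  Real.exp (-(d : ℝ) ^ 2 / 4) + Real.exp (-c * d ^ 2 / (n + 2)) < 1

def FinalR : Prop := ∃ C c : ℝ, 0 < C ∧ 0 < c ∧ ∀ n d : ℕ, 1 ≤ n →
  C * (n + 2) * Real.log (n + 2) ≤ d →
  ∀ a₀ : Idx (n + 2) d → ℂ, (∀ z : E (n + 2), ‖z‖ ≤ 1 → ‖form a₀ z.ofLp‖ ≤ 1) →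
    (∀ s : ℝ, Real.exp (-c * d / (n + 2)) ≤ s →
      gam (Idx (n + 2) d) {a | ¬ Hyp (a₀ + (s : ℂ) • a)} ≤
        ENNReal.ofReal (Real.exp (-c * d ^ 2 / (n + 2)))) ∧
    ∃ a : Idx (n + 2) d → ℂ, Hyp a ∧
      ∀ z : E (n + 2), ‖z‖ ≤ 1 → ‖form a z.ofLp - form a₀ z.ofLp‖ ≤ Real.exp (-c * d / (n + 2))

theorem final (hU : GamUniv) (hR : TheoremRD) (hB : BadToD) (hS : SupBound) (hF : FormSmul)
    (hN : Num2) : FinalR := by
  obtain ⟨C₁, c, hC₁, hc, h1⟩ := hR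
  obtain ⟨C₂, hC₂, h2⟩ := hN c hc
  refine ⟨max C₁ C₂, c / 2, lt_max_of_lt_left hC₁, by positivity, fun n d hn hd a₀ ha₀ => ?_⟩
  have hlog : 0 ≤ Real.log ((n : ℝ) + 2) := Real.log_nonneg (by
    have : (0 : ℝ) ≤ n := Nat.cast_nonneg n
    linarith)
  have hnl : 0 ≤ ((n : ℝ) + 2) * Real.log ((n : ℝ) + 2) := by positivity
  have hd1 : C₁ * (n + 2) * Real.log (n + 2) ≤ d := by
    refine le_trans ?_ hd
    rw [mul_assoc, mul_assoc]
    exact mul_le_mul_of_nonneg_right (le_max_left _ _) hnl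
  have hd2 : C₂ * (n + 2) * Real.log (n + 2) ≤ d := by
    refine le_trans ?_ hd
    rw [mul_assoc, mul_assoc]
    exact mul_le_mul_of_nonneg_right (le_max_right _ _) hnl
  obtain ⟨h3, h4, h5, h6⟩ := h2 n d hn hd2
  have hn0 : (0 : ℝ) < (n : ℝ) + 2 := by positivity
  have hcc : Real.exp (-c * (d : ℝ) / (n + 2)) ≤ Real.exp (-(c / 2) * d / (n + 2)) := by
    apply Real.exp_le_exp.2
    apply div_le_div_of_nonneg_right _ hn0.le
    have : (0 : ℝ) ≤ d := Nat.cast_nonneg d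
    nlinarith
  have hcc2 : Real.exp (-c * (d : ℝ) ^ 2 / (n + 2)) ≤ Real.exp (-(c / 2) * d ^ 2 / (n + 2)) := by
    apply Real.exp_le_exp.2
    apply div_le_div_of_nonneg_right _ hn0.le
    have : (0 : ℝ) ≤ (d : ℝ) ^ 2 := by positivity
    nlinarith
  have key : ∀ s : ℝ, Real.exp (-c * d / (n + 2)) ≤ s →
      gam (Idx (n + 2) d) {a | ¬ Hyp (a₀ + (s : ℂ) • a)} ≤
        ENNReal.ofReal (Real.exp (-c * d ^ 2 / (n + 2))) := by
    intro s hs
    refine le_trans (measure_mono ?_) (h1 n d hn hd1 a₀ ha₀ s hs)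
    intro a ha
    exact not_hyp_le hB ha
  refine ⟨fun s hs => (key s (hcc.trans hs)).trans (ENNReal.ofReal_le_ofReal hcc2), ?_⟩
  -- existence
  set s : ℝ := Real.exp (-c * d / (n + 2)) with hs
  have hk := key s le_rfl
  have hsup := hS (n + 2) d (by omega) h4 h5
  have hlt : gam (Idx (n + 2) d) ({a | ¬ Hyp (a₀ + (s : ℂ) • a)} ∪
      {a | ∃ z : E (n + 2), ‖z‖ = 1 ∧ 2 * (d : ℝ) < ‖form a z.ofLp‖}) < 1 := by
    refine lt_of_le_of_lt (measure_union_le _ _) ?_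
    refine lt_of_le_of_lt (add_le_add hk hsup) ?_
    rw [← ENNReal.ofReal_add (Real.exp_pos _).le (Real.exp_pos _).le]
    rw [← ENNReal.ofReal_one]
    rw [ENNReal.ofReal_lt_ofReal_iff one_pos]
    linarith
  obtain ⟨a, ha⟩ : ∃ a, a ∉ ({a | ¬ Hyp (a₀ + (s : ℂ) • a)} ∪
      {a | ∃ z : E (n + 2), ‖z‖ = 1 ∧ 2 * (d : ℝ) < ‖form a z.ofLp‖}) := by
    by_contra hcon
    push Not at hcon
    have huniv : ({a | ¬ Hyp (a₀ + (s : ℂ) • a)} ∪
      {a | ∃ z : E (n + 2), ‖z‖ = 1 ∧ 2 * (d : ℝ) < ‖form a z.ofLp‖}) = univ :=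
      eq_univ_of_forall hcon
    rw [huniv, hU] at hlt
    exact lt_irrefl _ hlt
  rw [mem_union, not_or] at ha
  obtain ⟨ha1, ha2⟩ := ha
  simp only [mem_ofPred_eq, not_not] at ha1
  simp only [mem_ofPred_eq, not_exists, not_and, not_lt] at ha2
  refine ⟨a₀ + (s : ℂ) • a, ha1, fun z hz => ?_⟩
  rw [form_lin, add_sub_cancel_left, norm_mul, Complex.norm_real, Real.norm_of_nonneg (Real.exp_pos _).le]
  have hfa : ‖form a z.ofLp‖ ≤ 2 * d := by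
    rcases eq_or_ne z 0 with rfl | hz0
    · have : form a (0 : E (n + 2)).ofLp = 0 := by
        have := hF (n + 2) d a 0 (0 : E (n + 2)).ofLp
        rw [zero_smul] at this
        rw [show (0 : E (n + 2)).ofLp = (0 : Fin (n + 2) → ℂ) from rfl, this,
          zero_pow (by omega), zero_mul]
      rw [this, norm_zero]
      positivity
    · have hzn : 0 < ‖z‖ := norm_pos_iff.2 hz0
      have e1 : z.ofLp = ((‖z‖ : ℝ) : ℂ) • (((‖z‖⁻¹ : ℝ) : ℂ) • z).ofLp := by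
        rw [WithLp.ofLp_smul, smul_smul, ← Complex.ofReal_mul, mul_inv_cancel₀ hzn.ne',
          Complex.ofReal_one, one_smul]
      rw [e1, hF, norm_mul, norm_pow, Complex.norm_real, norm_norm]
      have e2 : ‖(((‖z‖⁻¹ : ℝ) : ℂ) • z)‖ = 1 := by
        rw [norm_smul, Complex.norm_real, norm_inv, norm_norm, inv_mul_cancel₀ hzn.ne']
      have e3 := ha2 _ e2
      calc ‖z‖ ^ d * ‖form a (((‖z‖⁻¹ : ℝ) : ℂ) • z).ofLp‖ ≤ 1 * (2 * d) :=
            mul_le_mul (pow_le_one₀ (norm_nonneg _) hz) e3 (norm_nonneg _) zero_le_one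
        _ = 2 * d := one_mul _
  calc s * ‖form a z.ofLp‖ ≤ s * (2 * d) := mul_le_mul_of_nonneg_left hfa (Real.exp_pos _).le
    _ = 2 * (d : ℝ) * s := by ring
    _ ≤ _ := h3

end Pool.Agent.H48.RK
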