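import Pool.Agent.H48.RK.Fin

set_option autoImplicit false

namespace Pool.Agent.H48.RK

theorem num2 : Num2 := by
  intro c hc
  refine ⟨100 + 9 / c + 64 / c ^ 2, by positivity, fun n d hn hd => ?_⟩
  set C : ℝ := 100 + 9 / c + 64 / c ^ 2 with hC
  have h9 : 0 < 9 / c := by positivity
  have h64 : 0 < 64 / c ^ 2 := by positivity
  have hC0 : 0 < C := by positivity
  have hn1 : (1 : ℝ) ≤ n := by exact_mod_cast hn
  set N : ℝ := (n : ℝ) + 2 with hN
  have hN3 : 3 ≤ N := by rw [hN]; linarith
  have hN0 : 0 < N := by linarith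
  set L : ℝ := Real.log N with hL
  have hL1 : 1 ≤ L := by
    rw [hL, Real.le_log_iff_exp_le hN0]
    have := Real.exp_one_lt_d9
    linarith
  have hx : C * L ≤ d / N := by
    rw [le_div_iff₀ hN0]
    calc C * L * N = C * N * L := by ring
      _ ≤ d := hd
  set x : ℝ := d / N with hxd
  have hdx : (d : ℝ) = N * x := by
    rw [hxd, mul_div_cancel₀ _ hN0.ne']
  have hxC : C ≤ x := by nlinarith
  have hx0 : 0 < x := by linarith
  have hd3 : 3 * C ≤ (d : ℝ) := by
    rw [hdx]
    nlinarith
  have hd0 : (0 : ℝ) < d := by linarith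
  have hd300 : (300 : ℝ) ≤ d := by nlinarith
  have hcC : 9 ≤ c * C := by
    rw [hC]
    have e1 : c * (100 + 9 / c + 64 / c ^ 2) = 100 * c + 9 + 64 / c := by
      field_simp
    rw [e1]
    have : 0 < 64 / c := by positivity
    nlinarith
  have hcd : -c * (d : ℝ) / N = -(c * x) := by
    rw [hxd]; ring
  have hcd2 : -(c / 2) * (d : ℝ) / N = -(c / 2 * x) := by
    rw [hxd]; ring
  refine ⟨?_, ?_, ?_, ?_⟩
  · rw [hcd, hcd2]
    have h1 : Real.log (2 * d) ≤ c / 2 * x := by
      have e1 : Real.log (2 * d) = Real.log 2 + (L + Real.log x) := by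
        rw [Real.log_mul (by norm_num) hd0.ne', hdx, Real.log_mul hN0.ne' hx0.ne']
      have h2 : Real.log 2 ≤ 1 := by
        have := Real.log_two_lt_d9
        linarith
      have h3 : Real.log x ≤ c / 4 * x := by
        have h4 : Real.log x = 2 * Real.log (Real.sqrt x) := by
          rw [Real.log_sqrt hx0.le]
          ring
        have h5 : Real.log (Real.sqrt x) ≤ Real.sqrt x := by
          have := Real.log_le_sub_one_of_pos (Real.sqrt_pos.2 hx0)
          linarith
        have h6 : 8 / c ≤ Real.sqrt x := by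
          apply Real.le_sqrt_of_sq_le
          have : (8 / c) ^ 2 = 64 / c ^ 2 := by
            rw [div_pow]; norm_num
          rw [this]
          linarith
        have h7 : Real.sqrt x * Real.sqrt x = x := Real.mul_self_sqrt hx0.le
        have h8 : 2 * Real.sqrt x ≤ c / 4 * x := by
          have h9 : 8 ≤ c * Real.sqrt x := by
            rw [div_le_iff₀ hc] at h6
            linarith
          have h10 := Real.sqrt_nonneg x
          nlinarith
        linarith
      have h11 : 1 + L ≤ c / 4 * x := by
        have : 9 * L ≤ c * x := by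
          calc 9 * L ≤ c * C * L := mul_le_mul_of_nonneg_right hcC (by linarith)
            _ = c * (C * L) := by ring
            _ ≤ c * x := mul_le_mul_of_nonneg_left hx hc.le
        linarith
      rw [e1]
      linarith
    have h12 : 2 * (d : ℝ) ≤ Real.exp (c / 2 * x) := by
      rw [← Real.log_le_iff_le_exp (by linarith)]
      exact h1
    calc 2 * (d : ℝ) * Real.exp (-(c * x)) ≤ Real.exp (c / 2 * x) * Real.exp (-(c * x)) :=
          mul_le_mul_of_nonneg_right h12 (Real.exp_pos _).le
      _ = Real.exp (-(c / 2 * x)) := by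
          rw [← Real.exp_add]
          congr 1
          ring
  · exact_mod_cast (by linarith : (1 : ℝ) ≤ d)
  · have e1 : (((n + 2 : ℕ) : ℝ)) = N := by
      rw [hN]; push_cast; ring
    rw [e1]
    have hNd : N * 100 ≤ d := by
      rw [hdx]
      nlinarith
    have h1 : Real.log (48 * d * N + 1) ≤ 4 + 2 * d := by
      have h2 : 48 * (d : ℝ) * N + 1 ≤ 49 * (d : ℝ) ^ 2 := by nlinarith
      have h3 : Real.log (48 * d * N + 1) ≤ Real.log (49 * (d : ℝ) ^ 2) :=
        Real.log_le_log (by positivity) h2
      have h4 : Real.log (49 * (d : ℝ) ^ 2) = Real.log 49 + 2 * Real.log d := by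
        rw [Real.log_mul (by norm_num) (by positivity), Real.log_pow]
        norm_num
      have h5 : Real.log 49 ≤ 4 := by
        rw [Real.log_le_iff_le_exp (by norm_num)]
        have h6 : (2.7182818283 : ℝ) ^ 4 < Real.exp 1 ^ 4 :=
          pow_lt_pow_left₀ Real.exp_one_gt_d9 (by norm_num) (by norm_num)
        have h7 : Real.exp 4 = Real.exp 1 ^ 4 := by
          rw [← Real.exp_nat_mul]
          norm_num
        rw [h7]
        norm_num at h6
        linarith
      have h8 : Real.log d ≤ d := by
        have := Real.log_le_sub_one_of_pos hd0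
        linarith
      linarith
    have h2 : 8 * N * Real.log (48 * d * N + 1) ≤ 8 * N * (4 + 2 * d) :=
      mul_le_mul_of_nonneg_left h1 (by positivity)
    nlinarith
  · have h1 : Real.exp (-(d : ℝ) ^ 2 / 4) ≤ Real.exp (-1) := by
      apply Real.exp_le_exp.2
      nlinarith
    have h2 : Real.exp (-c * (d : ℝ) ^ 2 / N) ≤ Real.exp (-1) := by
      apply Real.exp_le_exp.2
      have e1 : -c * (d : ℝ) ^ 2 / N = -(c * x * d) := by
        rw [hxd]; ring
      rw [e1]
      have h3 : 9 ≤ c * x := le_trans hcC (mul_le_mul_of_nonneg_left hxC hc.le)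
      nlinarith
    have h3 : Real.exp (-1) < 1 / 2 := by
      rw [Real.exp_neg, inv_lt_comm₀ (Real.exp_pos _) (by norm_num)]
      have := Real.exp_one_gt_d9
      norm_num
      linarith
    linarith

end Pool.Agent.H48.RK
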