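import Pool.Agent.H48.RK.FinLR
import Pool.Agent.H8.RK.AlgDim

/-!
# The final statement, with algebraic sets of codimension `≤ k`
-/

set_option autoImplicit false

namespace Pool.Agent.H48.RK

open MeasureTheory Metric Set
open scoped BigOperators ComplexConjugate

/-- the zero form is not hyperbolic -/
theorem not_hypR_zero (n d : ℕ) (r : ℝ) : ¬ HypR r (0 : Idx (n + 2) d → ℂ) := by
  rintro ⟨-, h⟩
  have h1 := h (fun z i => if i = 0 then 1 else z) ?_ ?_ ?_ 1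
  · obtain ⟨c, hc⟩ := h1
    have h2 := congrFun hc 0
    have h3 := congrFun hc 1
    simp at h3
  · rw [differentiable_pi]
    intro i
    by_cases hi : i = 0
    · simp [hi]
    · simp [hi]
  · intro z hz
    have := congrFun hz 0
    simp at this
  · intro z
    simp [form]

/-- FINAL STATEMENT -/
def FinalS : Prop := ∃ C C' c : ℝ, 0 < C ∧ 0 < C' ∧ 0 < c ∧
  (∀ n d : ℕ, 1 ≤ n → C' * (n + 2) * Real.log (n + 2) ≤ d → C * (n + 2) * Real.log (d + 2) ≤ d) ∧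
  ∀ (n d k : ℕ) (r : ℝ), 1 ≤ n → 0 < r → r ≤ 1 →
    C * (n + 2) * Real.log (d + 2) ≤ r ^ 2 * d → (k : ℝ) ≤ c * (r ^ 2 * d) →
    (∀ F : Fin (k + 1) → Idx (n + 2) d → ℂ,
      (∀ i, ∀ z : Fin (n + 2) → ℂ, ∑ j, ‖z j‖ ^ 2 ≤ 1 → ‖form (F i) z‖ ≤ 1) →
      (∀ s : ℝ, Real.exp (-c * (r ^ 2 * d) / (n + 2)) ≤ s →
        gam (Fin (k + 1) × Idx (n + 2) d)
            {G | ¬ ∀ l : Fin (k + 1) → ℂ, l ≠ 0 →
              HypR r (∑ i, l i • fun α => F i α + (s : ℂ) * G (i, α))} ≤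
          ENNReal.ofReal (Real.exp (-c * (r ^ 2 * d) ^ 2 / (n + 2)))) ∧
      ∃ A : Fin (k + 1) → Idx (n + 2) d → ℂ,
        (∀ l : Fin (k + 1) → ℂ, l ≠ 0 → HypR r (∑ i, l i • A i)) ∧
        ∀ i, ∀ z : Fin (n + 2) → ℂ, ∑ j, ‖z j‖ ^ 2 ≤ 1 →
          ‖form (A i) z - form (F i) z‖ ≤ Real.exp (-c * (r ^ 2 * d) / (n + 2))) ∧
    ∀ I : Ideal (MvPolynomial (Idx (n + 2) d) ℂ),
      (∀ f ∈ I, ∀ j, MvPolynomial.homogeneousComponent j f ∈ I) →
      (Fintype.card (Idx (n + 2) d) : WithBot ℕ∞) ≤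
        ringKrullDim (MvPolynomial (Idx (n + 2) d) ℂ ⧸ I) + (k : WithBot ℕ∞) →
      ∃ a : Idx (n + 2) d → ℂ, HypR r a ∧ ∀ f ∈ I, MvPolynomial.eval a f = 0

lemma norm_le_of_sum {m : ℕ} (z : E m) (hz : ‖z‖ ≤ 1) : ∑ j, ‖z.ofLp j‖ ^ 2 ≤ 1 := by
  rw [← EuclideanSpace.norm_sq_eq]
  exact pow_le_one₀ (norm_nonneg _) hz

lemma norm_toLp_le {m : ℕ} (z : Fin m → ℂ) (hz : ∑ j, ‖z j‖ ^ 2 ≤ 1) :
    ‖(WithLp.toLp 2 z : E m)‖ ≤ 1 := by
  rw [EuclideanSpace.norm_eq]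
  exact Real.sqrt_le_one.2 hz

theorem finalS (hF : FinalLR) (hN : NumConv) : FinalS := by
  obtain ⟨C₁, c, hC₁, hc, h1⟩ := hF
  obtain ⟨C', hC', h2⟩ := hN (max C₁ (2 / c)) (lt_max_of_lt_left hC₁)
  refine ⟨max C₁ (2 / c), C', c / 2, lt_max_of_lt_left hC₁, hC', by positivity, h2,
    fun n d k r hn hr0 hr1 hd hk => ?_⟩
  have hn0 : (0 : ℝ) < (n : ℝ) + 2 := by positivity
  obtain ⟨x, hx⟩ : ∃ x : ℝ, x = r ^ 2 * d := ⟨_, rfl⟩
  have hx0 : 0 ≤ x := by rw [hx]; positivity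
  have hlog : 1 / 2 ≤ Real.log ((d : ℝ) + 2) := by
    have h3 : Real.log 2 ≤ Real.log ((d : ℝ) + 2) :=
      Real.log_le_log (by norm_num) (by linarith [(Nat.cast_nonneg d : (0 : ℝ) ≤ d)])
    linarith [Real.log_two_gt_d9]
  have hn3 : (3 : ℝ) ≤ (n : ℝ) + 2 := by
    have : (1 : ℝ) ≤ n := by exact_mod_cast hn
    linarith
  have hnl : 1 ≤ ((n : ℝ) + 2) * Real.log ((d : ℝ) + 2) := by nlinarith
  have hd1 : C₁ * (n + 2) * Real.log (d + 2) ≤ r ^ 2 * d := by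
    refine le_trans ?_ hd
    rw [mul_assoc, mul_assoc]
    exact mul_le_mul_of_nonneg_right (le_max_left _ _) (by linarith)
  have hx2 : 2 / c ≤ x := by
    rw [hx]
    refine le_trans ?_ hd
    rw [mul_assoc]
    calc 2 / c ≤ max C₁ (2 / c) := le_max_right _ _
      _ = max C₁ (2 / c) * 1 := (mul_one _).symm
      _ ≤ max C₁ (2 / c) * (((n : ℝ) + 2) * Real.log ((d : ℝ) + 2)) :=
          mul_le_mul_of_nonneg_left hnl (lt_max_of_lt_left hC₁).le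
  have hcx : 2 ≤ c * x := by
    rw [div_le_iff₀ hc] at hx2
    linarith
  have hkx : (k : ℝ) + 1 ≤ c * (r ^ 2 * d) := by
    rw [← hx] at hk ⊢
    linarith
  have hcc : Real.exp (-c * (r ^ 2 * d) / (n + 2)) ≤
      Real.exp (-(c / 2) * (r ^ 2 * d) / (n + 2)) := by
    apply Real.exp_le_exp.2
    apply div_le_div_of_nonneg_right _ hn0.le
    rw [← hx]
    nlinarith
  have hcc2 : Real.exp (-c * (r ^ 2 * d) ^ 2 / (n + 2)) ≤
      Real.exp (-(c / 2) * (r ^ 2 * d) ^ 2 / (n + 2)) := by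
    apply Real.exp_le_exp.2
    apply div_le_div_of_nonneg_right _ hn0.le
    have : (0 : ℝ) ≤ (r ^ 2 * d) ^ 2 := by positivity
    nlinarith
  refine ⟨fun F hF => ?_, fun I hI hdim => ?_⟩
  · have h3 := h1 n d k r hn hr0 hr1 hd1 hkx F (fun i z hz => hF i z.ofLp (norm_le_of_sum z hz))
    refine ⟨fun s hs => (h3.1 s (hcc.trans hs)).trans (ENNReal.ofReal_le_ofReal hcc2), ?_⟩
    obtain ⟨A, hA, hA2⟩ := h3.2.1
    exact ⟨A, hA, fun i z hz => (hA2 i (WithLp.toLp 2 z) (norm_toLp_le z hz)).trans hcc⟩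
  · have h3 := h1 n d k r hn hr0 hr1 hd1 hkx (fun _ _ => 0) (fun i z _ => by simp [form])
    obtain ⟨A, hA, -⟩ := h3.2.1
    have hind : LinearIndependent ℂ A := by
      rw [Fintype.linearIndependent_iff]
      intro l hl i
      by_contra hli
      have h4 := hA l (fun h => hli (by rw [h]; rfl))
      rw [hl] at h4
      exact not_hypR_zero n d r h4
    obtain ⟨l, hl, hz⟩ := Pool.Agent.H8.RK.cone_meets I hI k hdim A hind
    exact ⟨∑ i, l i • A i, hA l hl, hz⟩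

end Pool.Agent.H48.RK
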