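import Pool.Agent.H48.RK.MainP
import Pool.Agent.H48.RK.FinS

/-!
# Final form of the robust Theorem L
-/

set_option autoImplicit false

namespace Pool.Agent.H48.RK

open MeasureTheory Metric Set
open scoped BigOperators ComplexConjugate

/-- all members of all linear systems within `δ` of `A` (sup norm on the unit ball) are
hyperbolic -/
def Good {m d k : ℕ} (r δ : ℝ) (A : Fin (k + 1) → Idx m d → ℂ) : Prop :=
  ∀ B : Fin (k + 1) → Idx m d → ℂ,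
    (∀ i, ∀ z : Fin m → ℂ, ∑ j, ‖z j‖ ^ 2 ≤ 1 → ‖form (B i) z - form (A i) z‖ ≤ δ) →
    ∀ l : Fin (k + 1) → ℂ, l ≠ 0 → HypR r (∑ i, l i • B i)

/-- FINAL STATEMENT, robust form -/
def FinalP : Prop := ∃ C C' c : ℝ, 0 < C ∧ 0 < C' ∧ 0 < c ∧
  (∀ n d : ℕ, 1 ≤ n → C' * (n + 2) * Real.log (n + 2) ≤ d → C * (n + 2) * Real.log (d + 2) ≤ d) ∧
  ∀ (n d k : ℕ) (r : ℝ), 1 ≤ n → 0 < r → r ≤ 1 →
    C * (n + 2) * Real.log (d + 2) ≤ r ^ 2 * d → (k : ℝ) ≤ c * (r ^ 2 * d) →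
    ∀ F : Fin (k + 1) → Idx (n + 2) d → ℂ,
      (∀ i, ∀ z : Fin (n + 2) → ℂ, ∑ j, ‖z j‖ ^ 2 ≤ 1 → ‖form (F i) z‖ ≤ 1) →
      (∀ s : ℝ, Real.exp (-c * (r ^ 2 * d) / (n + 2)) ≤ s →
        gam (Fin (k + 1) × Idx (n + 2) d)
            {G | ¬ Good r (s * Real.exp (-(r ^ 2 * d) / (n + 2)))
              (fun i α => F i α + (s : ℂ) * G (i, α))} ≤
          ENNReal.ofReal (Real.exp (-c * (r ^ 2 * d) ^ 2 / (n + 2)))) ∧
      ∃ A : Fin (k + 1) → Idx (n + 2) d → ℂ, Good r (Real.exp (-2 * (r ^ 2 * d) / (n + 2))) A ∧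
        ∀ i, ∀ z : Fin (n + 2) → ℂ, ∑ j, ‖z j‖ ^ 2 ≤ 1 →
          ‖form (A i) z - form (F i) z‖ ≤ Real.exp (-c * (r ^ 2 * d) / (n + 2))

lemma not_good_le (hB : BadToD) {m d k : ℕ} {r δ : ℝ} (hr1 : r ≤ 1)
    {A : Fin (k + 1) → Idx m d → ℂ} (h : ¬ Good r δ A) : BadLP r δ A := by
  unfold Good at h
  push Not at h
  obtain ⟨B, hB1, l, hl, hh⟩ := h
  refine ⟨B, fun i z hz => hB1 i z.ofLp (norm_le_of_sum z hz.le), l, hl, not_hypR_le hB hr1 hh⟩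

lemma good_mono {m d k : ℕ} {r δ δ' : ℝ} (h : δ' ≤ δ) {A : Fin (k + 1) → Idx m d → ℂ}
    (hA : Good r δ A) : Good r δ' A :=
  fun B hB l hl => hA B (fun i z hz => (hB i z hz).trans h) l hl

theorem finalP (hU : GamUniv) (hR : TheoremLP) (hB : BadToD) (hS : SupL) (hF : FormSmul)
    (hN : NumR2) (hCv : NumConv) : FinalP := by
  obtain ⟨C₁, c₀, hC₁, hc₀, h0⟩ := hR
  obtain ⟨c, hcdef⟩ : ∃ c : ℝ, c = min c₀ 1 := ⟨_, rfl⟩
  have hc : 0 < c := by rw [hcdef]; exact lt_min hc₀ one_pos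
  have hc01 : c ≤ c₀ := by rw [hcdef]; exact min_le_left _ _
  have hc1 : c ≤ 1 := by rw [hcdef]; exact min_le_right _ _
  obtain ⟨C₂, hC₂, h2⟩ := hN c hc
  obtain ⟨C, hCdef⟩ : ∃ C : ℝ, C = max (max C₁ C₂) (2 / c) := ⟨_, rfl⟩
  have hC1 : C₁ ≤ C := by rw [hCdef]; exact (le_max_left _ _).trans (le_max_left _ _)
  have hC2 : C₂ ≤ C := by rw [hCdef]; exact (le_max_right _ _).trans (le_max_left _ _)
  have hC3 : 2 / c ≤ C := by rw [hCdef]; exact le_max_right _ _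
  have hC0 : 0 < C := lt_of_lt_of_le hC₁ hC1
  obtain ⟨C', hC', hconv⟩ := hCv C hC0
  refine ⟨C, C', c / 2, hC0, hC', by positivity, hconv,
    fun n d k r hn hr0 hr1 hd hk F hF0 => ?_⟩
  have hn0 : (0 : ℝ) < (n : ℝ) + 2 := by positivity
  obtain ⟨x, hx⟩ : ∃ x : ℝ, x = r ^ 2 * d := ⟨_, rfl⟩
  rw [← hx] at hd hk ⊢
  have hx0 : 0 ≤ x := by rw [hx]; positivity
  have hxd : x ≤ d := by
    rw [hx]
    have h3 : r ^ 2 ≤ 1 := by nlinarith
    have h4 : (0 : ℝ) ≤ d := Nat.cast_nonneg d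
    nlinarith
  have hlog : 1 / 2 ≤ Real.log ((d : ℝ) + 2) := by
    have h3 : Real.log 2 ≤ Real.log ((d : ℝ) + 2) :=
      Real.log_le_log (by norm_num) (by linarith [(Nat.cast_nonneg d : (0 : ℝ) ≤ d)])
    linarith [Real.log_two_gt_d9]
  have hn3 : (3 : ℝ) ≤ (n : ℝ) + 2 := by
    have : (1 : ℝ) ≤ n := by exact_mod_cast hn
    linarith
  have hnl : 1 ≤ ((n : ℝ) + 2) * Real.log ((d : ℝ) + 2) := by nlinarith
  have hup : ∀ C₃ : ℝ, C₃ ≤ C → C₃ * (n + 2) * Real.log (d + 2) ≤ r ^ 2 * d := by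
    intro C₃ h3
    rw [← hx]
    refine le_trans ?_ hd
    rw [mul_assoc, mul_assoc]
    exact mul_le_mul_of_nonneg_right h3 (by linarith)
  have hx2 : 2 / c ≤ x := by
    refine le_trans ?_ hd
    rw [mul_assoc]
    calc 2 / c ≤ C := hC3
      _ = C * 1 := (mul_one _).symm
      _ ≤ C * (((n : ℝ) + 2) * Real.log ((d : ℝ) + 2)) := mul_le_mul_of_nonneg_left hnl hC0.le
  have hcx : 2 ≤ c * x := by
    rw [div_le_iff₀ hc] at hx2
    linarith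
  have hkx : (k : ℝ) + 1 ≤ c * x := by linarith
  have hkx0 : (k : ℝ) + 1 ≤ c₀ * (r ^ 2 * d) := by
    rw [← hx]
    exact hkx.trans (mul_le_mul_of_nonneg_right hc01 hx0)
  have hkd : (k : ℝ) + 1 ≤ d := by
    have h8 : c * x ≤ 1 * x := mul_le_mul_of_nonneg_right hc1 hx0
    linarith
  obtain ⟨h3, h4, h5, h6⟩ := h2 n d k r hn hr0 hr1 (hup C₂ hC2) hkd
  rw [← hx] at h3 h6
  have hexp : ∀ a b y : ℝ, 0 ≤ y → b ≤ a →
      Real.exp (-a * y / (n + 2)) ≤ Real.exp (-b * y / (n + 2)) := by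
    intro a b y hy hab
    apply Real.exp_le_exp.2
    apply div_le_div_of_nonneg_right _ hn0.le
    nlinarith
  have hA₀ : ∀ i, ∀ z : E (n + 2), ‖z‖ ≤ 1 → ‖form (F i) z.ofLp‖ ≤ 1 :=
    fun i z hz => hF0 i z.ofLp (norm_le_of_sum z hz)
  have key : ∀ s : ℝ, Real.exp (-c * x / (n + 2)) ≤ s →
      gam (Fin (k + 1) × Idx (n + 2) d)
          {G | ¬ Good r (s * Real.exp (-x / (n + 2))) (fun i α => F i α + (s : ℂ) * G (i, α))} ≤
        ENNReal.ofReal (Real.exp (-c * x ^ 2 / (n + 2))) := by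
    intro s hs
    have hs0 : Real.exp (-c₀ * (r ^ 2 * d) / (n + 2)) ≤ s := by
      rw [← hx]
      exact (hexp c₀ c x hx0 hc01).trans hs
    have h7 := h0 n d k r hn hr0 hr1 (hup C₁ hC1) hkx0 F hA₀ s hs0
    rw [← hx] at h7
    refine le_trans (measure_mono ?_) (h7.trans (ENNReal.ofReal_le_ofReal
      (hexp c₀ c (x ^ 2) (sq_nonneg _) hc01)))
    intro G hG
    exact not_good_le hB hr1 hG
  refine ⟨fun s hs => (key s ((hexp c (c / 2) x hx0 (by linarith)).trans hs)).trans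
    (ENNReal.ofReal_le_ofReal (hexp c (c / 2) (x ^ 2) (sq_nonneg _) (by linarith))), ?_⟩
  obtain ⟨s, hs⟩ : ∃ s : ℝ, s = Real.exp (-c * x / (n + 2)) := ⟨_, rfl⟩
  have hs0 : 0 < s := by rw [hs]; exact Real.exp_pos _
  have hk1 := key s hs.symm.le
  have hsup := hS (n + 2) d k (by omega) h4 h5
  set S₁ : Set (Fin (k + 1) × Idx (n + 2) d → ℂ) :=
    {G | ¬ Good r (s * Real.exp (-x / (n + 2))) (fun i α => F i α + (s : ℂ) * G (i, α))} with hS₁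
  set S₂ : Set (Fin (k + 1) × Idx (n + 2) d → ℂ) :=
    {a | ∃ i, ∃ z : E (n + 2), ‖z‖ = 1 ∧ 2 * (d : ℝ) < ‖form (fun α => a (i, α)) z.ofLp‖} with hS₂
  have hlt : gam (Fin (k + 1) × Idx (n + 2) d) (S₁ ∪ S₂) < 1 := by
    refine lt_of_le_of_lt (measure_union_le _ _) ?_
    refine lt_of_le_of_lt (add_le_add hk1 hsup) ?_
    rw [← ENNReal.ofReal_add (Real.exp_pos _).le (by positivity)]
    rw [← ENNReal.ofReal_one]
    rw [ENNReal.ofReal_lt_ofReal_iff one_pos]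
    linarith
  obtain ⟨a, ha⟩ : ∃ a, a ∉ S₁ ∪ S₂ := by
    by_contra hcon
    push Not at hcon
    rw [eq_univ_of_forall hcon, hU] at hlt
    exact lt_irrefl _ hlt
  rw [mem_union, not_or] at ha
  obtain ⟨ha1, ha2⟩ := ha
  rw [hS₁, mem_ofPred_eq, not_not] at ha1
  rw [hS₂, mem_ofPred_eq] at ha2
  push Not at ha2
  refine ⟨fun i α => F i α + (s : ℂ) * a (i, α), good_mono ?_ ha1, fun i z hz => ?_⟩
  · rw [hs, ← Real.exp_add]
    apply Real.exp_le_exp.2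
    rw [← add_div]
    apply div_le_div_of_nonneg_right _ hn0.le
    have h8 : c * x ≤ 1 * x := mul_le_mul_of_nonneg_right hc1 hx0
    linarith
  have e0 : form (fun α => F i α + (s : ℂ) * a (i, α)) z =
      form (F i) z + (s : ℂ) * form (fun α => a (i, α)) z :=
    form_lin (F i) (fun α => a (i, α)) (s : ℂ) z
  rw [e0, add_sub_cancel_left, norm_mul, Complex.norm_real, Real.norm_of_nonneg hs0.le]
  have hfa : ‖form (fun α => a (i, α)) z‖ ≤ 2 * d := by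
    have h8 := form_bound hF h4 (fun α => a (i, α)) (2 * d) (fun z hz => ha2 i z hz)
      (WithLp.toLp 2 z)
    refine h8.trans ?_
    have h9 : ‖(WithLp.toLp 2 z : E (n + 2))‖ ^ d ≤ 1 :=
      pow_le_one₀ (norm_nonneg _) (norm_toLp_le z hz)
    have h7 : (0 : ℝ) ≤ 2 * d := by positivity
    nlinarith
  calc s * ‖form (fun α => a (i, α)) z‖ ≤ s * (2 * d) :=
        mul_le_mul_of_nonneg_left hfa hs0.le
    _ = 2 * (d : ℝ) * Real.exp (-c * x / (n + 2)) := by rw [hs]; ring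
    _ ≤ _ := h3

end Pool.Agent.H48.RK
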