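import Pool.Agent.H48.RK.DefsR

/-!
# Random hypersurfaces (MP_b509a1_ag, Theorem L with the parameter `r`): module NUMR

The choice of the number `m1` of grid points per side and of the accuracy `10^{-K}`.
-/

set_option autoImplicit false

namespace Pool.Agent.H48.RK

theorem numR : NumR := by
  refine ⟨1000000000, 1 / 10000000000000, by norm_num, by norm_num, ?_⟩
  intro n d k r hn hr0 hr1 hd hk
  -- the real numbers m, D, x, y
  set m : ℝ := (n : ℝ) + 2 with hm
  have hn1 : (1 : ℝ) ≤ n := by exact_mod_cast hn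
  have hm3 : (3 : ℝ) ≤ m := by rw [hm]; linarith
  have hmpos : (0 : ℝ) < m := by linarith
  have hl2l := Real.log_two_gt_d9
  have hl2u := Real.log_two_lt_d9
  set D : ℝ := (d : ℝ) with hD
  have hD0 : (0 : ℝ) ≤ D := Nat.cast_nonneg d
  set x : ℝ := r ^ 2 * D with hx
  have hr2 : r ^ 2 ≤ 1 := pow_le_one₀ hr0.le hr1
  have hr2pos : 0 < r ^ 2 := by positivity
  have hxD : x ≤ D := by
    rw [hx]
    calc r ^ 2 * D ≤ 1 * D := mul_le_mul_of_nonneg_right hr2 hD0
      _ = D := one_mul D
  have hlogpos : (0 : ℝ) < Real.log (D + 2) := Real.log_pos (by linarith)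
  have hxpos : 0 < x := by
    have : 0 < 1000000000 * m * Real.log (D + 2) := by positivity
    linarith
  have hDpos : 0 < D := by linarith
  have hd1 : 1 ≤ d := by
    have : (0 : ℝ) < (d : ℝ) := hDpos
    exact_mod_cast this
  have hD1 : (1 : ℝ) ≤ D := by rw [hD]; exact_mod_cast hd1
  have hlog3 : (1 : ℝ) ≤ Real.log (D + 2) := by
    rw [Real.le_log_iff_exp_le (by linarith)]
    have := Real.exp_one_lt_d9
    linarith
  have hxm : 1000000000 * m ≤ x := by
    have h1 : 1000000000 * m * 1 ≤ 1000000000 * m * Real.log (D + 2) :=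
      mul_le_mul_of_nonneg_left hlog3 (by positivity)
    linarith
  have hDm : 1000000000 * m ≤ D := by linarith
  have hD9 : (3000000000 : ℝ) ≤ D := by linarith
  have hDD : (6 : ℝ) ≤ D * D / 1000000000 := by
    rw [le_div_iff₀ (by norm_num)]
    calc (6 : ℝ) * 1000000000 ≤ 3000000000 * 3000000000 := by norm_num
      _ ≤ D * D := mul_le_mul hD9 hD9 (by norm_num) hDpos.le
  set y : ℝ := x / m with hy
  have hyx : y * m = x := by rw [hy]; field_simp
  have hy9 : (1000000000 : ℝ) ≤ y := by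
    rw [hy, le_div_iff₀ hmpos]; exact hxm
  have hypos : (0 : ℝ) < y := by linarith
  have hlogD : Real.log D ≤ y / 1000000000 := by
    have h1 : Real.log D ≤ Real.log (D + 2) := Real.log_le_log hDpos (by linarith)
    refine h1.trans ?_
    rw [hy, div_div, le_div_iff₀ (by positivity)]
    calc Real.log (D + 2) * (m * 1000000000) = 1000000000 * m * Real.log (D + 2) := by ring
      _ ≤ x := hd
  -- m1
  set m1 : ℕ := ⌊r * Real.sqrt D / 459⌋₊ + 1 with hm1
  have hs0 : 0 ≤ r * Real.sqrt D := by positivity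
  have hfl : ((⌊r * Real.sqrt D / 459⌋₊ : ℕ) : ℝ) ≤ r * Real.sqrt D / 459 :=
    Nat.floor_le (by positivity)
  have hfu : r * Real.sqrt D / 459 < (⌊r * Real.sqrt D / 459⌋₊ : ℝ) + 1 := Nat.lt_floor_add_one _
  have hm1c : (m1 : ℝ) = (⌊r * Real.sqrt D / 459⌋₊ : ℝ) + 1 := by rw [hm1]; push_cast; ring
  have hm1sq : x / 210681 ≤ (m1 : ℝ) ^ 2 := by
    have h1 : r * Real.sqrt D / 459 ≤ (m1 : ℝ) := by rw [hm1c]; exact hfu.le
    have h2 : (r * Real.sqrt D / 459) ^ 2 ≤ (m1 : ℝ) ^ 2 := pow_le_pow_left₀ (by positivity) h1 2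
    have h3 : (r * Real.sqrt D / 459) ^ 2 = x / 210681 := by
      rw [div_pow, mul_pow, Real.sq_sqrt hDpos.le, hx]; norm_num
    linarith
  -- Q, K
  set Q : ℕ := m1 ^ 2 / (8 * (n + 2)) with hQ
  have hQle : 8 * (n + 2) * Q ≤ m1 ^ 2 := Nat.mul_div_le _ _
  have hQlt : m1 ^ 2 < 8 * (n + 2) * (Q + 1) := by
    have := Nat.lt_mul_div_succ (m1 ^ 2) (show 0 < 8 * (n + 2) by omega)
    simpa [hQ] using this
  have hQltR : (m1 : ℝ) ^ 2 < 8 * m * ((Q : ℝ) + 1) := by
    have : ((m1 ^ 2 : ℕ) : ℝ) < ((8 * (n + 2) * (Q + 1) : ℕ) : ℝ) := by exact_mod_cast hQlt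
    push_cast at this
    rw [hm]
    exact this
  have hQlow : y / 1685448 < (Q : ℝ) + 1 := by
    rw [hy, div_div, div_lt_iff₀ (by positivity)]
    have : x / 210681 < 8 * m * ((Q : ℝ) + 1) := lt_of_le_of_lt hm1sq hQltR
    rw [div_lt_iff₀ (by norm_num)] at this
    calc x < 8 * m * ((Q : ℝ) + 1) * 210681 := this
      _ = ((Q : ℝ) + 1) * (m * 1685448) := by ring
  have hQ1 : 1 ≤ Q := by
    by_contra h
    have h0 : Q = 0 := Nat.lt_one_iff.mp (not_le.mp h)
    rw [h0, Nat.cast_zero, zero_add] at hQlow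
    linarith
  set K : ℕ := Q - 1 with hK
  have hKQ : K + 1 = Q := Nat.sub_add_cancel hQ1
  have hKR : (K : ℝ) + 1 = (Q : ℝ) := by exact_mod_cast hKQ
  have hKlow : y / 2000000 ≤ (K : ℝ) := by
    have h1 : y / 1685448 - 2 < (K : ℝ) := by linarith
    have h2 : y / 2000000 ≤ y / 1685448 - 2 := by linarith
    linarith
  have hKpos : (0 : ℝ) < K := by
    have : 0 < y / 2000000 := by positivity
    linarith
  -- logarithm of ten
  have hl10l : (2.079 : ℝ) ≤ Real.log 10 := by
    have h1 : Real.log ((2 : ℝ) ^ 3) ≤ Real.log 10 := Real.log_le_log (by norm_num) (by norm_num)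
    rw [Real.log_pow] at h1
    push_cast at h1
    linarith
  have h5 : (2 : ℝ) * 10 ^ 10 * D ^ 12 ≤ 10 ^ K := by
    have hL : (0 : ℝ) < 2 * 10 ^ 10 * D ^ 12 := by positivity
    have hR : (0 : ℝ) < (10 : ℝ) ^ K := by positivity
    rw [← Real.log_le_log_iff hL hR, Real.log_mul (by norm_num) (by positivity), Real.log_pow,
      Real.log_pow]
    have h2 : Real.log ((2 : ℝ) * 10 ^ 10) ≤ Real.log ((2 : ℝ) ^ 35) :=
      Real.log_le_log (by norm_num) (by norm_num)
    rw [Real.log_pow] at h2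
    push_cast at h2 ⊢
    have h3 : (y / 2000000) * 2.079 ≤ (K : ℝ) * Real.log 10 :=
      mul_le_mul hKlow hl10l (by norm_num) hKpos.le
    linarith
  have hDT : D ≤ (10 : ℝ) ^ K := by
    have h1 : D ≤ D ^ 12 := by
      calc D = D ^ 1 := (pow_one D).symm
        _ ≤ D ^ 12 := pow_le_pow_right₀ (by linarith) (by norm_num)
    have h3 : 0 ≤ D ^ 12 := by positivity
    linarith
  have hTK : 5 * m ≤ (10 : ℝ) ^ K := by linarith
  have hkD : (k : ℝ) + 1 ≤ D := by linarith
  refine ⟨m1, K, by rw [hm1]; omega, hd1, ?_, ?_, ?_, ?_, ?_, ?_⟩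
  · have h1 : ((k + 1 : ℕ) : ℝ) ≤ (d : ℝ) := by push_cast; exact hkD
    exact_mod_cast h1
  · rw [hm1c]
    have : 459 * ((⌊r * Real.sqrt D / 459⌋₊ : ℝ) + 1 - 1) =
        459 * (⌊r * Real.sqrt D / 459⌋₊ : ℝ) := by ring
    rw [this]
    linarith
  · exact h5
  · -- 8 m log(48 d m + 1) + 6 ≤ d^2
    have hcast : ((n + 2 : ℕ) : ℝ) = m := by rw [hm]; push_cast; ring
    rw [hcast]
    have hmD : m ≤ D / 1000000000 := by
      rw [le_div_iff₀ (by norm_num)]; linarith
    have h1 : 48 * D * m + 1 ≤ (7 * D) ^ 2 := by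
      have e1 : D * m ≤ D * (D / 1000000000) := mul_le_mul_of_nonneg_left hmD hDpos.le
      have e2 : D * (D / 1000000000) = D * D / 1000000000 := by ring
      have e3 : (7 * D) ^ 2 = 49 * (D * D) := by ring
      have e4 : 48 * D * m = 48 * (D * m) := by ring
      rw [e3, e4]
      linarith
    have h2 : Real.log (48 * D * m + 1) ≤ 14 * D := by
      calc Real.log (48 * D * m + 1) ≤ Real.log ((7 * D) ^ 2) :=
            Real.log_le_log (by positivity) h1
        _ = 2 * Real.log (7 * D) := by rw [Real.log_pow]; push_cast; ring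
        _ ≤ 2 * (7 * D - 1) := by
            have := Real.log_le_sub_one_of_pos (show (0 : ℝ) < 7 * D by positivity)
            linarith
        _ ≤ 14 * D := by linarith
    have h3 : 8 * m * Real.log (48 * D * m + 1) ≤ 8 * (D / 1000000000) * (14 * D) := by
      have hlog0 : 0 ≤ Real.log (48 * D * m + 1) :=
        Real.log_nonneg (by have : 0 ≤ 48 * D * m := by positivity
                            linarith)
      exact mul_le_mul (by linarith) h2 hlog0 (by positivity)
    have e5 : 8 * (D / 1000000000) * (14 * D) = 112 * (D * D / 1000000000) := by ring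
    have e6 : D ^ 2 = D * D := by ring
    rw [e6]
    rw [e5] at h3
    linarith
  · -- (1/10)^K ≤ exp(-c x/m)^4
    rw [← Real.exp_nat_mul]
    have h1 : ((1 : ℝ) / 10) ^ K = Real.exp (-(K * Real.log 10)) := by
      rw [Real.exp_neg, ← Real.log_pow, Real.exp_log (by positivity), one_div, inv_pow]
    rw [h1]
    apply Real.exp_le_exp.mpr
    have h3 : (y / 2000000) * 2.079 ≤ (K : ℝ) * Real.log 10 :=
      mul_le_mul hKlow hl10l (by norm_num) hKpos.le
    have h4 : -(1 / 10000000000000 : ℝ) * x / m = -(y / 10000000000000) := by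
      rw [hy]; field_simp
    rw [h4]
    push_cast
    linarith
  · -- the union bound
    have hcast : ((n + 2 : ℕ) : ℝ) = m := by rw [hm]; push_cast; ring
    rw [hcast]
    set T : ℝ := (10 : ℝ) ^ K with hT
    have hTpos : 0 < T := by positivity
    have hT1 : 1 ≤ T := one_le_pow₀ (by norm_num)
    have hT3 : 3 ≤ T := by linarith
    have hbase : 4 * m * T + 1 ≤ T ^ 2 := by
      have e1 : 5 * m * T ≤ T * T := mul_le_mul_of_nonneg_right hTK hTpos.le
      have e2 : (1 : ℝ) * 1 ≤ m * T := mul_le_mul (by linarith) hT1 (by norm_num) hmpos.le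
      have e3 : T ^ 2 = T * T := by ring
      rw [e3]
      linarith
    have hbase2 : 2 * T + 1 ≤ T ^ 2 := by
      have e1 : 3 * T ≤ T * T := mul_le_mul_of_nonneg_right hT3 hTpos.le
      have e3 : T ^ 2 = T * T := by ring
      rw [e3]
      linarith
    have hinv : ((1 : ℝ) / 10) ^ K = T⁻¹ := by rw [hT, one_div, inv_pow]
    rw [hinv]
    set e : ℕ := 2 * (n + 2) * (K + 1) with he
    have he8 : 4 * e ≤ m1 ^ 2 := by
      have : 4 * e = 8 * (n + 2) * Q := by rw [he, hKQ]; ring
      rw [this]; exact hQle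
    have heR : (e : ℝ) = 2 * m * ((K : ℝ) + 1) := by
      rw [he]; push_cast; rw [hm]
    have hex : x / 1000000 ≤ (e : ℝ) := by
      rw [heR]
      have : 2 * m * (y / 2000000) ≤ 2 * m * ((K : ℝ) + 1) :=
        mul_le_mul_of_nonneg_left (by linarith) (by positivity)
      calc x / 1000000 = 2 * m * (y / 2000000) := by rw [← hyx]; ring
        _ ≤ 2 * m * ((K : ℝ) + 1) := this
    have hke : 2 * (2 * (k + 1)) ≤ e := by
      have : ((2 * (2 * (k + 1)) : ℕ) : ℝ) ≤ (e : ℝ) := by
        push_cast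
        linarith
      exact_mod_cast this
    have hA : (4 * m * T + 1) ^ e * (2 * T + 1) ^ (2 * (k + 1)) * (T⁻¹) ^ (m1 ^ 2) ≤ (T⁻¹) ^ e := by
      have h1 : (4 * m * T + 1) ^ e ≤ (T ^ 2) ^ e := pow_le_pow_left₀ (by positivity) hbase e
      have h1' : (2 * T + 1) ^ (2 * (k + 1)) ≤ T ^ e := by
        calc (2 * T + 1) ^ (2 * (k + 1)) ≤ (T ^ 2) ^ (2 * (k + 1)) :=
              pow_le_pow_left₀ (by positivity) hbase2 _
          _ = T ^ (2 * (2 * (k + 1))) := by rw [← pow_mul]
          _ ≤ T ^ e := pow_le_pow_right₀ hT1 hke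
      have h2 : (T⁻¹) ^ (m1 ^ 2) ≤ (T⁻¹) ^ (4 * e) :=
        pow_le_pow_of_le_one (by positivity) (inv_le_one_of_one_le₀ hT1) he8
      calc (4 * m * T + 1) ^ e * (2 * T + 1) ^ (2 * (k + 1)) * (T⁻¹) ^ (m1 ^ 2)
          ≤ (T ^ 2) ^ e * T ^ e * (T⁻¹) ^ (4 * e) := by
            refine mul_le_mul (mul_le_mul h1 h1' (by positivity) (by positivity)) h2
              (by positivity) (by positivity)
        _ = (T⁻¹) ^ e := by
            rw [← pow_mul, ← pow_add, show 4 * e = (2 * e + e) + e by ring, pow_add (T⁻¹),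
              ← mul_assoc, ← mul_pow, mul_inv_cancel₀ hTpos.ne', one_pow, one_mul]
    have hexp : (T⁻¹) ^ e = Real.exp (-((e : ℝ) * (K * Real.log 10))) := by
      have h1 : (K : ℝ) * Real.log 10 = Real.log T := by rw [hT, Real.log_pow]
      rw [Real.exp_neg, h1, ← Real.log_pow, Real.exp_log (by positivity), inv_pow]
    have hdm : x ^ 2 / m = y * y * m := by
      rw [hy]; field_simp
    have hmain : 1.03 / 1000000000000 * (x ^ 2 / m) ≤ (e : ℝ) * (K * Real.log 10) := by
      have h3 : (y / 2000000) * 2.079 ≤ (K : ℝ) * Real.log 10 :=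
        mul_le_mul hKlow hl10l (by norm_num) hKpos.le
      have h5 : 2 * m * (y / 2000000) ≤ (e : ℝ) := by
        rw [heR]
        exact mul_le_mul_of_nonneg_left (by linarith) (by positivity)
      calc 1.03 / 1000000000000 * (x ^ 2 / m) = 1.03 / 1000000000000 * (y * y * m) := by rw [hdm]
        _ ≤ (2 * m * (y / 2000000)) * ((y / 2000000) * 2.079) := by
            have h6 : 0 ≤ y * y * m := by positivity
            have h7 : (2 * m * (y / 2000000)) * ((y / 2000000) * 2.079) =
                1.0395 / 1000000000000 * (y * y * m) := by ring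
            rw [h7]
            linarith
        _ ≤ (e : ℝ) * (K * Real.log 10) :=
            mul_le_mul h5 h3 (by positivity) (by positivity)
    have hbig : (1000000000000000000 : ℝ) ≤ x ^ 2 / m := by
      rw [hdm]
      have : (1000000000 : ℝ) * 1000000000 ≤ y * y := mul_le_mul hy9 hy9 (by norm_num) hypos.le
      calc (1000000000000000000 : ℝ) = 1000000000 * 1000000000 * 1 := by norm_num
        _ ≤ y * y * m := mul_le_mul this (by linarith) (by norm_num) (by positivity)
    have hE1 : ((k : ℝ) + 1) * Real.exp (-D ^ 2 / 4) ≤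
        Real.exp (-(1.03 / 1000000000000 * (x ^ 2 / m))) := by
      have hk1 : (k : ℝ) + 1 ≤ Real.exp D := by
        have := Real.add_one_le_exp D
        linarith
      calc ((k : ℝ) + 1) * Real.exp (-D ^ 2 / 4) ≤ Real.exp D * Real.exp (-D ^ 2 / 4) :=
            mul_le_mul_of_nonneg_right hk1 (Real.exp_pos _).le
        _ = Real.exp (D + -D ^ 2 / 4) := by rw [Real.exp_add]
        _ ≤ Real.exp (-(1.03 / 1000000000000 * (x ^ 2 / m))) := by
            apply Real.exp_le_exp.mpr
            have h1 : x ^ 2 / m ≤ x ^ 2 := div_le_self (by positivity) (by linarith)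
            have h2 : x ^ 2 ≤ D ^ 2 := pow_le_pow_left₀ hxpos.le hxD 2
            have h3 : 100 * D ≤ D ^ 2 := by
              rw [pow_two]
              exact mul_le_mul_of_nonneg_right (by linarith) hDpos.le
            linarith
    have hE2 : (4 * m * T + 1) ^ e * (2 * T + 1) ^ (2 * (k + 1)) * (T⁻¹) ^ (m1 ^ 2) ≤
        Real.exp (-(1.03 / 1000000000000 * (x ^ 2 / m))) := by
      refine hA.trans ?_
      rw [hexp]
      exact Real.exp_le_exp.mpr (by linarith)
    have hfin : 2 * Real.exp (-(1.03 / 1000000000000 * (x ^ 2 / m))) ≤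
        Real.exp (-(1 / 10000000000000) * x ^ 2 / m) := by
      have h1 : (2 : ℝ) = Real.exp (Real.log 2) := (Real.exp_log (by norm_num)).symm
      have h2 : -(1 / 10000000000000 : ℝ) * x ^ 2 / m = -(1 / 10000000000000 * (x ^ 2 / m)) := by
        ring
      rw [h2]
      calc 2 * Real.exp (-(1.03 / 1000000000000 * (x ^ 2 / m)))
          = Real.exp (Real.log 2) * Real.exp (-(1.03 / 1000000000000 * (x ^ 2 / m))) := by
            rw [← h1]
        _ = Real.exp (Real.log 2 + -(1.03 / 1000000000000 * (x ^ 2 / m))) := by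
            rw [Real.exp_add]
        _ ≤ Real.exp (-(1 / 10000000000000 * (x ^ 2 / m))) := by
            apply Real.exp_le_exp.mpr
            linarith
    linarith

end Pool.Agent.H48.RK
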