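import Pool.Agent.H48.RK.DefsR

/-!
# NUMR2 and NUMCONV
-/

set_option autoImplicit false

namespace Pool.Agent.H48.RK

open Real

theorem numR2 : NumR2 := by
  intro c hc
  refine ⟨64 + 4 / c, by positivity, fun n d k r hn hr0 hr1 hd hk => ?_⟩
  obtain ⟨L, hL⟩ : ∃ L : ℝ, L = Real.log ((d : ℝ) + 2) := ⟨_, rfl⟩
  obtain ⟨x, hx⟩ : ∃ x : ℝ, x = r ^ 2 * d := ⟨_, rfl⟩
  obtain ⟨N, hN⟩ : ∃ N : ℝ, N = (n : ℝ) + 2 := ⟨_, rfl⟩
  have hNc : ((n + 2 : ℕ) : ℝ) = N := by rw [hN]; push_cast; ring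
  have hdn : (0 : ℝ) ≤ d := Nat.cast_nonneg d
  have hN3 : 3 ≤ N := by
    have : (1 : ℝ) ≤ n := by exact_mod_cast hn
    linarith
  have hL2 : 1 / 2 ≤ L := by
    have h3 : Real.log 2 ≤ Real.log ((d : ℝ) + 2) :=
      Real.log_le_log (by norm_num) (by linarith)
    rw [hL]
    linarith [Real.log_two_gt_d9]
  rw [← hL, ← hx, ← hN] at hd
  rw [← hx, hNc, ← hN]
  have hcp : 0 < 4 / c := by positivity
  have hNL : 0 < N * L := by positivity
  have hxd : x ≤ d := by
    rw [hx]
    have h3 : r ^ 2 ≤ 1 := by nlinarith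
    nlinarith
  have hx64 : 64 * (N * L) ≤ x := by nlinarith
  have hx4 : 4 * (N * L) ≤ c * x := by
    have h1 : 4 / c * (N * L) ≤ x := by nlinarith
    have h2 : c * (4 / c * (N * L)) ≤ c * x := mul_le_mul_of_nonneg_left h1 hc.le
    have h3 : c * (4 / c * (N * L)) = 4 * (N * L) := by field_simp
    linarith
  have hx0 : 0 < x := by nlinarith
  have hNd : 32 * N ≤ d := by nlinarith
  have hd96 : (96 : ℝ) ≤ d := by linarith
  have hN0 : 0 < N := by linarith
  refine ⟨?_, ?_, ?_, ?_⟩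
  · have h1 : 2 * L ≤ (c / 2) * x / N := by
      rw [le_div_iff₀ hN0]
      nlinarith
    have h2 : 2 * (d : ℝ) ≤ Real.exp ((c / 2) * x / N) := by
      refine le_trans ?_ (Real.exp_le_exp.2 h1)
      have h3 : Real.exp (2 * L) = ((d : ℝ) + 2) ^ 2 := by
        rw [two_mul, Real.exp_add, hL, Real.exp_log (by linarith)]
        ring
      rw [h3]
      nlinarith
    have h4 : Real.exp (-(c / 2) * x / N) =
        Real.exp ((c / 2) * x / N) * Real.exp (-c * x / N) := by
      rw [← Real.exp_add]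
      congr 1
      ring
    rw [h4]
    exact mul_le_mul_of_nonneg_right h2 (Real.exp_pos _).le
  · have : (0 : ℝ) < d := by linarith
    exact_mod_cast this
  · have h1 : Real.log (48 * d * N + 1) ≤ 8 * L := by
      have h2 : 48 * (d : ℝ) * N + 1 ≤ ((d : ℝ) + 2) ^ 8 := by
        have h3 : 48 * (d : ℝ) * N + 1 ≤ ((d : ℝ) + 2) ^ 3 := by
          have h5 : N ≤ (d : ℝ) := by linarith
          have h6 : 48 * (d : ℝ) * N ≤ 48 * d * d := by nlinarith
          nlinarith [pow_nonneg hdn 3]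
        refine h3.trans (pow_le_pow_right₀ (by linarith) (by norm_num))
      calc Real.log (48 * d * N + 1) ≤ Real.log (((d : ℝ) + 2) ^ 8) :=
            Real.log_le_log (by positivity) h2
        _ = 8 * L := by rw [Real.log_pow, hL]; norm_num
    have h2 : 8 * N * Real.log (48 * d * N + 1) ≤ 8 * N * (8 * L) :=
      mul_le_mul_of_nonneg_left h1 (by positivity)
    nlinarith
  · have h1 : ((k : ℝ) + 1) * Real.exp (-(d : ℝ) ^ 2 / 4) ≤ 1 / 4 := by
      have h2 : Real.exp (-(d : ℝ) ^ 2 / 4) ≤ 1 / (4 * d) := by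
        have h3 : -(d : ℝ) ^ 2 / 4 ≤ -(4 * d) := by nlinarith
        refine (Real.exp_le_exp.2 h3).trans ?_
        rw [Real.exp_neg, ← one_div]
        apply one_div_le_one_div_of_le (by linarith)
        linarith [Real.add_one_le_exp (4 * (d : ℝ))]
      have h4 : (0 : ℝ) ≤ (k : ℝ) + 1 := by positivity
      calc ((k : ℝ) + 1) * Real.exp (-(d : ℝ) ^ 2 / 4) ≤ d * (1 / (4 * d)) := by
            apply mul_le_mul hk h2 (Real.exp_pos _).le hdn
        _ = 1 / 4 := by field_simp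
    have h5 : Real.exp (-c * x ^ 2 / N) ≤ 1 / 2 := by
      have h6 : -c * x ^ 2 / N ≤ -1 := by
        rw [div_le_iff₀ hN0]
        have h7 : 4 * (N * L) * x ≤ c * x * x := mul_le_mul_of_nonneg_right hx4 hx0.le
        have h8 : N ≤ 4 * (N * L) * x := by
          have h9 : (1 : ℝ) ≤ x := by nlinarith
          have h10 : N ≤ 4 * (N * L) := by nlinarith
          nlinarith
        nlinarith
      refine (Real.exp_le_exp.2 h6).trans ?_
      rw [Real.exp_neg, ← one_div]
      apply one_div_le_one_div_of_le (by norm_num)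
      linarith [Real.add_one_le_exp (1 : ℝ)]
    linarith

theorem numConv : NumConv := by
  intro C hC
  refine ⟨2 * C + 16 * C ^ 2, by positivity, fun n d hn hd => ?_⟩
  obtain ⟨N, hN⟩ : ∃ N : ℝ, N = (n : ℝ) + 2 := ⟨_, rfl⟩
  rw [← hN] at hd ⊢
  have hN3 : 3 ≤ N := by
    have : (1 : ℝ) ≤ n := by exact_mod_cast hn
    linarith
  have hN0 : 0 < N := by linarith
  have hdn : (0 : ℝ) ≤ d := Nat.cast_nonneg d
  have hlN : 1 ≤ Real.log N := by
    rw [Real.le_log_iff_exp_le hN0]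
    linarith [Real.exp_one_lt_d9]
  obtain ⟨y, hy⟩ : ∃ y : ℝ, y = d / N := ⟨_, rfl⟩
  have hyd : N * y = d := by rw [hy]; field_simp
  have hy0 : 0 ≤ y := by rw [hy]; positivity
  have hy1 : (2 * C + 16 * C ^ 2) * Real.log N ≤ y := by
    rw [hy, le_div_iff₀ hN0]
    linarith
  have hs : (Real.sqrt y) ^ 2 = y := Real.sq_sqrt hy0
  have hs0 : 0 ≤ Real.sqrt y := Real.sqrt_nonneg y
  have h4C : 4 * C ≤ Real.sqrt y := by
    apply Real.le_sqrt_of_sq_le
    nlinarith [sq_nonneg C]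
  have h1 : Real.log ((d : ℝ) + 2) ≤ Real.log N + 2 * Real.sqrt y := by
    have h2 : (d : ℝ) + 2 ≤ N * (Real.sqrt y + 1) ^ 2 := by
      rw [← hyd]
      nlinarith
    calc Real.log ((d : ℝ) + 2) ≤ Real.log (N * (Real.sqrt y + 1) ^ 2) :=
          Real.log_le_log (by linarith) h2
      _ = Real.log N + 2 * Real.log (Real.sqrt y + 1) := by
          rw [Real.log_mul hN0.ne' (by positivity), Real.log_pow]
          norm_num
      _ ≤ Real.log N + 2 * Real.sqrt y := by
          have := Real.log_le_sub_one_of_pos (show 0 < Real.sqrt y + 1 by linarith)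
          linarith
  have h2 : C * Real.log ((d : ℝ) + 2) ≤ y := by
    have h3 : C * Real.log ((d : ℝ) + 2) ≤ C * (Real.log N + 2 * Real.sqrt y) :=
      mul_le_mul_of_nonneg_left h1 hC.le
    have h4 : 2 * C * Real.log N ≤ y := by nlinarith [sq_nonneg C]
    have h5 : 4 * C * Real.sqrt y ≤ y := by nlinarith
    nlinarith
  have h6 : N * (C * Real.log ((d : ℝ) + 2)) ≤ N * y := mul_le_mul_of_nonneg_left h2 hN0.le
  rw [hyd] at h6
  linarith

end Pool.Agent.H48.RK
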