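import Pool.Agent.H13.RL.Sup
import Pool.Agent.H48.RK.DefsL
import Pool.Agent.H48.RK.LipNet
import Pool.Agent.H72.RK.Gau
import Pool.Agent.H8.RK.Kos

/-!
# SUPL: all the forms of a random system are bounded by `2 d` on the sphere
-/

set_option autoImplicit false

namespace Pool.Agent.H48.RK

open MeasureTheory Metric Set
open scoped BigOperators ComplexConjugate

theorem supL : SupL := by
  intro m d k hm hd hlog
  have h := Pool.Agent.H13.RL.supL Pool.Agent.H72.RK.gamTail lip net Pool.Agent.H8.RK.kernel
    Pool.Agent.H8.RK.formSmul Pool.Agent.H8.RK.formDiff (k + 1) m d hm hd hlog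
  push_cast at h
  exact h

end Pool.Agent.H48.RK
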