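import Pool.Agent.H48.RK.DefsL

/-!
# MAINL: Theorem L from its modules
-/

set_option autoImplicit false

namespace Pool.Agent.H48.RK

open MeasureTheory Metric Set
open scoped BigOperators ComplexConjugate

/-! ## linear algebra of forms -/

lemma form_smul' {m d : ℕ} (c : ℂ) (a : Idx m d → ℂ) (z : Fin m → ℂ) :
    form (c • a) z = c * form a z := by
  simp only [form, Pi.smul_apply, smul_eq_mul, Finset.mul_sum, mul_assoc]

lemma form_sum' {m d k : ℕ} (l : Fin k → ℂ) (F : Fin k → Idx m d → ℂ) (z : Fin m → ℂ) :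
    form (∑ i, l i • F i) z = ∑ i, l i * form (F i) z := by
  simp only [form, Finset.sum_apply, Pi.smul_apply, smul_eq_mul, Finset.sum_mul, Finset.mul_sum]
  rw [Finset.sum_comm]
  exact Finset.sum_congr rfl fun i _ => Finset.sum_congr rfl fun α _ => by ring

lemma form_add' {m d : ℕ} (a b : Idx m d → ℂ) (z : Fin m → ℂ) :
    form (a + b) z = form a z + form b z := by
  simp only [form, Pi.add_apply, add_mul, Finset.sum_add_distrib]

lemma badD_of_smul {m d : ℕ} {c : ℂ} (hc : c ≠ 0) {a : Idx m d → ℂ} (h : BadD (c • a)) : BadD a := by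
  obtain ⟨f, h1, h2, h3, h4⟩ := h
  refine ⟨f, h1, h2, fun z hz => ?_, h4⟩
  have := h3 z hz
  rw [form_smul'] at this
  exact (mul_eq_zero.1 this).resolve_left hc

lemma form_bound (hFS : FormSmul) {m d : ℕ} (hd : 1 ≤ d) (a : Idx m d → ℂ) (B : ℝ)
    (ha : ∀ z : E m, ‖z‖ = 1 → ‖form a z.ofLp‖ ≤ B) (z : E m) :
    ‖form a z.ofLp‖ ≤ B * ‖z‖ ^ d := by
  rcases eq_or_ne z 0 with rfl | hz0
  · have : form a (0 : E m).ofLp = 0 := by
      have := hFS m d a 0 (0 : E m).ofLp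
      rw [zero_smul] at this
      rw [show (0 : E m).ofLp = (0 : Fin m → ℂ) from rfl, this, zero_pow (by omega), zero_mul]
    rw [this, norm_zero, norm_zero, zero_pow (by omega), mul_zero]
  · have hzn : 0 < ‖z‖ := norm_pos_iff.2 hz0
    have e1 : z.ofLp = ((‖z‖ : ℝ) : ℂ) • (((‖z‖⁻¹ : ℝ) : ℂ) • z).ofLp := by
      rw [WithLp.ofLp_smul, smul_smul, ← Complex.ofReal_mul, mul_inv_cancel₀ hzn.ne',
        Complex.ofReal_one, one_smul]
    rw [e1, hFS, norm_mul, norm_pow, Complex.norm_real, norm_norm]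
    have e2 : ‖(((‖z‖⁻¹ : ℝ) : ℂ) • z)‖ = 1 := by
      rw [norm_smul, Complex.norm_real, norm_inv, norm_norm, inv_mul_cancel₀ hzn.ne']
    have e3 := ha _ e2
    calc ‖z‖ ^ d * ‖form a (((‖z‖⁻¹ : ℝ) : ℂ) • z).ofLp‖ ≤ ‖z‖ ^ d * B :=
          mul_le_mul_of_nonneg_left e3 (by positivity)
      _ = B * ‖z‖ ^ d := mul_comm _ _

/-- points of a normalised disc have norm at least one -/
lemma one_le_disc {m : ℕ} {h : ℂ → E m} (H : Disc h) {t : ℂ} (ht : t ∈ ball (0 : ℂ) 1) :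
    1 ≤ ‖h t‖ := by
  have h1 : inner ℂ (h 0) (h t) = (1 : ℂ) := by
    have h2 := H.orth t ht
    rw [inner_sub_right, inner_self_eq_norm_sq_to_K, H.unit, sub_eq_zero] at h2
    rw [h2]
    norm_num
  have h3 := norm_inner_le_norm (𝕜 := ℂ) (h 0) (h t)
  rw [h1, H.unit, one_mul, norm_one] at h3
  exact h3

/-! ## a bad system contains a normalised disc -/

/-- data of a bad member: `l` of norm one and a normalised disc on which the member vanishes -/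
structure Wit {m d k : ℕ} (A : Fin (k + 1) → Idx m d → ℂ) (l : Fin (k + 1) → ℂ) (h : ℂ → E m) :
    Prop where
  unit : ∑ i, ‖l i‖ ^ 2 = 1
  disc : Disc h
  zero : ∀ t ∈ ball (0 : ℂ) 1, form (∑ i, l i • A i) (h t).ofLp = 0

lemma wit_of_badL (hG : GeoD) (hFS : FormSmul) {m d k : ℕ} {A : Fin (k + 1) → Idx m d → ℂ}
    (hA : BadL A) : ∃ l h, Wit A l h := by
  obtain ⟨l, hl, f, f1, f2, f3, f4⟩ := hA
  obtain ⟨h, H, hh⟩ := hG m f f1 f2 f4
  have hpos : 0 < ∑ i, ‖l i‖ ^ 2 := by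
    obtain ⟨i, hi⟩ := Function.ne_iff.1 hl
    refine Finset.sum_pos' (fun i _ => by positivity) ⟨i, Finset.mem_univ i, ?_⟩
    have : 0 < ‖l i‖ := norm_pos_iff.2 hi
    positivity
  set N : ℝ := Real.sqrt (∑ i, ‖l i‖ ^ 2) with hN
  have hN0 : 0 < N := Real.sqrt_pos.2 hpos
  have hN2 : N ^ 2 = ∑ i, ‖l i‖ ^ 2 := Real.sq_sqrt hpos.le
  refine ⟨fun i => ((N⁻¹ : ℝ) : ℂ) * l i, h, ⟨?_, H, fun t ht => ?_⟩⟩
  · simp only [norm_mul, Complex.norm_real, Real.norm_of_nonneg (inv_nonneg.2 hN0.le), mul_pow]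
    rw [← Finset.mul_sum, ← hN2, ← mul_pow, inv_mul_cancel₀ hN0.ne', one_pow]
  · obtain ⟨z, hz, c, hc⟩ := hh t ht
    rw [hc, hFS, form_sum']
    have h5 := f3 z hz
    rw [form_sum'] at h5
    have h6 : ∑ i, ((N⁻¹ : ℝ) : ℂ) * l i * form (A i) (f z) = 0 := by
      simp only [mul_assoc]
      rw [← Finset.mul_sum, h5, mul_zero]
    rw [h6, mul_zero]

/-! ## cells for `l` -/

/-- rounding -/
noncomputable def rdl (K : ℕ) (x : ℝ) : Fin (2 * 10 ^ K + 1) :=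
  ⟨(⌊x * 10 ^ K⌋ + 10 ^ K).toNat % (2 * 10 ^ K + 1), Nat.mod_lt _ (by positivity)⟩

lemma rdl_eq {K : ℕ} {x y : ℝ} (hx : |x| ≤ 1) (hy : |y| ≤ 1) (h : rdl K x = rdl K y) :
    |x - y| ≤ (1 / 10) ^ K := by
  have hq : (0 : ℝ) < 10 ^ K := by positivity
  have key : ∀ x : ℝ, |x| ≤ 1 → 0 ≤ ⌊x * 10 ^ K⌋ + 10 ^ K ∧
      (⌊x * 10 ^ K⌋ + 10 ^ K).toNat < 2 * 10 ^ K + 1 := by
    intro x hx
    have h1 := abs_le.1 hx
    have h2 : (-(10 : ℤ) ^ K) ≤ ⌊x * 10 ^ K⌋ := by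
      rw [Int.le_floor]
      push_cast
      nlinarith
    have h3 : ⌊x * 10 ^ K⌋ ≤ (10 : ℤ) ^ K := by
      have h4 : (⌊x * 10 ^ K⌋ : ℝ) ≤ x * 10 ^ K := Int.floor_le _
      have h5 : x * 10 ^ K ≤ 10 ^ K := by nlinarith
      have h6 : ((⌊x * 10 ^ K⌋ : ℤ) : ℝ) ≤ (((10 : ℤ) ^ K : ℤ) : ℝ) := by
        push_cast
        linarith
      exact_mod_cast h6
    constructor
    · linarith
    · rw [Int.toNat_lt (by linarith)]
      push_cast
      linarith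
  obtain ⟨hx1, hx2⟩ := key x hx
  obtain ⟨hy1, hy2⟩ := key y hy
  have h1 : (⌊x * 10 ^ K⌋ + 10 ^ K).toNat = (⌊y * 10 ^ K⌋ + 10 ^ K).toNat := by
    have h2 := congrArg Fin.val h
    simp only [rdl] at h2
    rwa [Nat.mod_eq_of_lt hx2, Nat.mod_eq_of_lt hy2] at h2
  have h3 : ⌊x * 10 ^ K⌋ = ⌊y * 10 ^ K⌋ := by
    have h4 := congrArg (fun n : ℕ => (n : ℤ)) h1
    simp only [Int.toNat_of_nonneg hx1, Int.toNat_of_nonneg hy1] at h4
    linarith
  have h5 : |x * 10 ^ K - y * 10 ^ K| ≤ 1 := (Int.abs_sub_lt_one_of_floor_eq_floor h3).le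
  rw [← sub_mul, abs_mul, abs_of_pos hq] at h5
  rw [one_div, inv_pow, ← one_div, le_div_iff₀ hq]
  exact h5

/-- the cell of `l` -/
noncomputable def lcell (K : ℕ) {k : ℕ} (l : Fin (k + 1) → ℂ) :
    Fin (k + 1) → Fin (2 * 10 ^ K + 1) × Fin (2 * 10 ^ K + 1) :=
  fun i => (rdl K (l i).re, rdl K (l i).im)

lemma lcell_eq {K k : ℕ} {l l' : Fin (k + 1) → ℂ} (hl : ∀ i, ‖l i‖ ≤ 1) (hl' : ∀ i, ‖l' i‖ ≤ 1)
    (h : lcell K l = lcell K l') (i : Fin (k + 1)) : ‖l i - l' i‖ ≤ 2 * (1 / 10) ^ K := by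
  have h1 := congrFun h i
  simp only [lcell, Prod.mk.injEq] at h1
  have h2 := rdl_eq ((Complex.abs_re_le_norm _).trans (hl i)) ((Complex.abs_re_le_norm _).trans (hl' i)) h1.1
  have h3 := rdl_eq ((Complex.abs_im_le_norm _).trans (hl i)) ((Complex.abs_im_le_norm _).trans (hl' i)) h1.2
  have h4 := Complex.norm_le_abs_re_add_abs_im (l i - l' i)
  rw [Complex.sub_re, Complex.sub_im] at h4
  linarith

lemma card_lcell (K k : ℕ) :
    Fintype.card (Fin (k + 1) → Fin (2 * 10 ^ K + 1) × Fin (2 * 10 ^ K + 1)) =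
      (2 * 10 ^ K + 1) ^ (2 * (k + 1)) := by
  rw [Fintype.card_fun, Fintype.card_prod, Fintype.card_fin, Fintype.card_fin, pow_mul, sq]

/-! ## the estimate in one cell -/

lemma norm_uv {m : ℕ} {h : ℂ → E m} (H : Disc h) {t : ℂ} (ht : t ∈ ball (0 : ℂ) 1) :
    ‖uv h t‖ = 1 := by
  have h1 : 0 < ‖h t‖ := lt_of_lt_of_le one_pos (one_le_disc H ht)
  rw [uv, norm_smul, Complex.norm_real, norm_inv, norm_norm, inv_mul_cancel₀ h1.ne']

lemma mem_ball_of {t : ℂ} (ht : ‖t‖ ≤ 1 / 12) : t ∈ ball (0 : ℂ) 1 := by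
  rw [mem_ball, dist_zero_right]
  linarith

lemma core (hFS : FormSmul) (hFD : FormDiff) (hLip : Lip) {m d k : ℕ} (hd : 1 ≤ d)
    (hk : k + 1 ≤ d) {F : Fin (k + 1) → Idx m d → ℂ} {B q : ℝ} (hB : 0 ≤ B)
    (hF : ∀ i, ∀ z : E m, ‖z‖ = 1 → ‖form (F i) z.ofLp‖ ≤ B) (hq : q ≤ 1 / (2 * d)) (hq0 : 0 ≤ q)
    {l l' : Fin (k + 1) → ℂ} {h h' : ℂ → E m} (W : Wit F l h) (H' : Disc h')
    (hll : ∀ i, ‖l i - l' i‖ ≤ 2 * q) {t : ℂ} (ht : ‖t‖ ≤ 1 / 12) (hhh : ‖h t - h' t‖ ≤ q) :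
    ‖∑ i, l' i * form (F i) (uv h' t).ofLp‖ ≤ 8 * d ^ 2 * B * q := by
  have htb := mem_ball_of ht
  have hd0 : (0 : ℝ) < d := by exact_mod_cast hd
  have hd1 : (1 : ℝ) ≤ d := by exact_mod_cast hd
  have hkd : ((k : ℝ) + 1) ≤ d := by exact_mod_cast hk
  have hk0 : (0 : ℝ) ≤ k := Nat.cast_nonneg k
  have hl1 : ∀ i, ‖l i‖ ≤ 1 := by
    intro i
    have h1 : ‖l i‖ ^ 2 ≤ 1 := by
      rw [← W.unit]
      exact Finset.single_le_sum (f := fun i => ‖l i‖ ^ 2) (fun i _ => by positivity)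
        (Finset.mem_univ i)
    nlinarith [norm_nonneg (l i)]
  set P : E m → ℂ := fun z => form (∑ i, l i • F i) z.ofLp with hP
  have hPd : Differentiable ℂ P := hFD m d _
  set S : ℝ := ((k : ℝ) + 1) * B with hS
  have hPS : ∀ z, ‖P z‖ ≤ S * ‖z‖ ^ d := by
    intro z
    simp only [hP, form_sum']
    calc ‖∑ i, l i * form (F i) z.ofLp‖ ≤ ∑ i, ‖l i * form (F i) z.ofLp‖ := norm_sum_le _ _
      _ ≤ ∑ _i : Fin (k + 1), B * ‖z‖ ^ d := by
          refine Finset.sum_le_sum fun i _ => ?_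
          rw [norm_mul]
          have h1 := form_bound hFS hd (F i) B (hF i) z
          calc ‖l i‖ * ‖form (F i) z.ofLp‖ ≤ 1 * ‖form (F i) z.ofLp‖ :=
                mul_le_mul_of_nonneg_right (hl1 i) (norm_nonneg _)
            _ ≤ B * ‖z‖ ^ d := by rw [one_mul]; exact h1
      _ = S * ‖z‖ ^ d := by
          rw [Finset.sum_const, Finset.card_univ, Fintype.card_fin, nsmul_eq_mul, hS]
          push_cast
          ring
  have hn' : 1 ≤ ‖h' t‖ := one_le_disc H' htb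
  have hn0 : 0 < ‖h' t‖ := lt_of_lt_of_le one_pos hn'
  have hinv : ‖h' t‖⁻¹ ≤ 1 := inv_le_one_of_one_le₀ hn'
  set z₀ : E m := uv h' t with hz₀
  have hz1 : ‖z₀‖ = 1 := norm_uv H' htb
  set z' : E m := ((‖h' t‖⁻¹ : ℝ) : ℂ) • h t with hz'
  have hdz : ‖z' - z₀‖ ≤ q := by
    rw [hz', hz₀, uv, ← smul_sub, norm_smul, Complex.norm_real, Real.norm_of_nonneg (by positivity)]
    calc ‖h' t‖⁻¹ * ‖h t - h' t‖ ≤ 1 * ‖h t - h' t‖ :=
          mul_le_mul_of_nonneg_right hinv (norm_nonneg _)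
      _ ≤ q := by rw [one_mul]; exact hhh
  have hPz' : P z' = 0 := by
    simp only [hP, hz', WithLp.ofLp_smul]
    rw [hFS, W.zero t htb, mul_zero]
  have hL := hLip m d hd P hPd S hPS z₀ z' hz1 (hdz.trans hq)
  rw [hPz', zero_sub, norm_neg] at hL
  have hS0 : 0 ≤ S := by positivity
  have hL2 : ‖P z₀‖ ≤ 6 * d * S * q :=
    hL.trans (mul_le_mul_of_nonneg_left hdz (by positivity))
  have hsplit : ∑ i, l' i * form (F i) z₀.ofLp =
      P z₀ - ∑ i, (l i - l' i) * form (F i) z₀.ofLp := by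
    simp only [hP, form_sum']
    rw [← Finset.sum_sub_distrib]
    exact Finset.sum_congr rfl fun i _ => by ring
  have hrest : ‖∑ i, (l i - l' i) * form (F i) z₀.ofLp‖ ≤ ((k : ℝ) + 1) * (2 * q * B) := by
    calc ‖∑ i, (l i - l' i) * form (F i) z₀.ofLp‖ ≤ ∑ i, ‖(l i - l' i) * form (F i) z₀.ofLp‖ :=
          norm_sum_le _ _
      _ ≤ ∑ _i : Fin (k + 1), 2 * q * B := by
          refine Finset.sum_le_sum fun i _ => ?_
          rw [norm_mul]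
          exact mul_le_mul (hll i) (hF i z₀ hz1) (norm_nonneg _) (by positivity)
      _ = ((k : ℝ) + 1) * (2 * q * B) := by
          rw [Finset.sum_const, Finset.card_univ, Fintype.card_fin, nsmul_eq_mul]
          push_cast
          ring
  rw [hsplit]
  refine (norm_sub_le _ _).trans ?_
  have hBq : 0 ≤ B * q := mul_nonneg hB hq0
  have e1 : 6 * d * S * q ≤ 6 * d ^ 2 * (B * q) := by
    calc 6 * d * S * q = (6 * d) * (((k : ℝ) + 1) * (B * q)) := by rw [hS]; ring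
      _ ≤ (6 * d) * (d * (B * q)) :=
          mul_le_mul_of_nonneg_left (mul_le_mul_of_nonneg_right hkd hBq) (by positivity)
      _ = 6 * d ^ 2 * (B * q) := by ring
  have e2 : ((k : ℝ) + 1) * (2 * q * B) ≤ 2 * d ^ 2 * (B * q) := by
    calc ((k : ℝ) + 1) * (2 * q * B) = ((k : ℝ) + 1) * (2 * (B * q)) := by ring
      _ ≤ d * (2 * (B * q)) := mul_le_mul_of_nonneg_right hkd (by positivity)
      _ ≤ (d * d) * (2 * (B * q)) := mul_le_mul_of_nonneg_right (by nlinarith) (by positivity)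
      _ = 2 * d ^ 2 * (B * q) := by ring
  calc ‖P z₀‖ + ‖∑ i, (l i - l' i) * form (F i) z₀.ofLp‖
      ≤ 6 * d ^ 2 * (B * q) + 2 * d ^ 2 * (B * q) :=
        add_le_add (hL2.trans e1) (hrest.trans e2)
    _ = 8 * d ^ 2 * B * q := by ring

/-- numerics of the accuracy -/
lemma eta_le {D ε q : ℝ} (hD : 1 ≤ D) (hε : 0 < ε) (hq : 0 < q) (hq1 : q ≤ 1)
    (h1 : 2 * 10 ^ 10 * D ^ 12 * q ≤ 1) (h2 : q ≤ ε ^ 4) :
    212 * (24 * D ^ 3 * q / ε) ^ 2 ≤ q ∧ 24 * D ^ 3 * q / ε ≤ 1 := by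
  have hX : (122112 * D ^ 6 * q) ^ 2 ≤ (ε ^ 2) ^ 2 := by
    calc (122112 * D ^ 6 * q) ^ 2 = 122112 ^ 2 * (D ^ 12 * q) * q := by ring
      _ ≤ 1 * q := by
          apply mul_le_mul_of_nonneg_right _ hq.le
          nlinarith [show 0 ≤ D ^ 12 * q by positivity]
      _ ≤ (ε ^ 2) ^ 2 := by rw [one_mul]; calc q ≤ ε ^ 4 := h2
            _ = (ε ^ 2) ^ 2 := by ring
  have hX2 : 122112 * D ^ 6 * q ≤ ε ^ 2 :=
    (pow_le_pow_iff_left₀ (by positivity) (by positivity) two_ne_zero).1 hX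
  have h3 : 212 * (24 * D ^ 3 * q / ε) ^ 2 ≤ q := by
    rw [div_pow, ← mul_div_assoc, div_le_iff₀ (by positivity)]
    calc 212 * (24 * D ^ 3 * q) ^ 2 = (122112 * D ^ 6 * q) * q := by ring
      _ ≤ ε ^ 2 * q := mul_le_mul_of_nonneg_right hX2 hq.le
      _ = q * ε ^ 2 := mul_comm _ _
  refine ⟨h3, ?_⟩
  have h4 : 0 ≤ 24 * D ^ 3 * q / ε := by positivity
  nlinarith

end Pool.Agent.H48.RK
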