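import Pool.Agent.H48.RK.DefsR
import Pool.Agent.H48.RK.MainL
import Pool.Agent.H48.RK.Gau2
import Pool.Agent.H48.RK.LipNet
import Pool.Agent.H72.RK.Gau
import Pool.Agent.H8.RK.Kos

/-!
# MAINR: Theorem L with the parameter `r` from its modules
-/

set_option autoImplicit false

namespace Pool.Agent.H48.RK

open MeasureTheory Metric Set
open scoped BigOperators ComplexConjugate

lemma badR_of_smul {m d : ℕ} {r : ℝ} {c : ℂ} (hc : c ≠ 0) {a : Idx m d → ℂ}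
    (h : BadR r (c • a)) : BadR r a := by
  obtain ⟨f, h1, h2, h3, h4⟩ := h
  refine ⟨f, h1, h2, fun z hz => ?_, h4⟩
  have := h3 z hz
  rw [form_smul'] at this
  exact (mul_eq_zero.1 this).resolve_left hc

lemma one_le_discR {m : ℕ} {r : ℝ} {h : ℂ → E m} (H : DiscR r h) {t : ℂ}
    (ht : t ∈ ball (0 : ℂ) 1) : 1 ≤ ‖h t‖ := by
  have h1 : inner ℂ (h 0) (h t) = (1 : ℂ) := by
    have h2 := H.orth t ht
    rw [inner_sub_right, inner_self_eq_norm_sq_to_K, H.unit, sub_eq_zero] at h2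
    rw [h2]
    norm_num
  have h3 := norm_inner_le_norm (𝕜 := ℂ) (h 0) (h t)
  rw [h1, H.unit, one_mul, norm_one] at h3
  exact h3

/-- data of a bad member: `l` of norm one and a normalised disc on which the member vanishes -/
structure WitR {m d k : ℕ} (r : ℝ) (A : Fin (k + 1) → Idx m d → ℂ) (l : Fin (k + 1) → ℂ)
    (h : ℂ → E m) : Prop where
  unit : ∑ i, ‖l i‖ ^ 2 = 1
  disc : DiscR r h
  zero : ∀ t ∈ ball (0 : ℂ) 1, form (∑ i, l i • A i) (h t).ofLp = 0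

lemma wit_of_badLR (hG : GeoR) (hFS : FormSmul) {m d k : ℕ} {r : ℝ} (hr0 : 0 < r) (hr1 : r ≤ 1)
    {A : Fin (k + 1) → Idx m d → ℂ} (hA : BadLR r A) : ∃ l h, WitR r A l h := by
  obtain ⟨l, hl, f, f1, f2, f3, f4⟩ := hA
  obtain ⟨h, H, hh⟩ := hG m r hr0 hr1 f f1 f2 f4
  have hpos : 0 < ∑ i, ‖l i‖ ^ 2 := by
    obtain ⟨i, hi⟩ := Function.ne_iff.1 hl
    refine Finset.sum_pos' (fun i _ => by positivity) ⟨i, Finset.mem_univ i, ?_⟩
    have : 0 < ‖l i‖ := norm_pos_iff.2 hi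
    positivity
  set N : ℝ := Real.sqrt (∑ i, ‖l i‖ ^ 2) with hN
  have hN0 : 0 < N := Real.sqrt_pos.2 hpos
  have hN2 : N ^ 2 = ∑ i, ‖l i‖ ^ 2 := Real.sq_sqrt hpos.le
  refine ⟨fun i => ((N⁻¹ : ℝ) : ℂ) * l i, h, ⟨?_, H, fun t ht => ?_⟩⟩
  · simp only [norm_mul, Complex.norm_real, Real.norm_of_nonneg (inv_nonneg.2 hN0.le), mul_pow]
    rw [← Finset.mul_sum, ← hN2, ← mul_pow, inv_mul_cancel₀ hN0.ne', one_pow]
  · obtain ⟨z, hz, c, hc⟩ := hh t ht
    rw [hc, hFS, form_sum']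
    have h5 := f3 z hz
    rw [form_sum'] at h5
    have h6 : ∑ i, ((N⁻¹ : ℝ) : ℂ) * l i * form (A i) (f z) = 0 := by
      simp only [mul_assoc]
      rw [← Finset.mul_sum, h5, mul_zero]
    rw [h6, mul_zero]

lemma norm_uvR {m : ℕ} {r : ℝ} {h : ℂ → E m} (H : DiscR r h) {t : ℂ} (ht : t ∈ ball (0 : ℂ) 1) :
    ‖uv h t‖ = 1 := by
  have h1 : 0 < ‖h t‖ := lt_of_lt_of_le one_pos (one_le_discR H ht)
  rw [uv, norm_smul, Complex.norm_real, norm_inv, norm_norm, inv_mul_cancel₀ h1.ne']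

lemma coreR (hFS : FormSmul) (hFD : FormDiff) (hLip : Lip) {m d k : ℕ} {r : ℝ} (hd : 1 ≤ d)
    (hk : k + 1 ≤ d) {F : Fin (k + 1) → Idx m d → ℂ} {B q : ℝ} (hB : 0 ≤ B)
    (hF : ∀ i, ∀ z : E m, ‖z‖ = 1 → ‖form (F i) z.ofLp‖ ≤ B) (hq : q ≤ 1 / (2 * d)) (hq0 : 0 ≤ q)
    {l l' : Fin (k + 1) → ℂ} {h h' : ℂ → E m} (W : WitR r F l h) (H' : DiscR r h')
    (hll : ∀ i, ‖l i - l' i‖ ≤ 2 * q) {t : ℂ} (ht : ‖t‖ ≤ 1 / 12) (hhh : ‖h t - h' t‖ ≤ q) :
    ‖∑ i, l' i * form (F i) (uv h' t).ofLp‖ ≤ 8 * d ^ 2 * B * q := by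
  have htb := mem_ball_of ht
  have hd0 : (0 : ℝ) < d := by exact_mod_cast hd
  have hd1 : (1 : ℝ) ≤ d := by exact_mod_cast hd
  have hkd : ((k : ℝ) + 1) ≤ d := by exact_mod_cast hk
  have hk0 : (0 : ℝ) ≤ k := Nat.cast_nonneg k
  have hl1 : ∀ i, ‖l i‖ ≤ 1 := by
    intro i
    have h1 : ‖l i‖ ^ 2 ≤ 1 := by
      rw [← W.unit]
      exact Finset.single_le_sum (f := fun i => ‖l i‖ ^ 2) (fun i _ => by positivity)
        (Finset.mem_univ i)
    nlinarith [norm_nonneg (l i)]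
  set P : E m → ℂ := fun z => form (∑ i, l i • F i) z.ofLp with hP
  have hPd : Differentiable ℂ P := hFD m d _
  set S : ℝ := ((k : ℝ) + 1) * B with hS
  have hPS : ∀ z, ‖P z‖ ≤ S * ‖z‖ ^ d := by
    intro z
    simp only [hP, form_sum']
    calc ‖∑ i, l i * form (F i) z.ofLp‖ ≤ ∑ i, ‖l i * form (F i) z.ofLp‖ := norm_sum_le _ _
      _ ≤ ∑ _i : Fin (k + 1), B * ‖z‖ ^ d := by
          refine Finset.sum_le_sum fun i _ => ?_
          rw [norm_mul]
          have h1 := form_bound hFS hd (F i) B (hF i) z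
          calc ‖l i‖ * ‖form (F i) z.ofLp‖ ≤ 1 * ‖form (F i) z.ofLp‖ :=
                mul_le_mul_of_nonneg_right (hl1 i) (norm_nonneg _)
            _ ≤ B * ‖z‖ ^ d := by rw [one_mul]; exact h1
      _ = S * ‖z‖ ^ d := by
          rw [Finset.sum_const, Finset.card_univ, Fintype.card_fin, nsmul_eq_mul, hS]
          push_cast
          ring
  have hn' : 1 ≤ ‖h' t‖ := one_le_discR H' htb
  have hn0 : 0 < ‖h' t‖ := lt_of_lt_of_le one_pos hn'
  have hinv : ‖h' t‖⁻¹ ≤ 1 := inv_le_one_of_one_le₀ hn'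
  set z₀ : E m := uv h' t with hz₀
  have hz1 : ‖z₀‖ = 1 := norm_uvR H' htb
  set z' : E m := ((‖h' t‖⁻¹ : ℝ) : ℂ) • h t with hz'
  have hdz : ‖z' - z₀‖ ≤ q := by
    rw [hz', hz₀, uv, ← smul_sub, norm_smul, Complex.norm_real, Real.norm_of_nonneg (by positivity)]
    calc ‖h' t‖⁻¹ * ‖h t - h' t‖ ≤ 1 * ‖h t - h' t‖ :=
          mul_le_mul_of_nonneg_right hinv (norm_nonneg _)
      _ ≤ q := by rw [one_mul]; exact hhh
  have hPz' : P z' = 0 := by
    simp only [hP, hz', WithLp.ofLp_smul]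
    rw [hFS, W.zero t htb, mul_zero]
  have hL := hLip m d hd P hPd S hPS z₀ z' hz1 (hdz.trans hq)
  rw [hPz', zero_sub, norm_neg] at hL
  have hS0 : 0 ≤ S := by positivity
  have hL2 : ‖P z₀‖ ≤ 6 * d * S * q :=
    hL.trans (mul_le_mul_of_nonneg_left hdz (by positivity))
  have hsplit : ∑ i, l' i * form (F i) z₀.ofLp =
      P z₀ - ∑ i, (l i - l' i) * form (F i) z₀.ofLp := by
    simp only [hP, form_sum']
    rw [← Finset.sum_sub_distrib]
    exact Finset.sum_congr rfl fun i _ => by ring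
  have hrest : ‖∑ i, (l i - l' i) * form (F i) z₀.ofLp‖ ≤ ((k : ℝ) + 1) * (2 * q * B) := by
    calc ‖∑ i, (l i - l' i) * form (F i) z₀.ofLp‖ ≤ ∑ i, ‖(l i - l' i) * form (F i) z₀.ofLp‖ :=
          norm_sum_le _ _
      _ ≤ ∑ _i : Fin (k + 1), 2 * q * B := by
          refine Finset.sum_le_sum fun i _ => ?_
          rw [norm_mul]
          exact mul_le_mul (hll i) (hF i z₀ hz1) (norm_nonneg _) (by positivity)
      _ = ((k : ℝ) + 1) * (2 * q * B) := by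
          rw [Finset.sum_const, Finset.card_univ, Fintype.card_fin, nsmul_eq_mul]
          push_cast
          ring
  rw [hsplit]
  refine (norm_sub_le _ _).trans ?_
  have hBq : 0 ≤ B * q := mul_nonneg hB hq0
  have e1 : 6 * d * S * q ≤ 6 * d ^ 2 * (B * q) := by
    calc 6 * d * S * q = (6 * d) * (((k : ℝ) + 1) * (B * q)) := by rw [hS]; ring
      _ ≤ (6 * d) * (d * (B * q)) :=
          mul_le_mul_of_nonneg_left (mul_le_mul_of_nonneg_right hkd hBq) (by positivity)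
      _ = 6 * d ^ 2 * (B * q) := by ring
  have e2 : ((k : ℝ) + 1) * (2 * q * B) ≤ 2 * d ^ 2 * (B * q) := by
    calc ((k : ℝ) + 1) * (2 * q * B) = ((k : ℝ) + 1) * (2 * (B * q)) := by ring
      _ ≤ d * (2 * (B * q)) := mul_le_mul_of_nonneg_right hkd (by positivity)
      _ ≤ (d * d) * (2 * (B * q)) := mul_le_mul_of_nonneg_right (by nlinarith) (by positivity)
      _ = 2 * d ^ 2 * (B * q) := by ring
  calc ‖P z₀‖ + ‖∑ i, (l i - l' i) * form (F i) z₀.ofLp‖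
      ≤ 6 * d ^ 2 * (B * q) + 2 * d ^ 2 * (B * q) :=
        add_le_add (hL2.trans e1) (hrest.trans e2)
    _ = 8 * d ^ 2 * B * q := by ring

lemma cell_boundR (hGI : GridInR) (hGr : GridR) {m d k K m1 : ℕ} {r : ℝ} (hr0 : 0 < r)
    (hr1 : r ≤ 1) (hd : 1 ≤ d) (hk : k + 1 ≤ d)
    (hm1 : 459 * ((m1 : ℝ) - 1) ≤ r * Real.sqrt d) {C : Type} (cell : (ℂ → E m) → C)
    (hcell : ∀ h h' : ℂ → E m, DiscR r h → DiscR r h' → cell h = cell h' →
      ∀ t : ℂ, ‖t‖ ≤ 1 / 12 → ‖h t - h' t‖ ≤ (1 / 10) ^ K)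
    (hq : (1 / 10 : ℝ) ^ K ≤ 1 / (2 * d)) (b : Fin (k + 1) → Idx m d → ℂ) {B : ℝ} (hB : 0 < B)
    (hη : 8 * (d : ℝ) ^ 2 * B * (1 / 10) ^ K ≤ 1) (c : C)
    (lam : Fin (k + 1) → Fin (2 * 10 ^ K + 1) × Fin (2 * 10 ^ K + 1)) :
    gam (Fin (k + 1) × Idx m d)
      {a | ∃ l h, WitR r (fun i α => b i α + a (i, α)) l h ∧ cell h = c ∧ lcell K l = lam ∧
        ∀ i, ∀ z : E m, ‖z‖ = 1 → ‖form (fun α => b i α + a (i, α)) z.ofLp‖ ≤ B} ≤
      ENNReal.ofReal ((212 * (8 * (d : ℝ) ^ 2 * B * (1 / 10) ^ K) ^ 2) ^ (m1 ^ 2)) := by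
  classical
  by_cases hex : ∃ (l : Fin (k + 1) → ℂ) (h : ℂ → E m), ∑ i, ‖l i‖ ^ 2 = 1 ∧ DiscR r h ∧
      cell h = c ∧ lcell K l = lam
  · obtain ⟨l', h', hl', H', hc', hlam'⟩ := hex
    have hgi := hGI d m1 r hr0 hr1 hd hm1
    have hgr := hGr m d m1 r hr0 hr1 hd hm1 h' H'
    set zz : Fin m1 × Fin m1 → E m := fun j => uv h' (ptR d r j) with hzz
    have hzz1 : ∀ j, ‖zz j‖ = 1 := fun j => norm_uvR H' (mem_ball_of (hgi j))
    have hl'1 : ∀ i, ‖l' i‖ ≤ 1 := by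
      intro i
      have h1 : ‖l' i‖ ^ 2 ≤ 1 := by
        rw [← hl']
        exact Finset.single_le_sum (f := fun i => ‖l' i‖ ^ 2) (fun i _ => by positivity)
          (Finset.mem_univ i)
      nlinarith [norm_nonneg (l' i)]
    have hsb := smallBall Pool.Agent.H72.RK.gamUniv Pool.Agent.H72.RK.gamShift
      (Fin (k + 1) × Idx m d) (Fin m1 × Fin m1)
      (fun j p => l' p.1 * phi (zz j).ofLp p.2) ?_ ?_
      (fun j => ∑ i, l' i * form (b i) (zz j).ofLp)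
      (8 * (d : ℝ) ^ 2 * B * (1 / 10) ^ K) (by positivity) hη
    · refine le_trans (measure_mono ?_) (hsb.trans (le_of_eq ?_))
      · rintro a ⟨l, h, W, hc, hlam, hbd⟩ j
        have hl1 : ∀ i, ‖l i‖ ≤ 1 := by
          intro i
          have h1 : ‖l i‖ ^ 2 ≤ 1 := by
            rw [← W.unit]
            exact Finset.single_le_sum (f := fun i => ‖l i‖ ^ 2) (fun i _ => by positivity)
              (Finset.mem_univ i)
          nlinarith [norm_nonneg (l i)]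
        have hcore := coreR Pool.Agent.H8.RK.formSmul Pool.Agent.H8.RK.formDiff lip hd hk
          (F := fun i α => b i α + a (i, α)) hB.le hbd hq (by positivity) W H'
          (lcell_eq hl1 hl'1 (hlam.trans hlam'.symm)) (hgi j)
          (hcell h h' W.disc H' (hc.trans hc'.symm) (ptR d r j) (hgi j))
        have e1 : ∑ t : Fin (k + 1) × Idx m d, a t * (l' t.1 * phi (zz j).ofLp t.2) +
            ∑ i, l' i * form (b i) (zz j).ofLp =
            ∑ i, l' i * form (fun α => b i α + a (i, α)) (uv h' (ptR d r j)).ofLp := by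
          rw [Fintype.sum_prod_type, ← Finset.sum_add_distrib]
          refine Finset.sum_congr rfl fun i _ => ?_
          simp only [form, add_mul, Finset.sum_add_distrib, mul_add, Finset.mul_sum, hzz]
          rw [add_comm]
          congr 1
          exact Finset.sum_congr rfl fun α _ => by ring
        simp only [e1]
        exact hcore
      · rw [Fintype.card_prod, Fintype.card_fin, sq m1]
    · intro j
      rw [Fintype.sum_prod_type]
      simp only [norm_mul, mul_pow]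
      simp only [← Finset.mul_sum]
      have h1 : ∑ i, ‖(zz j).ofLp i‖ ^ 2 = 1 := by
        have h := EuclideanSpace.norm_sq_eq (zz j)
        rw [hzz1 j, one_pow] at h
        exact h.symm
      rw [Pool.Agent.H8.RK.sum_norm_sq, h1, one_pow]
      simpa using hl'
    · intro i
      refine le_trans (le_of_eq ?_) (hgr i)
      refine Finset.sum_congr rfl fun j _ => ?_
      congr 1
      rw [Fintype.sum_prod_type]
      have e2 : ∀ (p : Fin (k + 1)) (α : Idx m d),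
          l' p * phi (zz i).ofLp α * conj (l' p * phi (zz j).ofLp α) =
          (l' p * conj (l' p)) * (phi (zz i).ofLp α * conj (phi (zz j).ofLp α)) := by
        intro p α
        rw [map_mul]
        ring
      simp only [e2, ← Finset.mul_sum]
      rw [Pool.Agent.H8.RK.kernel, ← Finset.sum_mul]
      have e3 : ∑ p, l' p * conj (l' p) = 1 := by
        simp only [Complex.mul_conj, Complex.normSq_eq_norm_sq]
        exact_mod_cast hl'
      rw [e3, one_mul]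
  · have : {a : Fin (k + 1) × Idx m d → ℂ | ∃ l h, WitR r (fun i α => b i α + a (i, α)) l h ∧
        cell h = c ∧ lcell K l = lam ∧
        ∀ i, ∀ z : E m, ‖z‖ = 1 → ‖form (fun α => b i α + a (i, α)) z.ofLp‖ ≤ B} = ∅ := by
      rw [eq_empty_iff_forall_notMem]
      rintro a ⟨l, h, W, hc, hlam, -⟩
      exact hex ⟨l, h, W.unit, W.disc, hc, hlam⟩
    rw [this, measure_empty]
    exact bot_le

lemma union_boundR (hG : GeoR) (hGI : GridInR) (hGr : GridR) (hC : CellsR) (hSup : SupL)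
    {m d k K m1 : ℕ} {r : ℝ} (hr0 : 0 < r) (hr1 : r ≤ 1) (hm : 1 ≤ m) (hd1 : 1 ≤ d)
    (hkd : k + 1 ≤ d)
    (hgrid : 459 * ((m1 : ℝ) - 1) ≤ r * Real.sqrt d) (hK : 2 * 10 ^ 10 * (d : ℝ) ^ 12 ≤ 10 ^ K)
    (hsq : 8 * (m : ℝ) * Real.log (48 * d * m + 1) + 6 ≤ (d : ℝ) ^ 2)
    {ε : ℝ} (hε0 : 0 < ε) (hε1 : ε ≤ 1) (hqe : (1 / 10 : ℝ) ^ K ≤ ε ^ 4)
    (A₀ : Fin (k + 1) → Idx m d → ℂ)
    (hA₀ : ∀ i, ∀ z : E m, ‖z‖ ≤ 1 → ‖form (A₀ i) z.ofLp‖ ≤ 1) {s : ℝ} (hs : ε ≤ s) :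
    gam (Fin (k + 1) × Idx m d) {a | BadLR r (fun i α => A₀ i α + (s : ℂ) * a (i, α))} ≤
      ENNReal.ofReal ((k + 1) * Real.exp (-(d : ℝ) ^ 2 / 4)) +
      ENNReal.ofReal ((4 * (m : ℝ) * 10 ^ K + 1) ^ (2 * m * (K + 1)) *
          (2 * (10 : ℝ) ^ K + 1) ^ (2 * (k + 1)) * ((1 / 10 : ℝ) ^ K) ^ (m1 ^ 2)) := by
  classical
  have hs0 : 0 < s := lt_of_lt_of_le hε0 hs
  have hdr : (1 : ℝ) ≤ d := by exact_mod_cast hd1
  have hd0 : (0 : ℝ) < d := by linarith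
  obtain ⟨q, hq⟩ : ∃ q : ℝ, q = (1 / 10 : ℝ) ^ K := ⟨_, rfl⟩
  have hq0 : 0 < q := by rw [hq]; positivity
  have hqq : q * 10 ^ K = 1 := by
    rw [hq, ← mul_pow]
    norm_num
  have hq1 : q ≤ 1 := by rw [hq]; exact pow_le_one₀ (by norm_num) (by norm_num)
  have hKq : 2 * 10 ^ 10 * (d : ℝ) ^ 12 * q ≤ 1 := by
    calc 2 * 10 ^ 10 * (d : ℝ) ^ 12 * q ≤ 10 ^ K * q := mul_le_mul_of_nonneg_right hK hq0.le
      _ = 1 := by rw [mul_comm]; exact hqq
  obtain ⟨hη2, hη1⟩ := eta_le hdr hε0 hq0 hq1 hKq (hq ▸ hqe)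
  have hq2 : q ≤ 1 / (2 * d) := by
    rw [le_div_iff₀ (by positivity)]
    have h1 : (d : ℝ) ≤ (d : ℝ) ^ 12 := by
      calc (d : ℝ) = (d : ℝ) ^ 1 := (pow_one _).symm
        _ ≤ (d : ℝ) ^ 12 := pow_le_pow_right₀ hdr (by norm_num)
    have h2 : (d : ℝ) * q ≤ (d : ℝ) ^ 12 * q := mul_le_mul_of_nonneg_right h1 hq0.le
    linarith
  obtain ⟨B, hB⟩ : ∃ B : ℝ, B = 3 * d / ε := ⟨_, rfl⟩
  have hB0 : 0 < B := by rw [hB]; positivity
  have hBη : 8 * (d : ℝ) ^ 2 * B * q = 24 * (d : ℝ) ^ 3 * q / ε := by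
    rw [hB]
    ring
  obtain ⟨b, hb⟩ : ∃ b : Fin (k + 1) → Idx m d → ℂ, b = fun i => ((s : ℂ))⁻¹ • A₀ i := ⟨_, rfl⟩
  obtain ⟨Cc, instC, cell, hcard, hcell⟩ := hC m K hm
  set S : Cc × (Fin (k + 1) → Fin (2 * 10 ^ K + 1) × Fin (2 * 10 ^ K + 1)) →
      Set (Fin (k + 1) × Idx m d → ℂ) := fun p =>
      {a | ∃ l h, WitR r (fun i α => b i α + a (i, α)) l h ∧ cell h = p.1 ∧ lcell K l = p.2 ∧
          ∀ i, ∀ z : E m, ‖z‖ = 1 → ‖form (fun α => b i α + a (i, α)) z.ofLp‖ ≤ B} with hS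
  have hsub : {a : Fin (k + 1) × Idx m d → ℂ | BadLR r (fun i α => A₀ i α + (s : ℂ) * a (i, α))} ⊆
      {a | ∃ i, ∃ z : E m, ‖z‖ = 1 ∧ 2 * (d : ℝ) < ‖form (fun α => a (i, α)) z.ofLp‖} ∪
      ⋃ p, S p := by
    intro a ha
    by_cases hbig : ∃ i, ∃ z : E m, ‖z‖ = 1 ∧ 2 * (d : ℝ) < ‖form (fun α => a (i, α)) z.ofLp‖
    · exact Or.inl hbig
    · right
      push Not at hbig
      have hs0' : (s : ℂ) ≠ 0 := by exact_mod_cast hs0.ne'
      have hbad : BadLR r (fun i α => b i α + a (i, α)) := by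
        obtain ⟨l, hl, hbd⟩ := ha
        refine ⟨l, hl, badR_of_smul (c := (s : ℂ)) hs0' ?_⟩
        convert hbd using 1
        rw [Finset.smul_sum]
        refine Finset.sum_congr rfl fun i _ => ?_
        funext α
        simp only [Pi.smul_apply, smul_eq_mul, hb]
        field_simp
      obtain ⟨l, h, W⟩ := wit_of_badLR hG Pool.Agent.H8.RK.formSmul hr0 hr1 hbad
      rw [mem_iUnion]
      refine ⟨(cell h, lcell K l), l, h, W, rfl, rfl, fun i z hz => ?_⟩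
      have e1 : form (fun α => b i α + a (i, α)) z.ofLp =
          form (b i) z.ofLp + form (fun α => a (i, α)) z.ofLp := form_add' (b i) _ _
      have e2 : ‖form (b i) z.ofLp‖ ≤ 1 / ε := by
        rw [hb]
        simp only [form_smul', norm_mul, norm_inv, Complex.norm_real, Real.norm_of_nonneg hs0.le]
        have h1 := hA₀ i z hz.le
        calc s⁻¹ * ‖form (A₀ i) z.ofLp‖ ≤ ε⁻¹ * 1 :=
              mul_le_mul (inv_anti₀ hε0 hs) h1 (norm_nonneg _) (by positivity)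
          _ = 1 / ε := by rw [mul_one, one_div]
      have e3 : (2 : ℝ) * d ≤ 2 * d / ε := by
        rw [le_div_iff₀ hε0]
        nlinarith
      rw [e1]
      calc ‖form (b i) z.ofLp + form (fun α => a (i, α)) z.ofLp‖
          ≤ ‖form (b i) z.ofLp‖ + ‖form (fun α => a (i, α)) z.ofLp‖ := norm_add_le _ _
        _ ≤ 1 / ε + 2 * d / ε := add_le_add e2 ((hbig i z hz).trans e3)
        _ ≤ B := by
            rw [hB, ← add_div]
            apply div_le_div_of_nonneg_right _ hε0.le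
            linarith
  refine (measure_mono hsub).trans ((measure_union_le _ _).trans ?_)
  refine add_le_add (hSup m d k hm hd1 hsq) ?_
  rw [← hq]
  have hone : ∀ p, gam (Fin (k + 1) × Idx m d) (S p) ≤ ENNReal.ofReal (q ^ (m1 ^ 2)) := by
    intro p
    have h1 := cell_boundR hGI hGr (m1 := m1) hr0 hr1 hd1 hkd hgrid cell (hcell r hr0 hr1)
      (hq ▸ hq2) b hB0 (by rw [← hq, hBη]; exact hη1) p.1 p.2
    refine h1.trans (ENNReal.ofReal_le_ofReal ?_)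
    rw [← hq, hBη]
    exact pow_le_pow_left₀ (by positivity) hη2 _
  refine (measure_iUnion_fintype_le _ _).trans ?_
  refine (Finset.sum_le_sum fun p _ => hone p).trans ?_
  rw [Finset.sum_const, Finset.card_univ, Fintype.card_prod, card_lcell, nsmul_eq_mul,
    ENNReal.ofReal_mul (by positivity)]
  gcongr
  rw [← ENNReal.ofReal_natCast]
  apply ENNReal.ofReal_le_ofReal
  push_cast
  have hcard' : (Fintype.card Cc : ℝ) ≤ (4 * (m : ℝ) * 10 ^ K + 1) ^ (2 * m * (K + 1)) := by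
    exact_mod_cast hcard
  exact mul_le_mul_of_nonneg_right hcard' (by positivity)

theorem mainR (hG : GeoR) (hGI : GridInR) (hGr : GridR) (hC : CellsR) (hSup : SupL)
    (hNum : NumR) : TheoremLR := by
  obtain ⟨C, c, hC0, hc, hnum⟩ := hNum
  refine ⟨C, c, hC0, hc, fun n d k r hn hr0 hr1 hd hk A₀ hA₀ s hs => ?_⟩
  obtain ⟨m1, K, hm1, hd1, hkd, hgrid, hK, hsq, hqe, htot⟩ := hnum n d k r hn hr0 hr1 hd hk
  have hε1 : Real.exp (-c * (r ^ 2 * d) / (n + 2)) ≤ 1 := by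
    rw [Real.exp_le_one_iff]
    have h1 : (0 : ℝ) ≤ (n : ℝ) + 2 := by positivity
    apply div_nonpos_of_nonpos_of_nonneg _ h1
    have h2 : (0 : ℝ) ≤ c * (r ^ 2 * d) := by positivity
    linarith
  refine (union_boundR hG hGI hGr hC hSup hr0 hr1 (by omega) hd1 hkd hgrid hK hsq
    (Real.exp_pos _) hε1 hqe A₀ hA₀ hs).trans ?_
  rw [← ENNReal.ofReal_add (by positivity) (by positivity)]
  exact ENNReal.ofReal_le_ofReal htot

end Pool.Agent.H48.RK
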