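import Pool.Agent.H48.RK.CellR
import Pool.Agent.H48.RK.FinS
import Pool.Agent.H48.RK.MainR
import Pool.Agent.H48.RK.NumR
import Pool.Agent.H48.RK.NumR2
import Pool.Agent.H48.RK.SupL
import Pool.Agent.H72.RK.BadToD
import Pool.Agent.H74.RK.GeoR
import Pool.Agent.H77.RK.GridR

/-!
# Theorem L with the parameter `r`, without hypotheses
-/

set_option autoImplicit false

namespace Pool.Agent.H48.RK

theorem theoremLR : TheoremLR :=
  mainR Pool.Agent.H74.RK.geoR Pool.Agent.H77.RK.R.gridInR Pool.Agent.H77.RK.R.gridR cellsR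
    supL numR

theorem finalLR_holds : FinalLR :=
  finalLR Pool.Agent.H72.RK.gamUniv theoremLR Pool.Agent.H72.RK.badToD supL
    Pool.Agent.H8.RK.formSmul numR2 zero

theorem finalS_holds : FinalS := finalS finalLR_holds numConv

end Pool.Agent.H48.RK
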