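import Mathlib

/-!
# Random hypersurfaces (MP_b509a1_ag, Theorem R): definitions

`Idx m d`: monomials of degree `d` in `m` variables, `phi z α = √(d!/α!) z^α`,
`form a z = ∑ a_α phi z α`, `gam T`: the standard complex Gaussian measure on `T → ℂ`.
-/

set_option autoImplicit false

namespace Pool.Agent.H48.RK

open MeasureTheory Metric Set
open scoped BigOperators ComplexConjugate

/-- exponent vectors of the monomials of degree `d` in `m` variables -/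
abbrev Idx (m d : ℕ) := ↥(Finset.piAntidiag (Finset.univ : Finset (Fin m)) d)

/-- the weighted monomial `√(d!/α!) z^α` -/
noncomputable def phi {m d : ℕ} (z : Fin m → ℂ) (α : Idx m d) : ℂ :=
  ((Real.sqrt (Nat.multinomial Finset.univ α.1 : ℝ) : ℝ) : ℂ) * ∏ i, z i ^ α.1 i

/-- the form of degree `d` with coefficient vector `a` -/
noncomputable def form {m d : ℕ} (a : Idx m d → ℂ) (z : Fin m → ℂ) : ℂ := ∑ α, a α * phi z α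

/-- density of the standard complex Gaussian: independent coordinates of density `exp(-|x|^2)/π` -/
noncomputable def dens {T : Type*} [Fintype T] (a : T → ℂ) : ℝ :=
  ∏ t, (Real.exp (-‖a t‖ ^ 2) / Real.pi)

/-- the standard complex Gaussian measure on `T → ℂ` -/
noncomputable def gam (T : Type*) [Fintype T] : Measure (T → ℂ) :=
  (volume : Measure (T → ℂ)).withDensity fun a => ENNReal.ofReal (dens a)

/-- the Hermitian space `ℂ^m` -/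
abbrev E (m : ℕ) := EuclideanSpace ℂ (Fin m)

/-- the hypersurface `form a = 0` of projective space contains a nonconstant entire curve -/
def Bad {m d : ℕ} (a : Idx m d → ℂ) : Prop :=
  ∃ g : ℂ → Fin m → ℂ, Differentiable ℂ g ∧ (∀ z, g z ≠ 0) ∧ (∀ z, form a (g z) = 0) ∧
    ¬ ∀ z, ∃ c : ℂ, g z = c • g 0

/-- normalised holomorphic discs -/
structure Disc {m : ℕ} (h : ℂ → E m) : Prop where
  diff : DifferentiableOn ℂ h (ball 0 1)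
  unit : ‖h 0‖ = 1
  orth : ∀ t ∈ ball (0 : ℂ) 1, inner ℂ (h 0) (h t - h 0) = 0
  le : ∀ t ∈ ball (0 : ℂ) 1, ‖h t - h 0‖ ≤ 3 / 5
  mov : 1 / 4 ≤ ‖deriv h 0‖

/-- the grid points -/
noncomputable def pt (d : ℕ) {m1 : ℕ} (i : Fin m1 × Fin m1) : ℂ :=
  ((27 / Real.sqrt d : ℝ) : ℂ) * (((i.1 : ℕ) : ℂ) + ((i.2 : ℕ) : ℂ) * Complex.I)

/-- the unit vector in direction `h t` -/
noncomputable def uv {m : ℕ} (h : ℂ → E m) (t : ℂ) : E m := ((‖h t‖⁻¹ : ℝ) : ℂ) • h t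

/-! ## Statements of the modules -/

/-- GAU-1 -/
def GamUniv : Prop := ∀ (T : Type) [Fintype T], gam T univ = 1

def GamShift : Prop := ∀ (T : Type) [Fintype T] (A : Set (T → ℂ)), MeasurableSet A →
  ∀ v : T → ℂ, 2 * ENNReal.ofReal (Real.exp (-∑ t, ‖v t‖ ^ 2)) * gam T A ≤
    gam T {a | a - v ∈ A} + gam T {a | a + v ∈ A}

def GamTail : Prop := ∀ (T : Type) [Fintype T] (v : T → ℂ), ∑ t, ‖v t‖ ^ 2 = 1 →
  ∀ B : ℝ, 0 ≤ B → gam T {a | B < ‖∑ t, a t * v t‖} ≤ ENNReal.ofReal (4 * Real.exp (-B ^ 2 / 2))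

/-- GAU-2 -/
def SmallBall : Prop := ∀ (T J : Type) [Fintype T] [Fintype J] [DecidableEq J] (v : J → T → ℂ),
  (∀ i, ∑ t, ‖v i t‖ ^ 2 = 1) →
  (∀ i, ∑ j ∈ Finset.univ.erase i, ‖∑ t, v i t * conj (v j t)‖ ≤ 1 / 2) →
  ∀ (x : J → ℂ) (η : ℝ), 0 < η → η ≤ 1 →
    gam T {a | ∀ i, ‖∑ t, a t * v i t + x i‖ ≤ η} ≤
      ENNReal.ofReal ((212 * η ^ 2) ^ Fintype.card J)

/-- KOS -/
def Kernel : Prop := ∀ (m d : ℕ) (z w : Fin m → ℂ),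
  ∑ α : Idx m d, phi z α * conj (phi w α) = (∑ i, z i * conj (w i)) ^ d

def FormSmul : Prop := ∀ (m d : ℕ) (a : Idx m d → ℂ) (c : ℂ) (z : Fin m → ℂ),
  form a (c • z) = c ^ d * form a z

def FormDiff : Prop := ∀ (m d : ℕ) (a : Idx m d → ℂ), Differentiable ℂ (fun z : E m => form a z.ofLp)

/-- GEO -/
def Geo : Prop := ∀ (m : ℕ) (g : ℂ → Fin m → ℂ), Differentiable ℂ g → (∀ z, g z ≠ 0) →
  (¬ ∀ z, ∃ c : ℂ, g z = c • g 0) →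
  ∃ h : ℂ → E m, Disc h ∧ ∀ t ∈ ball (0 : ℂ) 1, ∃ z c : ℂ, (h t).ofLp = c • g z

/-- the Fubini-Study derivative at `z` of the curve in projective space represented by `f` -/
noncomputable def fs {m : ℕ} (f : ℂ → Fin m → ℂ) (z : ℂ) : ℝ :=
  Real.sqrt ((∑ i, ‖f z i‖ ^ 2) * (∑ i, ‖deriv f z i‖ ^ 2) - ‖∑ i, f z i * conj (deriv f z i)‖ ^ 2) /
    ∑ i, ‖f z i‖ ^ 2

/-- there is a holomorphic map from the unit disc to the hypersurface `form a = 0` of projective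
space whose Fubini-Study derivative at `0` is at least `4` -/
def BadD {m d : ℕ} (a : Idx m d → ℂ) : Prop :=
  ∃ f : ℂ → Fin m → ℂ, DifferentiableOn ℂ f (ball 0 1) ∧ (∀ z ∈ ball (0 : ℂ) 1, f z ≠ 0) ∧
    (∀ z ∈ ball (0 : ℂ) 1, form a (f z) = 0) ∧ 4 ≤ fs f 0

/-- GEO, disc form (Hofer's lemma on the closed disc of radius 7/8 with ε = 1/4) -/
def GeoD : Prop := ∀ (m : ℕ) (f : ℂ → Fin m → ℂ), DifferentiableOn ℂ f (ball 0 1) →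
  (∀ z ∈ ball (0 : ℂ) 1, f z ≠ 0) → 4 ≤ fs f 0 →
  ∃ h : ℂ → E m, Disc h ∧ ∀ t ∈ ball (0 : ℂ) 1, ∃ z ∈ ball (0 : ℂ) 1, ∃ c : ℂ, (h t).ofLp = c • f z

/-- an entire curve gives large discs (rescale by `w ↦ x + R w`) -/
def BadToD : Prop := ∀ (m d : ℕ) (a : Idx m d → ℂ), Bad a → BadD a

/-- GRID -/
def GridIn : Prop := ∀ (d m1 : ℕ), 1 ≤ d → 459 * ((m1 : ℝ) - 1) ≤ Real.sqrt d →
  ∀ i : Fin m1 × Fin m1, ‖pt d i‖ ≤ 1 / 12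

def Grid : Prop := ∀ (m d m1 : ℕ), 1 ≤ d → 459 * ((m1 : ℝ) - 1) ≤ Real.sqrt d →
  ∀ h : ℂ → E m, Disc h → ∀ i : Fin m1 × Fin m1,
    ∑ j ∈ Finset.univ.erase i,
      ‖(∑ k, (uv h (pt d i)) k * conj ((uv h (pt d j)) k)) ^ d‖ ≤ 1 / 2

/-- CELL -/
def Cells : Prop := ∀ (m K : ℕ), 1 ≤ m →
  ∃ (C : Type) (_ : Fintype C) (cell : (ℂ → E m) → C),
    Fintype.card C ≤ (4 * m * 10 ^ K + 1) ^ (2 * m * (K + 1)) ∧
    ∀ h h' : ℂ → E m, Disc h → Disc h' → cell h = cell h' →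
      ∀ t : ℂ, ‖t‖ ≤ 1 / 12 → ‖h t - h' t‖ ≤ (1 / 10) ^ K

/-- LIP -/
def Lip : Prop := ∀ (m d : ℕ), 1 ≤ d → ∀ P : E m → ℂ, Differentiable ℂ P →
  ∀ S : ℝ, (∀ z, ‖P z‖ ≤ S * ‖z‖ ^ d) → ∀ z z' : E m, ‖z‖ = 1 → ‖z' - z‖ ≤ 1 / (2 * d) →
    ‖P z' - P z‖ ≤ 6 * d * S * ‖z' - z‖

/-- the sphere has a net of unit vectors of mesh `1/(12 d)` (LIP) -/
def Net : Prop := ∀ (m d : ℕ), 1 ≤ m → 1 ≤ d →
  ∃ N : Finset (E m), N.card ≤ (48 * d * m + 1) ^ (2 * m) ∧ (∀ z ∈ N, ‖z‖ = 1) ∧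
    ∀ z : E m, ‖z‖ = 1 → ∃ w ∈ N, ‖z - w‖ ≤ 1 / (12 * d)

/-- SUP -/
def SupBound : Prop := ∀ (m d : ℕ), 1 ≤ m → 1 ≤ d →
  8 * (m : ℝ) * Real.log (48 * d * m + 1) + 6 ≤ (d : ℝ) ^ 2 →
  gam (Idx m d) {a | ∃ z : E m, ‖z‖ = 1 ∧ 2 * (d : ℝ) < ‖form a z.ofLp‖} ≤
    ENNReal.ofReal (Real.exp (-(d : ℝ) ^ 2 / 4))

/-- NUM: choice of the number `m1` of grid points per side and of the accuracy `10^{-K}` -/
def Num : Prop := ∃ C c : ℝ, 0 < C ∧ 0 < c ∧ ∀ n d : ℕ, 1 ≤ n →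
  C * (n + 2) * Real.log (n + 2) ≤ d → ∃ m1 K : ℕ, 1 ≤ m1 ∧ 1 ≤ d ∧
    459 * ((m1 : ℝ) - 1) ≤ Real.sqrt d ∧
    8 * (n + 2) * (K + 1) ≤ m1 ^ 2 ∧
    5 * 10 ^ 9 * (d : ℝ) ^ 8 ≤ 10 ^ K ∧
    8 * ((n + 2 : ℕ) : ℝ) * Real.log (48 * d * ((n + 2 : ℕ) : ℝ) + 1) + 6 ≤ (d : ℝ) ^ 2 ∧
    (1 / 10 : ℝ) ^ K ≤ Real.exp (-c * d / (n + 2)) ^ 4 ∧
    Real.exp (-(d : ℝ) ^ 2 / 4) +
        (4 * ((n + 2 : ℕ) : ℝ) * 10 ^ K + 1) ^ (2 * (n + 2) * (K + 1)) * ((1 / 10 : ℝ) ^ K) ^ (m1 ^ 2) ≤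
      Real.exp (-c * d ^ 2 / (n + 2))

/-- THEOREM R -/
def TheoremR : Prop := ∃ C c : ℝ, 0 < C ∧ 0 < c ∧ ∀ n d : ℕ, 1 ≤ n →
  C * (n + 2) * Real.log (n + 2) ≤ d →
  ∀ a₀ : Idx (n + 2) d → ℂ, (∀ z : E (n + 2), ‖z‖ ≤ 1 → ‖form a₀ z.ofLp‖ ≤ 1) →
    ∀ s : ℝ, Real.exp (-c * d / (n + 2)) ≤ s →
      gam (Idx (n + 2) d) {a | Bad (a₀ + (s : ℂ) • a)} ≤
        ENNReal.ofReal (Real.exp (-c * d ^ 2 / (n + 2)))

/-- THEOREM R, disc form (stronger: with `BadToD` it contains `TheoremR`) -/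
def TheoremRD : Prop := ∃ C c : ℝ, 0 < C ∧ 0 < c ∧ ∀ n d : ℕ, 1 ≤ n →
  C * (n + 2) * Real.log (n + 2) ≤ d →
  ∀ a₀ : Idx (n + 2) d → ℂ, (∀ z : E (n + 2), ‖z‖ ≤ 1 → ‖form a₀ z.ofLp‖ ≤ 1) →
    ∀ s : ℝ, Real.exp (-c * d / (n + 2)) ≤ s →
      gam (Idx (n + 2) d) {a | BadD (a₀ + (s : ℂ) • a)} ≤
        ENNReal.ofReal (Real.exp (-c * d ^ 2 / (n + 2)))

end Pool.Agent.H48.RK
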