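import Pool.Agent.H48.RK.DefsL

/-!
# Theorem L with the parameter `r`: lower bounds for the Kobayashi metric

`0 < r ≤ 1` and `r² d ≥ C (n + 2) log (d + 2)`.  `r = 1` is Theorem L.
-/

set_option autoImplicit false

namespace Pool.Agent.H48.RK

open MeasureTheory Metric Set
open scoped BigOperators ComplexConjugate

/-- normalised holomorphic discs of size `r` -/
structure DiscR {m : ℕ} (r : ℝ) (h : ℂ → E m) : Prop where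
  diff : DifferentiableOn ℂ h (ball 0 1)
  unit : ‖h 0‖ = 1
  orth : ∀ t ∈ ball (0 : ℂ) 1, inner ℂ (h 0) (h t - h 0) = 0
  le : ∀ t ∈ ball (0 : ℂ) 1, ‖h t - h 0‖ ≤ 3 / 5 * r
  mov : r / 4 ≤ ‖deriv h 0‖

/-- the grid points -/
noncomputable def ptR (d : ℕ) (r : ℝ) {m1 : ℕ} (i : Fin m1 × Fin m1) : ℂ :=
  ((27 / (r * Real.sqrt d) : ℝ) : ℂ) * (((i.1 : ℕ) : ℂ) + ((i.2 : ℕ) : ℂ) * Complex.I)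

/-- the hypersurface `form a = 0` contains a disc with Fubini-Study derivative `≥ 4 r` at `0` -/
def BadR {m d : ℕ} (r : ℝ) (a : Idx m d → ℂ) : Prop :=
  ∃ f : ℂ → Fin m → ℂ, DifferentiableOn ℂ f (ball 0 1) ∧ (∀ z ∈ ball (0 : ℂ) 1, f z ≠ 0) ∧
    (∀ z ∈ ball (0 : ℂ) 1, form a (f z) = 0) ∧ 4 * r ≤ fs f 0

/-- some member of the linear system spanned by the forms `A i` contains such a disc -/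
def BadLR {m d k : ℕ} (r : ℝ) (A : Fin (k + 1) → Idx m d → ℂ) : Prop :=
  ∃ l : Fin (k + 1) → ℂ, l ≠ 0 ∧ BadR r (∑ i, l i • A i)

/-- GEOR (Hofer with ε = 1/4: `ε' D(x) ≥ r`, `D ≤ 2 D(x)` on `B(x, ε')`; rescale by `r / D(x)`;
`|p'| ≤ 2 r (1 + |p|²)`, `|p(w)| ≤ tan (2 r |w|) ≤ 3 r / 5` for `|w| ≤ 1/4`) -/
def GeoR : Prop := ∀ (m : ℕ) (r : ℝ), 0 < r → r ≤ 1 →
  ∀ f : ℂ → Fin m → ℂ, DifferentiableOn ℂ f (ball 0 1) →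
  (∀ z ∈ ball (0 : ℂ) 1, f z ≠ 0) → 4 * r ≤ fs f 0 →
  ∃ h : ℂ → E m, DiscR r h ∧
    ∀ t ∈ ball (0 : ℂ) 1, ∃ z ∈ ball (0 : ℂ) 1, ∃ c : ℂ, (h t).ofLp = c • f z

/-- GRIDR -/
def GridInR : Prop := ∀ (d m1 : ℕ) (r : ℝ), 0 < r → r ≤ 1 → 1 ≤ d →
  459 * ((m1 : ℝ) - 1) ≤ r * Real.sqrt d → ∀ i : Fin m1 × Fin m1, ‖ptR d r i‖ ≤ 1 / 12

def GridR : Prop := ∀ (m d m1 : ℕ) (r : ℝ), 0 < r → r ≤ 1 → 1 ≤ d →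
  459 * ((m1 : ℝ) - 1) ≤ r * Real.sqrt d →
  ∀ h : ℂ → E m, DiscR r h → ∀ i : Fin m1 × Fin m1,
    ∑ j ∈ Finset.univ.erase i,
      ‖(∑ k, (uv h (ptR d r i)) k * conj ((uv h (ptR d r j)) k)) ^ d‖ ≤ 1 / 2

/-- CELLR -/
def CellsR : Prop := ∀ (m K : ℕ), 1 ≤ m →
  ∃ (C : Type) (_ : Fintype C) (cell : (ℂ → E m) → C),
    Fintype.card C ≤ (4 * m * 10 ^ K + 1) ^ (2 * m * (K + 1)) ∧
    ∀ (r : ℝ), 0 < r → r ≤ 1 → ∀ h h' : ℂ → E m, DiscR r h → DiscR r h' → cell h = cell h' →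
      ∀ t : ℂ, ‖t‖ ≤ 1 / 12 → ‖h t - h' t‖ ≤ (1 / 10) ^ K

/-- NUMR -/
def NumR : Prop := ∃ C c : ℝ, 0 < C ∧ 0 < c ∧ ∀ (n d k : ℕ) (r : ℝ), 1 ≤ n → 0 < r → r ≤ 1 →
  C * (n + 2) * Real.log (d + 2) ≤ r ^ 2 * d → ((k : ℝ) + 1) ≤ c * (r ^ 2 * d) →
    ∃ m1 K : ℕ, 1 ≤ m1 ∧ 1 ≤ d ∧ k + 1 ≤ d ∧ 459 * ((m1 : ℝ) - 1) ≤ r * Real.sqrt d ∧
    2 * 10 ^ 10 * (d : ℝ) ^ 12 ≤ 10 ^ K ∧
    8 * ((n + 2 : ℕ) : ℝ) * Real.log (48 * d * ((n + 2 : ℕ) : ℝ) + 1) + 6 ≤ (d : ℝ) ^ 2 ∧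
    (1 / 10 : ℝ) ^ K ≤ Real.exp (-c * (r ^ 2 * d) / (n + 2)) ^ 4 ∧
    ((k : ℝ) + 1) * Real.exp (-(d : ℝ) ^ 2 / 4) +
        (4 * ((n + 2 : ℕ) : ℝ) * 10 ^ K + 1) ^ (2 * (n + 2) * (K + 1)) *
          (2 * (10 : ℝ) ^ K + 1) ^ (2 * (k + 1)) * ((1 / 10 : ℝ) ^ K) ^ (m1 ^ 2) ≤
      Real.exp (-c * (r ^ 2 * d) ^ 2 / (n + 2))

/-- NUMR2: exponentials beat polynomials (for the perturbation statement) -/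
def NumR2 : Prop := ∀ c : ℝ, 0 < c → ∃ C : ℝ, 0 < C ∧ ∀ (n d k : ℕ) (r : ℝ), 1 ≤ n → 0 < r → r ≤ 1 →
  C * (n + 2) * Real.log (d + 2) ≤ r ^ 2 * d → ((k : ℝ) + 1) ≤ d →
  2 * (d : ℝ) * Real.exp (-c * (r ^ 2 * d) / (n + 2)) ≤ Real.exp (-(c / 2) * (r ^ 2 * d) / (n + 2)) ∧
  1 ≤ d ∧ 8 * ((n + 2 : ℕ) : ℝ) * Real.log (48 * d * ((n + 2 : ℕ) : ℝ) + 1) + 6 ≤ (d : ℝ) ^ 2 ∧
  ((k : ℝ) + 1) * Real.exp (-(d : ℝ) ^ 2 / 4) + Real.exp (-c * (r ^ 2 * d) ^ 2 / (n + 2)) < 1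

/-- NUMCONV: the hypothesis for `r = 1` in terms of `n` alone -/
def NumConv : Prop := ∀ C : ℝ, 0 < C → ∃ C' : ℝ, 0 < C' ∧ ∀ n d : ℕ, 1 ≤ n →
  C' * (n + 2) * Real.log (n + 2) ≤ d → C * (n + 2) * Real.log (d + 2) ≤ d

/-- MAINR: THEOREM L with the parameter `r` -/
def TheoremLR : Prop := ∃ C c : ℝ, 0 < C ∧ 0 < c ∧ ∀ (n d k : ℕ) (r : ℝ), 1 ≤ n → 0 < r → r ≤ 1 →
  C * (n + 2) * Real.log (d + 2) ≤ r ^ 2 * d → ((k : ℝ) + 1) ≤ c * (r ^ 2 * d) →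
  ∀ A₀ : Fin (k + 1) → Idx (n + 2) d → ℂ,
    (∀ i, ∀ z : E (n + 2), ‖z‖ ≤ 1 → ‖form (A₀ i) z.ofLp‖ ≤ 1) →
    ∀ s : ℝ, Real.exp (-c * (r ^ 2 * d) / (n + 2)) ≤ s →
      gam (Fin (k + 1) × Idx (n + 2) d) {a | BadLR r (fun i α => A₀ i α + (s : ℂ) * a (i, α))} ≤
        ENNReal.ofReal (Real.exp (-c * (r ^ 2 * d) ^ 2 / (n + 2)))

/-- the hypersurface `form a = 0` is hyperbolic: Fubini-Study derivatives of discs at `0` are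
less than `4 r`, and entire curves are constant -/
def HypR {m d : ℕ} (r : ℝ) (a : Idx m d → ℂ) : Prop :=
  (∀ f : ℂ → Fin m → ℂ, DifferentiableOn ℂ f (ball 0 1) → (∀ z ∈ ball (0 : ℂ) 1, f z ≠ 0) →
    (∀ z ∈ ball (0 : ℂ) 1, form a (f z) = 0) → fs f 0 < 4 * r) ∧
  ∀ g : ℂ → Fin m → ℂ, Differentiable ℂ g → (∀ z, g z ≠ 0) → (∀ z, form a (g z) = 0) →
    ∀ z, ∃ c : ℂ, g z = c • g 0

/-- FINAL -/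
def FinalLR : Prop := ∃ C c : ℝ, 0 < C ∧ 0 < c ∧ ∀ (n d k : ℕ) (r : ℝ), 1 ≤ n → 0 < r → r ≤ 1 →
  C * (n + 2) * Real.log (d + 2) ≤ r ^ 2 * d → ((k : ℝ) + 1) ≤ c * (r ^ 2 * d) →
  ∀ A₀ : Fin (k + 1) → Idx (n + 2) d → ℂ,
    (∀ i, ∀ z : E (n + 2), ‖z‖ ≤ 1 → ‖form (A₀ i) z.ofLp‖ ≤ 1) →
    (∀ s : ℝ, Real.exp (-c * (r ^ 2 * d) / (n + 2)) ≤ s →
      gam (Fin (k + 1) × Idx (n + 2) d)
          {a | ¬ ∀ l : Fin (k + 1) → ℂ, l ≠ 0 →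
            HypR r (∑ i, l i • fun α => A₀ i α + (s : ℂ) * a (i, α))} ≤
        ENNReal.ofReal (Real.exp (-c * (r ^ 2 * d) ^ 2 / (n + 2)))) ∧
    (∃ A : Fin (k + 1) → Idx (n + 2) d → ℂ,
      (∀ l : Fin (k + 1) → ℂ, l ≠ 0 → HypR r (∑ i, l i • A i)) ∧
      ∀ i, ∀ z : E (n + 2), ‖z‖ ≤ 1 →
        ‖form (A i) z.ofLp - form (A₀ i) z.ofLp‖ ≤ Real.exp (-c * (r ^ 2 * d) / (n + 2))) ∧
    ∀ (P : Fin k → MvPolynomial (Idx (n + 2) d) ℂ) (e : Fin k → ℕ),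
      (∀ j, 1 ≤ e j) → (∀ j, (P j).IsHomogeneous (e j)) →
      ∃ a : Idx (n + 2) d → ℂ, HypR r a ∧ ∀ j, MvPolynomial.eval a (P j) = 0

end Pool.Agent.H48.RK
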