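import Pool.Agent.H48.RK.DefsR
import Pool.Agent.H48.RK.MainL
import Pool.Agent.H48.RK.Alg

/-!
# Final form of Theorem L with the parameter `r`
-/

set_option autoImplicit false

namespace Pool.Agent.H48.RK

open MeasureTheory Metric Set
open scoped BigOperators ComplexConjugate

lemma not_hypR_le (hB : BadToD) {m d : ℕ} {r : ℝ} (hr1 : r ≤ 1) {a : Idx m d → ℂ}
    (h : ¬ HypR r a) : BadR r a := by
  by_contra hn
  apply h
  refine ⟨fun f h1 h2 h3 => ?_, fun g h1 h2 h3 => ?_⟩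
  · by_contra h4
    exact hn ⟨f, h1, h2, h3, not_lt.1 h4⟩
  · by_contra h4
    obtain ⟨f, f1, f2, f3, f4⟩ := hB m d a ⟨g, h1, h2, h3, h4⟩
    exact hn ⟨f, f1, f2, f3, by linarith⟩

/-- polynomial conditions on a linear system -/
lemma alg_of_system (hZ : Zero) {m d k : ℕ} {r : ℝ} (A : Fin (k + 1) → Idx m d → ℂ)
    (hA : ∀ l : Fin (k + 1) → ℂ, l ≠ 0 → HypR r (∑ i, l i • A i))
    (P : Fin k → MvPolynomial (Idx m d) ℂ) (e : Fin k → ℕ)
    (he : ∀ j, 1 ≤ e j) (hP : ∀ j, (P j).IsHomogeneous (e j)) :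
    ∃ a : Idx m d → ℂ, HypR r a ∧ ∀ j, MvPolynomial.eval a (P j) = 0 := by
  let g : Idx m d → MvPolynomial (Fin (k + 1)) ℂ := fun α =>
    ∑ i, MvPolynomial.X i * MvPolynomial.C (A i α)
  have hg : ∀ α, (g α).IsHomogeneous 1 := by
    intro α
    apply MvPolynomial.IsHomogeneous.sum
    intro i _
    exact (MvPolynomial.isHomogeneous_X ℂ i).mul (MvPolynomial.isHomogeneous_C _ _)
  obtain ⟨l, hl, hz⟩ := hZ k (fun j => MvPolynomial.aeval g (P j)) e he (fun j => by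
    have := (hP j).aeval g hg
    rwa [one_mul] at this)
  refine ⟨∑ i, l i • A i, hA l hl, fun j => ?_⟩
  have h4 := hz j
  rw [eval_aeval] at h4
  have h5 : (∑ i, l i • A i) = fun α => MvPolynomial.eval l (g α) := by
    funext α
    simp [g, Finset.sum_apply, map_sum]
  rw [h5]
  exact h4

theorem finalLR (hU : GamUniv) (hR : TheoremLR) (hB : BadToD) (hS : SupL) (hF : FormSmul)
    (hN : NumR2) (hZ : Zero) : FinalLR := by
  obtain ⟨C₁, c, hC₁, hc, h1⟩ := hR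
  obtain ⟨C₂, hC₂, h2⟩ := hN c hc
  refine ⟨max C₁ C₂, min (c / 2) 1, lt_max_of_lt_left hC₁, by positivity,
    fun n d k r hn hr0 hr1 hd hk A₀ hA₀ => ?_⟩
  have hn0 : (0 : ℝ) < (n : ℝ) + 2 := by positivity
  obtain ⟨x, hx⟩ : ∃ x : ℝ, x = r ^ 2 * d := ⟨_, rfl⟩
  have hx0 : 0 ≤ x := by rw [hx]; positivity
  have hxd : x ≤ d := by
    rw [hx]
    have h3 : r ^ 2 ≤ 1 := by nlinarith
    have h4 : (0 : ℝ) ≤ d := Nat.cast_nonneg d
    nlinarith
  have hlog : 0 ≤ Real.log ((d : ℝ) + 2) := Real.log_nonneg (by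
    have : (0 : ℝ) ≤ d := Nat.cast_nonneg d
    linarith)
  have hnl : 0 ≤ ((n : ℝ) + 2) * Real.log ((d : ℝ) + 2) := by positivity
  have hc1 : min (c / 2) 1 ≤ c / 2 := min_le_left _ _
  have hc2 : min (c / 2) 1 ≤ 1 := min_le_right _ _
  have hd1 : C₁ * (n + 2) * Real.log (d + 2) ≤ r ^ 2 * d := by
    refine le_trans ?_ hd
    rw [mul_assoc, mul_assoc]
    exact mul_le_mul_of_nonneg_right (le_max_left _ _) hnl
  have hd2 : C₂ * (n + 2) * Real.log (d + 2) ≤ r ^ 2 * d := by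
    refine le_trans ?_ hd
    rw [mul_assoc, mul_assoc]
    exact mul_le_mul_of_nonneg_right (le_max_right _ _) hnl
  have hkx : (k : ℝ) + 1 ≤ c * (r ^ 2 * d) := by
    refine hk.trans ?_
    rw [← hx]
    nlinarith
  have hkd : (k : ℝ) + 1 ≤ d := by
    refine hk.trans ?_
    rw [← hx]
    nlinarith
  obtain ⟨h3, h4, h5, h6⟩ := h2 n d k r hn hr0 hr1 hd2 hkd
  have hcc : Real.exp (-c * (r ^ 2 * d) / (n + 2)) ≤
      Real.exp (-(min (c / 2) 1) * (r ^ 2 * d) / (n + 2)) := by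
    apply Real.exp_le_exp.2
    apply div_le_div_of_nonneg_right _ hn0.le
    rw [← hx]
    nlinarith
  have hcc1 : Real.exp (-(c / 2) * (r ^ 2 * d) / (n + 2)) ≤
      Real.exp (-(min (c / 2) 1) * (r ^ 2 * d) / (n + 2)) := by
    apply Real.exp_le_exp.2
    apply div_le_div_of_nonneg_right _ hn0.le
    rw [← hx]
    nlinarith
  have hcc2 : Real.exp (-c * (r ^ 2 * d) ^ 2 / (n + 2)) ≤
      Real.exp (-(min (c / 2) 1) * (r ^ 2 * d) ^ 2 / (n + 2)) := by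
    apply Real.exp_le_exp.2
    apply div_le_div_of_nonneg_right _ hn0.le
    have : (0 : ℝ) ≤ (r ^ 2 * d) ^ 2 := by positivity
    nlinarith
  have key : ∀ A₀ : Fin (k + 1) → Idx (n + 2) d → ℂ,
      (∀ i, ∀ z : E (n + 2), ‖z‖ ≤ 1 → ‖form (A₀ i) z.ofLp‖ ≤ 1) →
      ∀ s : ℝ, Real.exp (-c * (r ^ 2 * d) / (n + 2)) ≤ s →
      gam (Fin (k + 1) × Idx (n + 2) d)
          {a | ¬ ∀ l : Fin (k + 1) → ℂ, l ≠ 0 →
            HypR r (∑ i, l i • fun α => A₀ i α + (s : ℂ) * a (i, α))} ≤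
        ENNReal.ofReal (Real.exp (-c * (r ^ 2 * d) ^ 2 / (n + 2))) := by
    intro A₀ hA₀ s hs
    refine le_trans (measure_mono ?_) (h1 n d k r hn hr0 hr1 hd1 hkx A₀ hA₀ s hs)
    intro a ha
    rw [mem_ofPred_eq] at ha
    push Not at ha
    obtain ⟨l, hl, hh⟩ := ha
    exact ⟨l, hl, not_hypR_le hB hr1 hh⟩
  have exist : ∀ A₀ : Fin (k + 1) → Idx (n + 2) d → ℂ,
      (∀ i, ∀ z : E (n + 2), ‖z‖ ≤ 1 → ‖form (A₀ i) z.ofLp‖ ≤ 1) →
      ∃ A : Fin (k + 1) → Idx (n + 2) d → ℂ,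
      (∀ l : Fin (k + 1) → ℂ, l ≠ 0 → HypR r (∑ i, l i • A i)) ∧
      ∀ i, ∀ z : E (n + 2), ‖z‖ ≤ 1 → ‖form (A i) z.ofLp - form (A₀ i) z.ofLp‖ ≤
        Real.exp (-(min (c / 2) 1) * (r ^ 2 * d) / (n + 2)) := by
    intro A₀ hA₀
    obtain ⟨s, hs⟩ : ∃ s : ℝ, s = Real.exp (-c * (r ^ 2 * d) / (n + 2)) := ⟨_, rfl⟩
    have hs0 : 0 < s := by rw [hs]; exact Real.exp_pos _
    have hk1 := key A₀ hA₀ s hs.symm.le
    have hsup := hS (n + 2) d k (by omega) h4 h5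
    set S₁ : Set (Fin (k + 1) × Idx (n + 2) d → ℂ) := {a | ¬ ∀ l : Fin (k + 1) → ℂ, l ≠ 0 →
            HypR r (∑ i, l i • fun α => A₀ i α + (s : ℂ) * a (i, α))} with hS₁
    set S₂ : Set (Fin (k + 1) × Idx (n + 2) d → ℂ) :=
      {a | ∃ i, ∃ z : E (n + 2), ‖z‖ = 1 ∧ 2 * (d : ℝ) < ‖form (fun α => a (i, α)) z.ofLp‖} with hS₂
    have hlt : gam (Fin (k + 1) × Idx (n + 2) d) (S₁ ∪ S₂) < 1 := by
      refine lt_of_le_of_lt (measure_union_le _ _) ?_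
      refine lt_of_le_of_lt (add_le_add hk1 hsup) ?_
      rw [← ENNReal.ofReal_add (Real.exp_pos _).le (by positivity)]
      rw [← ENNReal.ofReal_one]
      rw [ENNReal.ofReal_lt_ofReal_iff one_pos]
      linarith
    obtain ⟨a, ha⟩ : ∃ a, a ∉ S₁ ∪ S₂ := by
      by_contra hcon
      push Not at hcon
      rw [eq_univ_of_forall hcon, hU] at hlt
      exact lt_irrefl _ hlt
    rw [mem_union, not_or] at ha
    obtain ⟨ha1, ha2⟩ := ha
    rw [hS₁, mem_ofPred_eq, not_not] at ha1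
    rw [hS₂, mem_ofPred_eq] at ha2
    push Not at ha2
    refine ⟨fun i α => A₀ i α + (s : ℂ) * a (i, α), ha1, fun i z hz => ?_⟩
    have e0 : form (fun α => A₀ i α + (s : ℂ) * a (i, α)) z.ofLp =
        form (A₀ i) z.ofLp + (s : ℂ) * form (fun α => a (i, α)) z.ofLp :=
      form_lin (A₀ i) (fun α => a (i, α)) (s : ℂ) z.ofLp
    rw [e0, add_sub_cancel_left, norm_mul, Complex.norm_real, Real.norm_of_nonneg hs0.le]
    have hfa : ‖form (fun α => a (i, α)) z.ofLp‖ ≤ 2 * d := by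
      refine (form_bound hF h4 (fun α => a (i, α)) (2 * d) (fun z hz => ha2 i z hz) z).trans ?_
      have : ‖z‖ ^ d ≤ 1 := pow_le_one₀ (norm_nonneg _) hz
      have h7 : (0 : ℝ) ≤ 2 * d := by positivity
      nlinarith
    calc s * ‖form (fun α => a (i, α)) z.ofLp‖ ≤ s * (2 * d) :=
          mul_le_mul_of_nonneg_left hfa hs0.le
      _ = 2 * (d : ℝ) * Real.exp (-c * (r ^ 2 * d) / (n + 2)) := by rw [hs]; ring
      _ ≤ _ := h3.trans hcc1
  refine ⟨fun s hs => (key A₀ hA₀ s (hcc.trans hs)).trans (ENNReal.ofReal_le_ofReal hcc2),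
    exist A₀ hA₀, fun P e he hP => ?_⟩
  obtain ⟨A, hA, -⟩ := exist (fun _ _ => 0) (fun i z _ => by simp [form])
  exact alg_of_system hZ A hA P e he hP

end Pool.Agent.H48.RK
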