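import Pool.Agent.H48.RK.MainL
import Pool.Agent.H48.RK.Cell
import Pool.Agent.H48.RK.Gau2
import Pool.Agent.H48.RK.LipNet
import Pool.Agent.H72.RK.Gau
import Pool.Agent.H74.RK.Geo
import Pool.Agent.H77.RK.Grid
import Pool.Agent.H8.RK.Kos

/-!
# MAINL, second part: the union bound
-/

set_option autoImplicit false

namespace Pool.Agent.H48.RK

open MeasureTheory Metric Set
open scoped BigOperators ComplexConjugate

lemma sum_sq_unit {m : ℕ} (z : E m) (hz : ‖z‖ = 1) : ∑ i, ‖z.ofLp i‖ ^ 2 = 1 := by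
  have h := EuclideanSpace.norm_sq_eq z
  rw [hz, one_pow] at h
  exact h.symm

lemma cell_bound {m d k K m1 : ℕ} (hd : 1 ≤ d) (hk : k + 1 ≤ d)
    (hm1 : 459 * ((m1 : ℝ) - 1) ≤ Real.sqrt d) {C : Type} (cell : (ℂ → E m) → C)
    (hcell : ∀ h h' : ℂ → E m, Disc h → Disc h' → cell h = cell h' →
      ∀ t : ℂ, ‖t‖ ≤ 1 / 12 → ‖h t - h' t‖ ≤ (1 / 10) ^ K)
    (hq : (1 / 10 : ℝ) ^ K ≤ 1 / (2 * d)) (b : Fin (k + 1) → Idx m d → ℂ) {B : ℝ} (hB : 0 < B)
    (hη : 8 * (d : ℝ) ^ 2 * B * (1 / 10) ^ K ≤ 1) (c : C)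
    (lam : Fin (k + 1) → Fin (2 * 10 ^ K + 1) × Fin (2 * 10 ^ K + 1)) :
    gam (Fin (k + 1) × Idx m d)
      {a | ∃ l h, Wit (fun i α => b i α + a (i, α)) l h ∧ cell h = c ∧ lcell K l = lam ∧
        ∀ i, ∀ z : E m, ‖z‖ = 1 → ‖form (fun α => b i α + a (i, α)) z.ofLp‖ ≤ B} ≤
      ENNReal.ofReal ((212 * (8 * (d : ℝ) ^ 2 * B * (1 / 10) ^ K) ^ 2) ^ (m1 ^ 2)) := by
  classical
  by_cases hex : ∃ (l : Fin (k + 1) → ℂ) (h : ℂ → E m), ∑ i, ‖l i‖ ^ 2 = 1 ∧ Disc h ∧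
      cell h = c ∧ lcell K l = lam
  · obtain ⟨l', h', hl', H', hc', hlam'⟩ := hex
    have hgi := Pool.Agent.H77.RK.gridIn d m1 hd hm1
    have hgr := Pool.Agent.H77.RK.grid m d m1 hd hm1 h' H'
    set zz : Fin m1 × Fin m1 → E m := fun j => uv h' (pt d j) with hzz
    have hzz1 : ∀ j, ‖zz j‖ = 1 := fun j => norm_uv H' (mem_ball_of (hgi j))
    have hl'1 : ∀ i, ‖l' i‖ ≤ 1 := by
      intro i
      have h1 : ‖l' i‖ ^ 2 ≤ 1 := by
        rw [← hl']
        exact Finset.single_le_sum (f := fun i => ‖l' i‖ ^ 2) (fun i _ => by positivity)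
          (Finset.mem_univ i)
      nlinarith [norm_nonneg (l' i)]
    have hsb := smallBall Pool.Agent.H72.RK.gamUniv Pool.Agent.H72.RK.gamShift
      (Fin (k + 1) × Idx m d) (Fin m1 × Fin m1)
      (fun j p => l' p.1 * phi (zz j).ofLp p.2) ?_ ?_
      (fun j => ∑ i, l' i * form (b i) (zz j).ofLp)
      (8 * (d : ℝ) ^ 2 * B * (1 / 10) ^ K) (by positivity) hη
    · refine le_trans (measure_mono ?_) (hsb.trans (le_of_eq ?_))
      · rintro a ⟨l, h, W, hc, hlam, hbd⟩ j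
        have hl1 : ∀ i, ‖l i‖ ≤ 1 := by
          intro i
          have h1 : ‖l i‖ ^ 2 ≤ 1 := by
            rw [← W.unit]
            exact Finset.single_le_sum (f := fun i => ‖l i‖ ^ 2) (fun i _ => by positivity)
              (Finset.mem_univ i)
          nlinarith [norm_nonneg (l i)]
        have hcore := core Pool.Agent.H8.RK.formSmul Pool.Agent.H8.RK.formDiff lip hd hk
          (F := fun i α => b i α + a (i, α)) hB.le hbd hq (by positivity) W H'
          (lcell_eq hl1 hl'1 (hlam.trans hlam'.symm)) (hgi j)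
          (hcell h h' W.disc H' (hc.trans hc'.symm) (pt d j) (hgi j))
        have e1 : ∑ t : Fin (k + 1) × Idx m d, a t * (l' t.1 * phi (zz j).ofLp t.2) +
            ∑ i, l' i * form (b i) (zz j).ofLp =
            ∑ i, l' i * form (fun α => b i α + a (i, α)) (uv h' (pt d j)).ofLp := by
          rw [Fintype.sum_prod_type, ← Finset.sum_add_distrib]
          refine Finset.sum_congr rfl fun i _ => ?_
          simp only [form, add_mul, Finset.sum_add_distrib, mul_add, Finset.mul_sum, hzz]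
          rw [add_comm]
          congr 1
          exact Finset.sum_congr rfl fun α _ => by ring
        simp only [e1]
        exact hcore
      · rw [Fintype.card_prod, Fintype.card_fin, sq m1]
    · intro j
      rw [Fintype.sum_prod_type]
      simp only [norm_mul, mul_pow]
      simp only [← Finset.mul_sum]
      rw [Pool.Agent.H8.RK.sum_norm_sq, sum_sq_unit (zz j) (hzz1 j), one_pow]
      simpa using hl'
    · intro i
      refine le_trans (le_of_eq ?_) (hgr i)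
      refine Finset.sum_congr rfl fun j _ => ?_
      congr 1
      rw [Fintype.sum_prod_type]
      have e2 : ∀ (p : Fin (k + 1)) (α : Idx m d),
          l' p * phi (zz i).ofLp α * conj (l' p * phi (zz j).ofLp α) =
          (l' p * conj (l' p)) * (phi (zz i).ofLp α * conj (phi (zz j).ofLp α)) := by
        intro p α
        rw [map_mul]
        ring
      simp only [e2, ← Finset.mul_sum]
      rw [Pool.Agent.H8.RK.kernel, ← Finset.sum_mul]
      have e3 : ∑ p, l' p * conj (l' p) = 1 := by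
        simp only [Complex.mul_conj, Complex.normSq_eq_norm_sq]
        exact_mod_cast hl'
      rw [e3, one_mul]
  · have : {a : Fin (k + 1) × Idx m d → ℂ | ∃ l h, Wit (fun i α => b i α + a (i, α)) l h ∧
        cell h = c ∧ lcell K l = lam ∧
        ∀ i, ∀ z : E m, ‖z‖ = 1 → ‖form (fun α => b i α + a (i, α)) z.ofLp‖ ≤ B} = ∅ := by
      rw [eq_empty_iff_forall_notMem]
      rintro a ⟨l, h, W, hc, hlam, -⟩
      exact hex ⟨l, h, W.unit, W.disc, hc, hlam⟩
    rw [this, measure_empty]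
    exact bot_le

lemma union_bound (hSup : SupL) {m d k K m1 : ℕ} (hm : 1 ≤ m) (hd1 : 1 ≤ d) (hkd : k + 1 ≤ d)
    (hgrid : 459 * ((m1 : ℝ) - 1) ≤ Real.sqrt d) (hK : 2 * 10 ^ 10 * (d : ℝ) ^ 12 ≤ 10 ^ K)
    (hsq : 8 * (m : ℝ) * Real.log (48 * d * m + 1) + 6 ≤ (d : ℝ) ^ 2)
    {ε : ℝ} (hε0 : 0 < ε) (hε1 : ε ≤ 1) (hqe : (1 / 10 : ℝ) ^ K ≤ ε ^ 4)
    (A₀ : Fin (k + 1) → Idx m d → ℂ)
    (hA₀ : ∀ i, ∀ z : E m, ‖z‖ ≤ 1 → ‖form (A₀ i) z.ofLp‖ ≤ 1) {s : ℝ} (hs : ε ≤ s) :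
    gam (Fin (k + 1) × Idx m d) {a | BadL (fun i α => A₀ i α + (s : ℂ) * a (i, α))} ≤
      ENNReal.ofReal ((k + 1) * Real.exp (-(d : ℝ) ^ 2 / 4)) +
      ENNReal.ofReal ((4 * (m : ℝ) * 10 ^ K + 1) ^ (2 * m * (K + 1)) *
          (2 * (10 : ℝ) ^ K + 1) ^ (2 * (k + 1)) * ((1 / 10 : ℝ) ^ K) ^ (m1 ^ 2)) := by
  classical
  have hs0 : 0 < s := lt_of_lt_of_le hε0 hs
  have hdr : (1 : ℝ) ≤ d := by exact_mod_cast hd1
  have hd0 : (0 : ℝ) < d := by linarith
  obtain ⟨q, hq⟩ : ∃ q : ℝ, q = (1 / 10 : ℝ) ^ K := ⟨_, rfl⟩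
  have hq0 : 0 < q := by rw [hq]; positivity
  have hqq : q * 10 ^ K = 1 := by
    rw [hq, ← mul_pow]
    norm_num
  have hq1 : q ≤ 1 := by rw [hq]; exact pow_le_one₀ (by norm_num) (by norm_num)
  have hKq : 2 * 10 ^ 10 * (d : ℝ) ^ 12 * q ≤ 1 := by
    calc 2 * 10 ^ 10 * (d : ℝ) ^ 12 * q ≤ 10 ^ K * q := mul_le_mul_of_nonneg_right hK hq0.le
      _ = 1 := by rw [mul_comm]; exact hqq
  obtain ⟨hη2, hη1⟩ := eta_le hdr hε0 hq0 hq1 hKq (hq ▸ hqe)
  have hq2 : q ≤ 1 / (2 * d) := by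
    rw [le_div_iff₀ (by positivity)]
    have h1 : (d : ℝ) ≤ (d : ℝ) ^ 12 := by
      calc (d : ℝ) = (d : ℝ) ^ 1 := (pow_one _).symm
        _ ≤ (d : ℝ) ^ 12 := pow_le_pow_right₀ hdr (by norm_num)
    have h2 : (d : ℝ) * q ≤ (d : ℝ) ^ 12 * q := mul_le_mul_of_nonneg_right h1 hq0.le
    linarith
  obtain ⟨B, hB⟩ : ∃ B : ℝ, B = 3 * d / ε := ⟨_, rfl⟩
  have hB0 : 0 < B := by rw [hB]; positivity
  have hBη : 8 * (d : ℝ) ^ 2 * B * q = 24 * (d : ℝ) ^ 3 * q / ε := by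
    rw [hB]
    ring
  obtain ⟨b, hb⟩ : ∃ b : Fin (k + 1) → Idx m d → ℂ, b = fun i => ((s : ℂ))⁻¹ • A₀ i := ⟨_, rfl⟩
  obtain ⟨Cc, instC, cell, hcard, hcell⟩ := cells m K hm
  set S : Cc × (Fin (k + 1) → Fin (2 * 10 ^ K + 1) × Fin (2 * 10 ^ K + 1)) →
      Set (Fin (k + 1) × Idx m d → ℂ) := fun p =>
      {a | ∃ l h, Wit (fun i α => b i α + a (i, α)) l h ∧ cell h = p.1 ∧ lcell K l = p.2 ∧
          ∀ i, ∀ z : E m, ‖z‖ = 1 → ‖form (fun α => b i α + a (i, α)) z.ofLp‖ ≤ B} with hS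
  have hsub : {a : Fin (k + 1) × Idx m d → ℂ | BadL (fun i α => A₀ i α + (s : ℂ) * a (i, α))} ⊆
      {a | ∃ i, ∃ z : E m, ‖z‖ = 1 ∧ 2 * (d : ℝ) < ‖form (fun α => a (i, α)) z.ofLp‖} ∪
      ⋃ p, S p := by
    intro a ha
    by_cases hbig : ∃ i, ∃ z : E m, ‖z‖ = 1 ∧ 2 * (d : ℝ) < ‖form (fun α => a (i, α)) z.ofLp‖
    · exact Or.inl hbig
    · right
      push Not at hbig
      have hs0' : (s : ℂ) ≠ 0 := by exact_mod_cast hs0.ne'
      have hbad : BadL (fun i α => b i α + a (i, α)) := by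
        obtain ⟨l, hl, hbd⟩ := ha
        refine ⟨l, hl, badD_of_smul (c := (s : ℂ)) hs0' ?_⟩
        convert hbd using 1
        rw [Finset.smul_sum]
        refine Finset.sum_congr rfl fun i _ => ?_
        funext α
        simp only [Pi.smul_apply, smul_eq_mul, hb]
        field_simp
      obtain ⟨l, h, W⟩ := wit_of_badL Pool.Agent.H74.RK.geoD Pool.Agent.H8.RK.formSmul hbad
      rw [mem_iUnion]
      refine ⟨(cell h, lcell K l), l, h, W, rfl, rfl, fun i z hz => ?_⟩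
      have e1 : form (fun α => b i α + a (i, α)) z.ofLp =
          form (b i) z.ofLp + form (fun α => a (i, α)) z.ofLp := form_add' (b i) _ _
      have e2 : ‖form (b i) z.ofLp‖ ≤ 1 / ε := by
        rw [hb]
        simp only [form_smul', norm_mul, norm_inv, Complex.norm_real, Real.norm_of_nonneg hs0.le]
        have h1 := hA₀ i z hz.le
        calc s⁻¹ * ‖form (A₀ i) z.ofLp‖ ≤ ε⁻¹ * 1 :=
              mul_le_mul (inv_anti₀ hε0 hs) h1 (norm_nonneg _) (by positivity)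
          _ = 1 / ε := by rw [mul_one, one_div]
      have e3 : (2 : ℝ) * d ≤ 2 * d / ε := by
        rw [le_div_iff₀ hε0]
        nlinarith
      rw [e1]
      calc ‖form (b i) z.ofLp + form (fun α => a (i, α)) z.ofLp‖
          ≤ ‖form (b i) z.ofLp‖ + ‖form (fun α => a (i, α)) z.ofLp‖ := norm_add_le _ _
        _ ≤ 1 / ε + 2 * d / ε := add_le_add e2 ((hbig i z hz).trans e3)
        _ ≤ B := by
            rw [hB, ← add_div]
            apply div_le_div_of_nonneg_right _ hε0.le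
            linarith
  refine (measure_mono hsub).trans ((measure_union_le _ _).trans ?_)
  refine add_le_add (hSup m d k hm hd1 hsq) ?_
  rw [← hq]
  have hone : ∀ p, gam (Fin (k + 1) × Idx m d) (S p) ≤ ENNReal.ofReal (q ^ (m1 ^ 2)) := by
    intro p
    have h1 := cell_bound (m1 := m1) hd1 hkd hgrid cell hcell (hq ▸ hq2) b hB0
      (by rw [← hq, hBη]; exact hη1) p.1 p.2
    refine h1.trans (ENNReal.ofReal_le_ofReal ?_)
    rw [← hq, hBη]
    exact pow_le_pow_left₀ (by positivity) hη2 _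
  refine (measure_iUnion_fintype_le _ _).trans ?_
  refine (Finset.sum_le_sum fun p _ => hone p).trans ?_
  rw [Finset.sum_const, Finset.card_univ, Fintype.card_prod, card_lcell, nsmul_eq_mul,
    ENNReal.ofReal_mul (by positivity)]
  gcongr
  rw [← ENNReal.ofReal_natCast]
  apply ENNReal.ofReal_le_ofReal
  push_cast
  have hcard' : (Fintype.card Cc : ℝ) ≤ (4 * (m : ℝ) * 10 ^ K + 1) ^ (2 * m * (K + 1)) := by
    exact_mod_cast hcard
  exact mul_le_mul_of_nonneg_right hcard' (by positivity)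

theorem mainL (hSup : SupL) (hNum : NumL) : TheoremL := by
  obtain ⟨C, c, hC, hc, hnum⟩ := hNum
  refine ⟨C, c, hC, hc, fun n d k hn hd hk A₀ hA₀ s hs => ?_⟩
  obtain ⟨m1, K, hm1, hd1, hkd, hgrid, hK, hsq, hqe, htot⟩ := hnum n d k hn hd hk
  have hε1 : Real.exp (-c * d / (n + 2)) ≤ 1 := by
    rw [Real.exp_le_one_iff]
    have h1 : (0 : ℝ) ≤ (n : ℝ) + 2 := by positivity
    apply div_nonpos_of_nonpos_of_nonneg _ h1
    have h2 : (0 : ℝ) ≤ c * d := by positivity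
    linarith
  refine (union_bound hSup (by omega) hd1 hkd hgrid hK hsq (Real.exp_pos _) hε1 hqe A₀ hA₀ hs).trans ?_
  rw [← ENNReal.ofReal_add (by positivity) (by positivity)]
  exact ENNReal.ofReal_le_ofReal htot

end Pool.Agent.H48.RK
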