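import Pool.Agent.H48.RK.MainR

/-!
# MAINP: Theorem L with the parameter `r`, robust form

The systems within distance `s exp(-r² d/(n+2))` of the random system are all good.
-/

set_option autoImplicit false

namespace Pool.Agent.H48.RK

open MeasureTheory Metric Set
open scoped BigOperators ComplexConjugate

/-- the forms `A i`, `A' i` differ by at most `κ` on the unit sphere -/
def Near {m d k : ℕ} (κ : ℝ) (A A' : Fin (k + 1) → Idx m d → ℂ) : Prop :=
  ∀ i, ∀ z : E m, ‖z‖ = 1 → ‖form (A' i) z.ofLp - form (A i) z.ofLp‖ ≤ κ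

/-- some system near `A` has a bad member -/
def BadLP {m d k : ℕ} (r κ : ℝ) (A : Fin (k + 1) → Idx m d → ℂ) : Prop :=
  ∃ A', Near κ A A' ∧ BadLR r A'

/-- MAINP -/
def TheoremLP : Prop := ∃ C c : ℝ, 0 < C ∧ 0 < c ∧ ∀ (n d k : ℕ) (r : ℝ), 1 ≤ n → 0 < r → r ≤ 1 →
  C * (n + 2) * Real.log (d + 2) ≤ r ^ 2 * d → ((k : ℝ) + 1) ≤ c * (r ^ 2 * d) →
  ∀ A₀ : Fin (k + 1) → Idx (n + 2) d → ℂ,
    (∀ i, ∀ z : E (n + 2), ‖z‖ ≤ 1 → ‖form (A₀ i) z.ofLp‖ ≤ 1) →
    ∀ s : ℝ, Real.exp (-c * (r ^ 2 * d) / (n + 2)) ≤ s →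
      gam (Fin (k + 1) × Idx (n + 2) d)
          {a | BadLP r (s * Real.exp (-(r ^ 2 * d) / (n + 2)))
            (fun i α => A₀ i α + (s : ℂ) * a (i, α))} ≤
        ENNReal.ofReal (Real.exp (-c * (r ^ 2 * d) ^ 2 / (n + 2)))

lemma cell_boundP (hGI : GridInR) (hGr : GridR) {m d k K m1 : ℕ} {r : ℝ} (hr0 : 0 < r)
    (hr1 : r ≤ 1) (hd : 1 ≤ d) (hk : k + 1 ≤ d)
    (hm1 : 459 * ((m1 : ℝ) - 1) ≤ r * Real.sqrt d) {C : Type} (cell : (ℂ → E m) → C)
    (hcell : ∀ h h' : ℂ → E m, DiscR r h → DiscR r h' → cell h = cell h' →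
      ∀ t : ℂ, ‖t‖ ≤ 1 / 12 → ‖h t - h' t‖ ≤ (1 / 10) ^ K)
    (hq : (1 / 10 : ℝ) ^ K ≤ 1 / (2 * d)) (b : Fin (k + 1) → Idx m d → ℂ) {B κ : ℝ} (hB : 0 < B)
    (hκ : 0 ≤ κ) (hη : 8 * (d : ℝ) ^ 2 * B * (1 / 10) ^ K + d * κ ≤ 1) (c : C)
    (lam : Fin (k + 1) → Fin (2 * 10 ^ K + 1) × Fin (2 * 10 ^ K + 1)) :
    gam (Fin (k + 1) × Idx m d)
      {a | ∃ A' l h, WitR r A' l h ∧ Near κ (fun i α => b i α + a (i, α)) A' ∧
        cell h = c ∧ lcell K l = lam ∧ ∀ i, ∀ z : E m, ‖z‖ = 1 → ‖form (A' i) z.ofLp‖ ≤ B} ≤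
      ENNReal.ofReal ((212 * (8 * (d : ℝ) ^ 2 * B * (1 / 10) ^ K + d * κ) ^ 2) ^ (m1 ^ 2)) := by
  classical
  by_cases hex : ∃ (l : Fin (k + 1) → ℂ) (h : ℂ → E m), ∑ i, ‖l i‖ ^ 2 = 1 ∧ DiscR r h ∧
      cell h = c ∧ lcell K l = lam
  · obtain ⟨l', h', hl', H', hc', hlam'⟩ := hex
    have hgi := hGI d m1 r hr0 hr1 hd hm1
    have hgr := hGr m d m1 r hr0 hr1 hd hm1 h' H'
    set zz : Fin m1 × Fin m1 → E m := fun j => uv h' (ptR d r j) with hzz
    have hzz1 : ∀ j, ‖zz j‖ = 1 := fun j => norm_uvR H' (mem_ball_of (hgi j))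
    have hl'1 : ∀ i, ‖l' i‖ ≤ 1 := by
      intro i
      have h1 : ‖l' i‖ ^ 2 ≤ 1 := by
        rw [← hl']
        exact Finset.single_le_sum (f := fun i => ‖l' i‖ ^ 2) (fun i _ => by positivity)
          (Finset.mem_univ i)
      nlinarith [norm_nonneg (l' i)]
    have hd0 : (0 : ℝ) < d := by exact_mod_cast hd
    have hsb := smallBall Pool.Agent.H72.RK.gamUniv Pool.Agent.H72.RK.gamShift
      (Fin (k + 1) × Idx m d) (Fin m1 × Fin m1)
      (fun j p => l' p.1 * phi (zz j).ofLp p.2) ?_ ?_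
      (fun j => ∑ i, l' i * form (b i) (zz j).ofLp)
      (8 * (d : ℝ) ^ 2 * B * (1 / 10) ^ K + d * κ) (by positivity) hη
    · refine le_trans (measure_mono ?_) (hsb.trans (le_of_eq ?_))
      · rintro a ⟨A', l, h, W, hnear, hc, hlam, hbd⟩ j
        have hl1 : ∀ i, ‖l i‖ ≤ 1 := by
          intro i
          have h1 : ‖l i‖ ^ 2 ≤ 1 := by
            rw [← W.unit]
            exact Finset.single_le_sum (f := fun i => ‖l i‖ ^ 2) (fun i _ => by positivity)
              (Finset.mem_univ i)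
          nlinarith [norm_nonneg (l i)]
        have hcore := coreR Pool.Agent.H8.RK.formSmul Pool.Agent.H8.RK.formDiff lip hd hk
          (F := A') hB.le hbd hq (by positivity) W H'
          (lcell_eq hl1 hl'1 (hlam.trans hlam'.symm)) (hgi j)
          (hcell h h' W.disc H' (hc.trans hc'.symm) (ptR d r j) (hgi j))
        have e1 : ∑ t : Fin (k + 1) × Idx m d, a t * (l' t.1 * phi (zz j).ofLp t.2) +
            ∑ i, l' i * form (b i) (zz j).ofLp =
            ∑ i, l' i * form (fun α => b i α + a (i, α)) (uv h' (ptR d r j)).ofLp := by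
          rw [Fintype.sum_prod_type, ← Finset.sum_add_distrib]
          refine Finset.sum_congr rfl fun i _ => ?_
          simp only [form, add_mul, Finset.sum_add_distrib, mul_add, Finset.mul_sum, hzz]
          rw [add_comm]
          congr 1
          exact Finset.sum_congr rfl fun α _ => by ring
        have e2 : ∑ i, l' i * form (fun α => b i α + a (i, α)) (uv h' (ptR d r j)).ofLp =
            ∑ i, l' i * form (A' i) (uv h' (ptR d r j)).ofLp -
            ∑ i, l' i * (form (A' i) (uv h' (ptR d r j)).ofLp -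
              form (fun α => b i α + a (i, α)) (uv h' (ptR d r j)).ofLp) := by
          rw [← Finset.sum_sub_distrib]
          exact Finset.sum_congr rfl fun i _ => by ring
        have e3 : ‖∑ i, l' i * (form (A' i) (uv h' (ptR d r j)).ofLp -
              form (fun α => b i α + a (i, α)) (uv h' (ptR d r j)).ofLp)‖ ≤ d * κ := by
          refine (norm_sum_le _ _).trans ?_
          calc ∑ i, ‖l' i * (form (A' i) (uv h' (ptR d r j)).ofLp -
                form (fun α => b i α + a (i, α)) (uv h' (ptR d r j)).ofLp)‖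
              ≤ ∑ _i : Fin (k + 1), κ := by
                refine Finset.sum_le_sum fun i _ => ?_
                rw [norm_mul]
                have h2 := hnear i (uv h' (ptR d r j)) (hzz1 j)
                calc ‖l' i‖ * _ ≤ 1 * κ :=
                      mul_le_mul (hl'1 i) h2 (norm_nonneg _) zero_le_one
                  _ = κ := one_mul κ
            _ = ((k + 1 : ℕ) : ℝ) * κ := by
                rw [Finset.sum_const, Finset.card_univ, Fintype.card_fin, nsmul_eq_mul]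
            _ ≤ d * κ := by
                apply mul_le_mul_of_nonneg_right _ hκ
                exact_mod_cast hk
        simp only [e1]
        rw [e2]
        exact (norm_sub_le _ _).trans (add_le_add hcore e3)
      · rw [Fintype.card_prod, Fintype.card_fin, sq m1]
    · intro j
      rw [Fintype.sum_prod_type]
      simp only [norm_mul, mul_pow]
      simp only [← Finset.mul_sum]
      have h1 : ∑ i, ‖(zz j).ofLp i‖ ^ 2 = 1 := by
        have h := EuclideanSpace.norm_sq_eq (zz j)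
        rw [hzz1 j, one_pow] at h
        exact h.symm
      rw [Pool.Agent.H8.RK.sum_norm_sq, h1, one_pow]
      simpa using hl'
    · intro i
      refine le_trans (le_of_eq ?_) (hgr i)
      refine Finset.sum_congr rfl fun j _ => ?_
      congr 1
      rw [Fintype.sum_prod_type]
      have e2 : ∀ (p : Fin (k + 1)) (α : Idx m d),
          l' p * phi (zz i).ofLp α * conj (l' p * phi (zz j).ofLp α) =
          (l' p * conj (l' p)) * (phi (zz i).ofLp α * conj (phi (zz j).ofLp α)) := by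
        intro p α
        rw [map_mul]
        ring
      simp only [e2, ← Finset.mul_sum]
      rw [Pool.Agent.H8.RK.kernel, ← Finset.sum_mul]
      have e3 : ∑ p, l' p * conj (l' p) = 1 := by
        simp only [Complex.mul_conj, Complex.normSq_eq_norm_sq]
        exact_mod_cast hl'
      rw [e3, one_mul]
  · have : {a : Fin (k + 1) × Idx m d → ℂ | ∃ A' l h, WitR r A' l h ∧
        Near κ (fun i α => b i α + a (i, α)) A' ∧ cell h = c ∧ lcell K l = lam ∧
        ∀ i, ∀ z : E m, ‖z‖ = 1 → ‖form (A' i) z.ofLp‖ ≤ B} = ∅ := by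
      rw [eq_empty_iff_forall_notMem]
      rintro a ⟨A', l, h, W, -, hc, hlam, -⟩
      exact hex ⟨l, h, W.unit, W.disc, hc, hlam⟩
    rw [this, measure_empty]
    exact bot_le

lemma union_boundP (hG : GeoR) (hGI : GridInR) (hGr : GridR) (hC : CellsR) (hSup : SupL)
    {m d k K m1 : ℕ} {r : ℝ} (hr0 : 0 < r) (hr1 : r ≤ 1) (hm : 1 ≤ m) (hd1 : 1 ≤ d)
    (hkd : k + 1 ≤ d)
    (hgrid : 459 * ((m1 : ℝ) - 1) ≤ r * Real.sqrt d) (hK : 2 * 10 ^ 10 * (d : ℝ) ^ 12 ≤ 10 ^ K)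
    (hsq : 8 * (m : ℝ) * Real.log (48 * d * m + 1) + 6 ≤ (d : ℝ) ^ 2)
    {ε κ : ℝ} (hε0 : 0 < ε) (hε1 : ε ≤ 1) (hqe : (1 / 10 : ℝ) ^ K ≤ ε ^ 4) (hκ0 : 0 ≤ κ)
    (hκ : κ ≤ (1 / 10 : ℝ) ^ K)
    (A₀ : Fin (k + 1) → Idx m d → ℂ)
    (hA₀ : ∀ i, ∀ z : E m, ‖z‖ ≤ 1 → ‖form (A₀ i) z.ofLp‖ ≤ 1) {s : ℝ} (hs : ε ≤ s) :
    gam (Fin (k + 1) × Idx m d) {a | BadLP r (s * κ) (fun i α => A₀ i α + (s : ℂ) * a (i, α))} ≤
      ENNReal.ofReal ((k + 1) * Real.exp (-(d : ℝ) ^ 2 / 4)) +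
      ENNReal.ofReal ((4 * (m : ℝ) * 10 ^ K + 1) ^ (2 * m * (K + 1)) *
          (2 * (10 : ℝ) ^ K + 1) ^ (2 * (k + 1)) * ((1 / 10 : ℝ) ^ K) ^ (m1 ^ 2)) := by
  classical
  have hs0 : 0 < s := lt_of_lt_of_le hε0 hs
  have hdr : (1 : ℝ) ≤ d := by exact_mod_cast hd1
  have hd0 : (0 : ℝ) < d := by linarith
  obtain ⟨q, hq⟩ : ∃ q : ℝ, q = (1 / 10 : ℝ) ^ K := ⟨_, rfl⟩
  rw [← hq] at hκ
  have hq0 : 0 < q := by rw [hq]; positivity
  have hqq : q * 10 ^ K = 1 := by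
    rw [hq, ← mul_pow]
    norm_num
  have hq1 : q ≤ 1 := by rw [hq]; exact pow_le_one₀ (by norm_num) (by norm_num)
  have hKq : 2 * 10 ^ 10 * (d : ℝ) ^ 12 * q ≤ 1 := by
    calc 2 * 10 ^ 10 * (d : ℝ) ^ 12 * q ≤ 10 ^ K * q := mul_le_mul_of_nonneg_right hK hq0.le
      _ = 1 := by rw [mul_comm]; exact hqq
  obtain ⟨hη2, hη1⟩ := eta_le hdr hε0 hq0 hq1 hKq (hq ▸ hqe)
  have hd4 : (4 : ℝ) ≤ d := by
    have hlog : 1 ≤ Real.log (48 * d * m + 1) := by
      have hmr : (1 : ℝ) ≤ m := by exact_mod_cast hm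
      rw [Real.le_log_iff_exp_le (by positivity)]
      have h1 := Real.exp_one_lt_d9
      have h2 : (1 : ℝ) ≤ d * m := by nlinarith
      nlinarith
    have hmr : (1 : ℝ) ≤ m := by exact_mod_cast hm
    have h14 : (14 : ℝ) ≤ (d : ℝ) ^ 2 := by nlinarith
    have h3 : ¬ d ≤ 3 := by
      intro h
      have : (d : ℝ) ≤ 3 := by exact_mod_cast h
      nlinarith
    have h4 : 4 ≤ d := by omega
    exact_mod_cast h4
  have hq2 : q ≤ 1 / (2 * d) := by
    rw [le_div_iff₀ (by positivity)]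
    have h1 : (d : ℝ) ≤ (d : ℝ) ^ 12 := by
      calc (d : ℝ) = (d : ℝ) ^ 1 := (pow_one _).symm
        _ ≤ (d : ℝ) ^ 12 := pow_le_pow_right₀ hdr (by norm_num)
    have h2 : (d : ℝ) * q ≤ (d : ℝ) ^ 12 * q := mul_le_mul_of_nonneg_right h1 hq0.le
    linarith
  obtain ⟨B, hB⟩ : ∃ B : ℝ, B = 5 / 2 * d / ε := ⟨_, rfl⟩
  have hB0 : 0 < B := by rw [hB]; positivity
  have hBη : 8 * (d : ℝ) ^ 2 * B * q + d * κ ≤ 24 * (d : ℝ) ^ 3 * q / ε := by
    have h1 : 8 * (d : ℝ) ^ 2 * B * q = 20 * (d ^ 3 * q / ε) := by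
      rw [hB]
      ring
    have h2 : d * κ ≤ d ^ 3 * q / ε := by
      rw [le_div_iff₀ hε0]
      have h3 : (d : ℝ) ≤ d ^ 3 := by
        calc (d : ℝ) = (d : ℝ) ^ 1 := (pow_one _).symm
          _ ≤ (d : ℝ) ^ 3 := pow_le_pow_right₀ hdr (by norm_num)
      calc d * κ * ε ≤ d * κ * 1 := mul_le_mul_of_nonneg_left hε1 (by positivity)
        _ = d * κ := mul_one _
        _ ≤ d ^ 3 * q := mul_le_mul h3 hκ hκ0 (by positivity)
    have h4 : 0 ≤ (d : ℝ) ^ 3 * q / ε := by positivity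
    have h5 : 24 * (d : ℝ) ^ 3 * q / ε = 24 * (d ^ 3 * q / ε) := by ring
    rw [h1, h5]
    linarith
  obtain ⟨b, hb⟩ : ∃ b : Fin (k + 1) → Idx m d → ℂ, b = fun i => ((s : ℂ))⁻¹ • A₀ i := ⟨_, rfl⟩
  obtain ⟨Cc, instC, cell, hcard, hcell⟩ := hC m K hm
  set S : Cc × (Fin (k + 1) → Fin (2 * 10 ^ K + 1) × Fin (2 * 10 ^ K + 1)) →
      Set (Fin (k + 1) × Idx m d → ℂ) := fun p =>
      {a | ∃ A' l h, WitR r A' l h ∧ Near κ (fun i α => b i α + a (i, α)) A' ∧
          cell h = p.1 ∧ lcell K l = p.2 ∧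
          ∀ i, ∀ z : E m, ‖z‖ = 1 → ‖form (A' i) z.ofLp‖ ≤ B} with hS
  have hsub : {a : Fin (k + 1) × Idx m d → ℂ |
        BadLP r (s * κ) (fun i α => A₀ i α + (s : ℂ) * a (i, α))} ⊆
      {a | ∃ i, ∃ z : E m, ‖z‖ = 1 ∧ 2 * (d : ℝ) < ‖form (fun α => a (i, α)) z.ofLp‖} ∪
      ⋃ p, S p := by
    intro a ha
    by_cases hbig : ∃ i, ∃ z : E m, ‖z‖ = 1 ∧ 2 * (d : ℝ) < ‖form (fun α => a (i, α)) z.ofLp‖
    · exact Or.inl hbig
    · right
      push Not at hbig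
      have hs0' : (s : ℂ) ≠ 0 := by exact_mod_cast hs0.ne'
      obtain ⟨A₁, hnear, l, hl, hbd⟩ := ha
      obtain ⟨A₂, hA₂⟩ : ∃ A₂ : Fin (k + 1) → Idx m d → ℂ, A₂ = fun i => ((s : ℂ))⁻¹ • A₁ i :=
        ⟨_, rfl⟩
      have hbad : BadLR r A₂ := by
        refine ⟨l, hl, badR_of_smul (c := (s : ℂ)) hs0' ?_⟩
        convert hbd using 1
        rw [Finset.smul_sum]
        refine Finset.sum_congr rfl fun i _ => ?_
        funext α
        simp only [Pi.smul_apply, smul_eq_mul, hA₂]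
        field_simp
      have hnear2 : Near κ (fun i α => b i α + a (i, α)) A₂ := by
        intro i z hz
        have h1 := hnear i z hz
        have e0 : form (fun α => b i α + a (i, α)) z.ofLp =
            ((s : ℂ))⁻¹ * form (fun α => A₀ i α + (s : ℂ) * a (i, α)) z.ofLp := by
          rw [← form_smul']
          congr 1
          funext α
          simp only [Pi.smul_apply, smul_eq_mul, hb]
          field_simp
        rw [e0, hA₂, form_smul', ← mul_sub, norm_mul, norm_inv, Complex.norm_real,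
          Real.norm_of_nonneg hs0.le]
        calc s⁻¹ * _ ≤ s⁻¹ * (s * κ) := mul_le_mul_of_nonneg_left h1 (by positivity)
          _ = κ := by rw [← mul_assoc, inv_mul_cancel₀ hs0.ne', one_mul]
      obtain ⟨l, h, W⟩ := wit_of_badLR hG Pool.Agent.H8.RK.formSmul hr0 hr1 hbad
      rw [mem_iUnion]
      refine ⟨(cell h, lcell K l), A₂, l, h, W, hnear2, rfl, rfl, fun i z hz => ?_⟩
      have e1 : form (fun α => b i α + a (i, α)) z.ofLp =
          form (b i) z.ofLp + form (fun α => a (i, α)) z.ofLp := form_add' (b i) _ _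
      have e2 : ‖form (b i) z.ofLp‖ ≤ 1 / ε := by
        rw [hb]
        simp only [form_smul', norm_mul, norm_inv, Complex.norm_real, Real.norm_of_nonneg hs0.le]
        have h1 := hA₀ i z hz.le
        calc s⁻¹ * ‖form (A₀ i) z.ofLp‖ ≤ ε⁻¹ * 1 :=
              mul_le_mul (inv_anti₀ hε0 hs) h1 (norm_nonneg _) (by positivity)
          _ = 1 / ε := by rw [mul_one, one_div]
      have e3 : (2 : ℝ) * d + 1 ≤ (2 * d + 1) / ε := by
        rw [le_div_iff₀ hε0]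
        nlinarith
      have e4 : ‖form (fun α => b i α + a (i, α)) z.ofLp‖ ≤ 1 / ε + 2 * d := by
        rw [e1]
        exact (norm_add_le _ _).trans (add_le_add e2 (hbig i z hz))
      have e5 : form (A₂ i) z.ofLp = (form (A₂ i) z.ofLp -
          form (fun α => b i α + a (i, α)) z.ofLp) +
          form (fun α => b i α + a (i, α)) z.ofLp := by ring
      rw [e5]
      calc ‖(form (A₂ i) z.ofLp - form (fun α => b i α + a (i, α)) z.ofLp) +
          form (fun α => b i α + a (i, α)) z.ofLp‖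
          ≤ κ + (1 / ε + 2 * d) := (norm_add_le _ _).trans (add_le_add (hnear2 i z hz) e4)
        _ ≤ 1 / ε + (2 * d + 1) := by linarith [hκ.trans hq1]
        _ ≤ 1 / ε + (2 * d + 1) / ε := by linarith
        _ ≤ B := by
            rw [hB, ← add_div]
            apply div_le_div_of_nonneg_right _ hε0.le
            linarith
  refine (measure_mono hsub).trans ((measure_union_le _ _).trans ?_)
  refine add_le_add (hSup m d k hm hd1 hsq) ?_
  rw [← hq]
  have hone : ∀ p, gam (Fin (k + 1) × Idx m d) (S p) ≤ ENNReal.ofReal (q ^ (m1 ^ 2)) := by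
    intro p
    have h1 := cell_boundP hGI hGr (m1 := m1) hr0 hr1 hd1 hkd hgrid cell (hcell r hr0 hr1)
      (hq ▸ hq2) b hB0 hκ0 (by rw [← hq]; exact hBη.trans hη1) p.1 p.2
    refine h1.trans (ENNReal.ofReal_le_ofReal ?_)
    rw [← hq]
    apply pow_le_pow_left₀ (by positivity)
    refine le_trans ?_ hη2
    apply mul_le_mul_of_nonneg_left _ (by norm_num)
    exact pow_le_pow_left₀ (by positivity) hBη _
  refine (measure_iUnion_fintype_le _ _).trans ?_
  refine (Finset.sum_le_sum fun p _ => hone p).trans ?_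
  rw [Finset.sum_const, Finset.card_univ, Fintype.card_prod, card_lcell, nsmul_eq_mul,
    ENNReal.ofReal_mul (by positivity)]
  gcongr
  rw [← ENNReal.ofReal_natCast]
  apply ENNReal.ofReal_le_ofReal
  push_cast
  have hcard' : (Fintype.card Cc : ℝ) ≤ (4 * (m : ℝ) * 10 ^ K + 1) ^ (2 * m * (K + 1)) := by
    exact_mod_cast hcard
  exact mul_le_mul_of_nonneg_right hcard' (by positivity)

/-- upper bound for `K` from the entropy inequality -/
lemma q_lower {m d k K m1 : ℕ} {r : ℝ} (hm : 3 ≤ m) (hK1 : 1 ≤ K)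
    (hgrid : 459 * ((m1 : ℝ) - 1) ≤ r * Real.sqrt d)
    (htot : (4 * (m : ℝ) * 10 ^ K + 1) ^ (2 * m * (K + 1)) *
          (2 * (10 : ℝ) ^ K + 1) ^ (2 * (k + 1)) * ((1 / 10 : ℝ) ^ K) ^ (m1 ^ 2) ≤ 1) :
    Real.exp (-(r ^ 2 * d) / m) ≤ (1 / 10 : ℝ) ^ K := by
  have hmr : (3 : ℝ) ≤ m := by exact_mod_cast hm
  have hm0 : (0 : ℝ) < m := by linarith
  have hQ1 : (1 : ℝ) < 10 ^ K := one_lt_pow₀ (by norm_num) (by omega)
  have hQ0 : (0 : ℝ) < 10 ^ K := by positivity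
  have h1 : ((10 : ℝ) ^ K) ^ (2 * m * (K + 1)) * ((1 / 10 : ℝ) ^ K) ^ (m1 ^ 2) ≤ 1 := by
    refine le_trans ?_ htot
    apply mul_le_mul_of_nonneg_right _ (by positivity)
    calc ((10 : ℝ) ^ K) ^ (2 * m * (K + 1)) ≤ (4 * (m : ℝ) * 10 ^ K + 1) ^ (2 * m * (K + 1)) := by
          apply pow_le_pow_left₀ hQ0.le
          nlinarith
      _ = (4 * (m : ℝ) * 10 ^ K + 1) ^ (2 * m * (K + 1)) * 1 := (mul_one _).symm
      _ ≤ _ := by
          apply mul_le_mul_of_nonneg_left _ (by positivity)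
          apply one_le_pow₀
          linarith
  have h2 : ((10 : ℝ) ^ K) ^ (2 * m * (K + 1)) ≤ ((10 : ℝ) ^ K) ^ (m1 ^ 2) := by
    have e1 : ((1 / 10 : ℝ) ^ K) ^ (m1 ^ 2) = (((10 : ℝ) ^ K) ^ (m1 ^ 2))⁻¹ := by
      rw [one_div, inv_pow, inv_pow]
    rw [e1, ← div_eq_mul_inv, div_le_one (by positivity)] at h1
    exact h1
  have h3 : 2 * m * (K + 1) ≤ m1 ^ 2 := (pow_le_pow_iff_right₀ hQ1).1 h2
  have h4 : 12 ≤ m1 ^ 2 := by
    refine le_trans ?_ h3
    nlinarith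
  have h5 : 4 ≤ m1 := by
    by_contra h
    have : m1 ≤ 3 := by omega
    nlinarith
  have h5r : (4 : ℝ) ≤ m1 := by exact_mod_cast h5
  have hd0 : (0 : ℝ) ≤ d := Nat.cast_nonneg d
  have h6 : (344 : ℝ) * m1 ≤ r * Real.sqrt d := by linarith
  have h7 : ((344 : ℝ) * m1) ^ 2 ≤ r ^ 2 * d := by
    calc ((344 : ℝ) * m1) ^ 2 ≤ (r * Real.sqrt d) ^ 2 := pow_le_pow_left₀ (by positivity) h6 2
      _ = r ^ 2 * d := by rw [mul_pow, Real.sq_sqrt hd0]
  have h3r : 2 * (m : ℝ) * (K + 1) ≤ (m1 : ℝ) ^ 2 := by exact_mod_cast h3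
  have h8 : 3 * (K : ℝ) * m ≤ r ^ 2 * d := by nlinarith [(Nat.cast_nonneg K : (0 : ℝ) ≤ K)]
  have h9 : Real.log 10 ≤ 3 := by
    rw [Real.log_le_iff_le_exp (by norm_num)]
    have h6 : (2.7182818283 : ℝ) ^ 3 < Real.exp 1 ^ 3 :=
      pow_lt_pow_left₀ Real.exp_one_gt_d9 (by norm_num) (by norm_num)
    have h7 : Real.exp 3 = Real.exp 1 ^ 3 := by
      rw [← Real.exp_nat_mul]
      norm_num
    rw [h7]
    norm_num at h6
    linarith
  have h10 : (10 : ℝ) ^ K ≤ Real.exp (r ^ 2 * d / m) := by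
    rw [← Real.log_le_iff_le_exp hQ0, Real.log_pow, le_div_iff₀ hm0]
    calc (K : ℝ) * Real.log 10 * m ≤ K * 3 * m := by
          apply mul_le_mul_of_nonneg_right _ hm0.le
          exact mul_le_mul_of_nonneg_left h9 (Nat.cast_nonneg K)
      _ = 3 * (K : ℝ) * m := by ring
      _ ≤ _ := h8
  rw [neg_div, Real.exp_neg, one_div, inv_pow]
  exact inv_anti₀ hQ0 h10

theorem mainP (hG : GeoR) (hGI : GridInR) (hGr : GridR) (hC : CellsR) (hSup : SupL)
    (hNum : NumR) : TheoremLP := by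
  obtain ⟨C, c, hC0, hc, hnum⟩ := hNum
  refine ⟨C, c, hC0, hc, fun n d k r hn hr0 hr1 hd hk A₀ hA₀ s hs => ?_⟩
  obtain ⟨m1, K, hm1, hd1, hkd, hgrid, hK, hsq, hqe, htot⟩ := hnum n d k r hn hr0 hr1 hd hk
  have hn2 : (0 : ℝ) ≤ (n : ℝ) + 2 := by positivity
  have hε1 : Real.exp (-c * (r ^ 2 * d) / (n + 2)) ≤ 1 := by
    rw [Real.exp_le_one_iff]
    apply div_nonpos_of_nonpos_of_nonneg _ hn2
    have h2 : (0 : ℝ) ≤ c * (r ^ 2 * d) := by positivity
    linarith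
  have hK1 : 1 ≤ K := by
    by_contra h
    have h0 : K = 0 := by omega
    rw [h0, pow_zero] at hK
    have : (1 : ℝ) ≤ (d : ℝ) ^ 12 := one_le_pow₀ (by exact_mod_cast hd1)
    linarith
  have htot1 : (4 * ((n + 2 : ℕ) : ℝ) * 10 ^ K + 1) ^ (2 * (n + 2) * (K + 1)) *
          (2 * (10 : ℝ) ^ K + 1) ^ (2 * (k + 1)) * ((1 / 10 : ℝ) ^ K) ^ (m1 ^ 2) ≤ 1 := by
    have h1 : Real.exp (-c * (r ^ 2 * d) ^ 2 / (n + 2)) ≤ 1 := by
      rw [Real.exp_le_one_iff]
      apply div_nonpos_of_nonpos_of_nonneg _ hn2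
      have h2 : (0 : ℝ) ≤ c * (r ^ 2 * d) ^ 2 := by positivity
      linarith
    have h2 : 0 ≤ ((k : ℝ) + 1) * Real.exp (-(d : ℝ) ^ 2 / 4) := by positivity
    linarith
  have hκ := q_lower (m := n + 2) (d := d) (k := k) (by omega) hK1 hgrid htot1
  push_cast at hκ
  refine (union_boundP hG hGI hGr hC hSup hr0 hr1 (by omega) hd1 hkd hgrid hK hsq
    (Real.exp_pos _) hε1 hqe (Real.exp_pos _).le hκ A₀ hA₀ hs).trans ?_
  rw [← ENNReal.ofReal_add (by positivity) (by positivity)]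
  exact ENNReal.ofReal_le_ofReal htot

end Pool.Agent.H48.RK
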